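import Mathlib

set_option autoImplicit false
set_option linter.unusedSectionVars false
open Finset

namespace Pool.Agent.V11201.EB

variable {m : ℕ}

/-- the code of a set -/
def cd (s : Finset (Fin m)) : ℕ := ∑ i ∈ s, 2 ^ (i : ℕ)

theorem cd_tb (s : Finset (Fin m)) (j : ℕ) : (cd s).testBit j = true ↔ ∃ i ∈ s, (i : ℕ) = j := by
  have h1 : cd s = ∑ i ∈ s.map Fin.valEmbedding, 2 ^ i := by
    rw [sum_map]; rfl
  have h2 : j ∈ (cd s).bitIndices.toFinset ↔ (cd s).testBit j = true := by
    rw [List.mem_toFinset, Nat.mem_bitIndices]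
  rw [← h2, h1, toFinset_bitIndices_sum_two_pow, mem_map]
  simp

theorem cd_tb_fin (s : Finset (Fin m)) (i : Fin m) : (cd s).testBit i = true ↔ i ∈ s := by
  rw [cd_tb]
  constructor
  · rintro ⟨j, hj, h⟩
    rwa [← Fin.ext h]
  · intro h
    exact ⟨i, h, rfl⟩

theorem cd_union {s t : Finset (Fin m)} (h : Disjoint s t) : cd (s ∪ t) = cd s + cd t :=
  sum_union h

theorem cd_insert {s : Finset (Fin m)} {v : Fin m} (h : v ∉ s) :
    cd (insert v s) = 2 ^ (v : ℕ) + cd s := sum_insert h

theorem cd_single (v : Fin m) : cd ({v} : Finset (Fin m)) = 2 ^ (v : ℕ) := sum_singleton _ _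

theorem cd_inj : Function.Injective (cd (m := m)) := by
  intro s t h
  ext i
  rw [← cd_tb_fin, ← cd_tb_fin, h]

theorem cd_lt (s : Finset (Fin m)) : cd s < 2 ^ m := by
  apply Nat.lt_pow_two_of_testBit
  intro i hi
  rw [← Bool.not_eq_true, cd_tb]
  rintro ⟨j, -, rfl⟩
  have := j.2
  omega

theorem image_cd : (univ : Finset (Finset (Fin m))).image cd = range (2 ^ m) := by
  apply eq_of_subset_of_card_le
  · intro j hj
    obtain ⟨s, -, rfl⟩ := mem_image.1 hj
    exact mem_range.2 (cd_lt s)
  · rw [card_image_of_injective _ cd_inj, card_range, card_univ]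
    simp

/-- the family of sets of a bitset -/
def dec (m x : ℕ) : Finset (Finset (Fin m)) := univ.filter (fun s => x.testBit (cd s) = true)

theorem mem_dec {x : ℕ} {s : Finset (Fin m)} : s ∈ dec m x ↔ x.testBit (cd s) = true := by
  simp [dec]

/-- the bitset of the sets contained in a mask -/
def dcl (g : ℕ) : ℕ → ℕ
  | 0 => 1
  | k + 1 => bif Nat.testBit g k then
      Nat.lor (dcl g k) (Nat.shiftLeft (dcl g k) (Nat.pow 2 k)) else dcl g k

theorem tb_split {k j i : ℕ} (h1 : 2 ^ k ≤ j) (h2 : i < k) :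
    (j - 2 ^ k).testBit i = j.testBit i := by
  conv_rhs => rw [← Nat.add_sub_cancel' h1]
  rw [Nat.testBit_two_pow_add_gt h2]

theorem tb_top {k j : ℕ} (h1 : 2 ^ k ≤ j) (h2 : j < 2 ^ (k + 1)) : j.testBit k = true := by
  apply Nat.testBit_of_two_pow_le_and_two_pow_add_one_gt h1 h2

theorem dcl_tb (g k j : ℕ) : (dcl g k).testBit j = true ↔
    j < 2 ^ k ∧ ∀ i, j.testBit i = true → g.testBit i = true := by
  induction k generalizing j with
  | zero =>
    change (1 : ℕ).testBit j = true ↔ _
    constructor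
    · intro h
      have : j = 0 := by
        by_contra hj
        rw [← Nat.pow_zero 2, Nat.testBit_two_pow_of_ne (Ne.symm hj)] at h
        exact Bool.false_ne_true h
      subst this
      simp
    · rintro ⟨h, -⟩
      have : j = 0 := by simpa using h
      subst this
      decide
  | succ k ih =>
    have e : dcl g (k + 1) = bif Nat.testBit g k then
      Nat.lor (dcl g k) (Nat.shiftLeft (dcl g k) (Nat.pow 2 k)) else dcl g k := rfl
    have hk : 2 ^ (k + 1) = 2 ^ k + 2 ^ k := by rw [pow_succ]; ring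
    rw [e]
    cases hg : g.testBit k with
    | true =>
      rw [cond_true]
      change (dcl g k ||| dcl g k <<< 2 ^ k).testBit j = true ↔ _
      rw [Nat.testBit_or, Nat.testBit_shiftLeft, Bool.or_eq_true, Bool.and_eq_true,
        decide_eq_true_iff, ih, ih]
      constructor
      · rintro (⟨h1, h2⟩ | ⟨h1, h2, h3⟩)
        · exact ⟨by omega, h2⟩
        · refine ⟨by omega, ?_⟩
          intro i hi
          rcases lt_trichotomy i k with h | h | h
          · apply h3
            rw [tb_split h1 h]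
            exact hi
          · rw [h]; exact hg
          · exfalso
            have h4 : j < 2 ^ i := lt_of_lt_of_le (by omega : j < 2 ^ (k + 1))
              (Nat.pow_le_pow_right (by norm_num) h)
            rw [Nat.testBit_lt_two_pow h4] at hi
            exact Bool.false_ne_true hi
      · rintro ⟨h1, h2⟩
        rcases lt_or_ge j (2 ^ k) with h | h
        · exact Or.inl ⟨h, h2⟩
        · refine Or.inr ⟨h, by omega, ?_⟩
          intro i hi
          rcases lt_or_ge i k with h3 | h3
          · rw [tb_split h h3] at hi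
            exact h2 i hi
          · exfalso
            have h4 : j - 2 ^ k < 2 ^ i := lt_of_lt_of_le (by omega : j - 2 ^ k < 2 ^ k)
              (Nat.pow_le_pow_right (by norm_num) h3)
            rw [Nat.testBit_lt_two_pow h4] at hi
            exact Bool.false_ne_true hi
    | false =>
      rw [cond_false, ih]
      constructor
      · rintro ⟨h1, h2⟩
        exact ⟨by omega, h2⟩
      · rintro ⟨h1, h2⟩
        refine ⟨?_, h2⟩
        by_contra hcon
        have h3 := h2 k (tb_top (not_lt.1 hcon) h1)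
        rw [hg] at h3
        exact Bool.false_ne_true h3

/-- the bitset of the sets disjoint from a set -/
def Ms (m p : ℕ) : ℕ := dcl (Nat.xor (2 ^ m - 1) p) m

theorem Ms_tb (s r : Finset (Fin m)) : (Ms m (cd s)).testBit (cd r) = true ↔ Disjoint s r := by
  unfold Ms
  rw [dcl_tb, disjoint_left]
  have key : ∀ i : Fin m, (Nat.xor (2 ^ m - 1) (cd s)).testBit i = true ↔ i ∉ s := by
    intro i
    change ((2 ^ m - 1) ^^^ cd s).testBit i = true ↔ _
    rw [Nat.testBit_xor, Nat.testBit_two_pow_sub_one]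
    have := i.2
    rw [← cd_tb_fin]
    cases (cd s).testBit (i : ℕ) <;> simp [this]
  constructor
  · rintro ⟨-, h⟩ i hi hir
    exact (key i).1 (h i ((cd_tb_fin _ _).2 hir)) hi
  · intro h
    refine ⟨cd_lt r, ?_⟩
    intro j hj
    obtain ⟨i, hi, rfl⟩ := (cd_tb _ _).1 hj
    exact (key i).2 (fun his => h his hi)

/-- deletion -/
def dl (m x v : ℕ) : ℕ := Nat.land x (Ms m (Nat.pow 2 v))

/-- link of a set with a code -/
def lk (m x p : ℕ) : ℕ := Nat.land (Nat.shiftRight x p) (Ms m p)

theorem mem_dl {x : ℕ} {v : Fin m} {s : Finset (Fin m)} :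
    s ∈ dec m (dl m x v) ↔ s ∈ dec m x ∧ v ∉ s := by
  rw [mem_dec, mem_dec]
  change (x &&& Ms m (2 ^ (v : ℕ))).testBit (cd s) = true ↔ _
  rw [Nat.testBit_and, Bool.and_eq_true, ← cd_single, Ms_tb, disjoint_singleton_left]

theorem mem_lk {x : ℕ} {t : Finset (Fin m)} {s : Finset (Fin m)} :
    s ∈ dec m (lk m x (cd t)) ↔ Disjoint t s ∧ t ∪ s ∈ dec m x := by
  rw [mem_dec, mem_dec]
  change ((x >>> cd t) &&& Ms m (cd t)).testBit (cd s) = true ↔ _
  rw [Nat.testBit_and, Bool.and_eq_true, Ms_tb, Nat.testBit_shiftRight]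
  constructor
  · rintro ⟨h1, h2⟩
    rw [cd_union h2]
    exact ⟨h2, h1⟩
  · rintro ⟨h1, h2⟩
    rw [cd_union h1] at h2
    exact ⟨h2, h1⟩

theorem mem_lkv {x : ℕ} {v : Fin m} {s : Finset (Fin m)} :
    s ∈ dec m (lk m x (Nat.pow 2 v)) ↔ v ∉ s ∧ insert v s ∈ dec m x := by
  have : Nat.pow 2 (v : ℕ) = cd ({v} : Finset (Fin m)) := (cd_single v).symm
  rw [this, mem_lk, disjoint_singleton_left, insert_eq]

/-- down-closed families -/
def DC (L : Finset (Finset (Fin m))) : Prop := ∀ s ∈ L, ∀ t ⊆ s, t ∈ L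

/-- the deletion -/
def Dl (L : Finset (Finset (Fin m))) (v : Fin m) : Finset (Finset (Fin m)) :=
  L.filter (fun s => v ∉ s)

/-- the link -/
def Lk (L : Finset (Finset (Fin m))) (v : Fin m) : Finset (Finset (Fin m)) :=
  L.filter (fun s => v ∉ s ∧ insert v s ∈ L)

theorem DC.dl {L : Finset (Finset (Fin m))} (h : DC L) (v : Fin m) : DC (Dl L v) := by
  intro s hs t ht
  rw [Dl, mem_filter] at hs ⊢
  exact ⟨h s hs.1 t ht, fun hv => hs.2 (ht hv)⟩

theorem DC.lk {L : Finset (Finset (Fin m))} (h : DC L) (v : Fin m) : DC (Lk L v) := by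
  intro s hs t ht
  rw [Lk, mem_filter] at hs ⊢
  exact ⟨h s hs.1 t ht, fun hv => hs.2.1 (ht hv), h _ hs.2.2 _ (insert_subset_insert _ ht)⟩

theorem dec_dl {x : ℕ} (v : Fin m) : Dl (dec m x) v = dec m (dl m x v) := by
  ext s
  rw [mem_dl, Dl, mem_filter]

theorem dec_lk {x : ℕ} (h : DC (dec m x)) (v : Fin m) :
    Lk (dec m x) v = dec m (lk m x (Nat.pow 2 v)) := by
  ext s
  rw [mem_lkv, Lk, mem_filter]
  constructor
  · rintro ⟨-, h2⟩
    exact h2
  · rintro ⟨h1, h2⟩
    exact ⟨h _ h2 _ (subset_insert _ _), h1, h2⟩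

theorem card_split {L : Finset (Finset (Fin m))} (h : DC L) (v : Fin m) :
    L.card = (Dl L v).card + (Lk L v).card := by
  classical
  have h1 : L.card = (L.filter (fun s => v ∉ s)).card + (L.filter (fun s => ¬ v ∉ s)).card :=
    (card_filter_add_card_filter_not (fun s => v ∉ s)).symm
  rw [h1]
  congr 1
  symm
  apply card_bij (fun s _ => insert v s)
  · intro s hs
    rw [Lk, mem_filter] at hs
    rw [mem_filter]
    exact ⟨hs.2.2, by simp⟩
  · intro s hs t ht hst
    rw [Lk, mem_filter] at hs ht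
    rw [← erase_insert hs.2.1, ← erase_insert ht.2.1, hst]
  · intro s hs
    rw [mem_filter, not_not] at hs
    refine ⟨s.erase v, ?_, insert_erase hs.2⟩
    rw [Lk, mem_filter]
    refine ⟨h _ hs.1 _ (erase_subset _ _), by simp, ?_⟩
    rw [insert_erase hs.2]
    exact hs.1

/-- the parity of the number of the digits one among the first `2 ^ k` -/
def par : ℕ → ℕ → Bool
  | 0, x => Nat.testBit x 0
  | k + 1, x => par k (Nat.xor x (Nat.shiftRight x (Nat.pow 2 k)))

theorem par_spec (k x : ℕ) : (if par k x = true then (1 : ZMod 2) else 0) =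
    ∑ j ∈ range (2 ^ k), if x.testBit j = true then (1 : ZMod 2) else 0 := by
  induction k generalizing x with
  | zero =>
    rw [pow_zero, range_one, sum_singleton]
    rfl
  | succ k ih =>
    change (if par k (x ^^^ (x >>> 2 ^ k)) = true then (1 : ZMod 2) else 0) = _
    rw [ih]
    have hk : 2 ^ (k + 1) = 2 ^ k + 2 ^ k := by rw [pow_succ]; ring
    rw [hk, sum_range_add, ← sum_add_distrib]
    apply sum_congr rfl
    intro j _
    rw [Nat.testBit_xor, Nat.testBit_shiftRight]
    cases x.testBit j <;> cases x.testBit (2 ^ k + j) <;> decide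

theorem par_card (x : ℕ) (h : par m x = true) : Odd (dec m x).card := by
  have h1 := par_spec m x
  rw [if_pos h, ← image_cd (m := m), sum_image (fun a _ b _ h => cd_inj h)] at h1
  have h2 : ((dec m x).card : ZMod 2) = 1 := by
    rw [h1, dec, card_filter]
    push_cast
    rfl
  rw [← Nat.not_even_iff_odd]
  intro he
  rw [(ZMod.natCast_eq_zero_iff_even).2 he] at h2
  exact zero_ne_one h2

/-- a state of the recursion -/
def stt (m : ℕ) (x : ℕ) (a b : List ℕ) : ℕ :=
  b.foldl (fun y v => dl m y v) (a.foldl (fun y v => lk m y (Nat.pow 2 v)) x)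

theorem stt_dc {x : ℕ} (h : DC (dec m x)) {a b : List ℕ} (ha : ∀ v ∈ a, v < m)
    (hb : ∀ v ∈ b, v < m) : DC (dec m (stt m x a b)) := by
  unfold stt
  have h1 : DC (dec m (a.foldl (fun y v => lk m y (Nat.pow 2 v)) x)) := by
    induction a generalizing x with
    | nil => exact h
    | cons v a ih =>
      rw [List.foldl_cons]
      apply ih
      · have := h.lk ⟨v, ha v (by simp)⟩
        rw [dec_lk h] at this
        exact this
      · intro w hw; exact ha w (List.mem_cons_of_mem _ hw)
  clear ha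
  induction b generalizing a x with
  | nil => exact h1
  | cons v b ih =>
    rw [List.foldl_cons]
    have h2 := h1.dl ⟨v, hb v (by simp)⟩
    rw [dec_dl] at h2
    exact ih (a := []) h2 (fun w hw => hb w (List.mem_cons_of_mem _ hw)) h2

end Pool.Agent.V11201.EB
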