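import Pool.Agent.V11201.EB.Bits

set_option autoImplicit false
set_option linter.unusedSectionVars false
open Finset

namespace Pool.Agent.V11201.EB

/-- comparison with a state of the table -/
def cmp (m x : ℕ) (z : ℕ) : Option (List ℕ × List ℕ) → Bool
  | none => false
  | some p => Nat.beq z (stt m x p.1 p.2)

/-- the check at a vertex -/
def chv (m x : ℕ) (tab : List (List ℕ × List ℕ)) (y v : ℕ) (h : ℕ × ℕ) : Bool :=
  !Nat.testBit y (Nat.pow 2 v) ||
    (match h.1 with
      | 0 => par m (lk m y (Nat.pow 2 v))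
      | 1 => par m (dl m y v)
      | 2 => cmp m x (lk m y (Nat.pow 2 v)) (tab[h.2]?)
      | _ => cmp m x (dl m y v) (tab[h.2]?))

/-- the check of a row -/
def chr (m x : ℕ) (tab : List (List ℕ × List ℕ)) (r : (List ℕ × List ℕ) × List (ℕ × ℕ)) : Bool :=
  r.1.1.all (fun v => Nat.blt v m) && r.1.2.all (fun v => Nat.blt v m) &&
  (List.range m).any (fun u => (List.range m).any (fun w => !Nat.beq u w &&
    (Nat.testBit (stt m x r.1.1 r.1.2) (Nat.pow 2 u) &&
      Nat.testBit (stt m x r.1.1 r.1.2) (Nat.pow 2 w)))) &&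
  (List.range m).all (fun v => chv m x tab (stt m x r.1.1 r.1.2) v (r.2.getD v (0, 0)))

theorem ev {m x : ℕ} (h0 : DC (dec m x)) (rows : List ((List ℕ × List ℕ) × List (ℕ × ℕ)))
    (hr : rows.all (chr m x (rows.map Prod.fst)) = true)
    (hroot : ([], []) ∈ rows.map Prod.fst) :
    ¬ (∀ S : Finset (Finset (Fin m)) → Prop,
        (∀ v : Fin m, S {∅, {v}}) →
        (∀ L : Finset (Finset (Fin m)), ∀ v : Fin m, {v} ∈ L →
          S (L.filter (fun σ => v ∉ σ)) →
          S (L.filter (fun σ => v ∉ σ ∧ insert v σ ∈ L)) → S L) →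
        S (dec m x)) := by
  intro H
  set E : Finset (Finset (Fin m)) → Prop := fun L =>
    (∃ p ∈ rows.map Prod.fst, L = dec m (stt m x p.1 p.2)) ∨ (DC L ∧ Odd L.card) with hE
  rw [List.all_eq_true] at hr
  have hb : ∀ {a b : ℕ}, Nat.blt a b = true → a < b := fun h => by rwa [Nat.blt_eq] at h
  -- the facts on the rows
  have facts : ∀ r ∈ rows, DC (dec m (stt m x r.1.1 r.1.2)) ∧
      (∃ u w : Fin m, u ≠ w ∧ {u} ∈ dec m (stt m x r.1.1 r.1.2) ∧
        {w} ∈ dec m (stt m x r.1.1 r.1.2)) ∧
      ∀ v : Fin m, {v} ∈ dec m (stt m x r.1.1 r.1.2) →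
        E (Dl (dec m (stt m x r.1.1 r.1.2)) v) ∨ E (Lk (dec m (stt m x r.1.1 r.1.2)) v) := by
    intro r hrr
    have h1 := hr r hrr
    unfold chr at h1
    simp only [Bool.and_eq_true, List.all_eq_true, List.any_eq_true, List.mem_range] at h1
    obtain ⟨⟨⟨ha, hb'⟩, u, hu, w, hw, huw, hu1, hw1⟩, hv⟩ := h1
    have hdc := stt_dc h0 (fun v hv => hb (ha v hv)) (fun v hv => hb (hb' v hv))
    set y := stt m x r.1.1 r.1.2 with hy
    refine ⟨hdc, ⟨⟨u, hu⟩, ⟨w, hw⟩, ?_, ?_, ?_⟩, ?_⟩
    · intro h
      have h2 : u = w := congrArg Fin.val h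
      rw [h2, Nat.beq_refl] at huw
      exact absurd huw (by decide)
    · rw [mem_dec, cd_single]
      exact hu1
    · rw [mem_dec, cd_single]
      exact hw1
    · intro v hvy
      rw [mem_dec, cd_single] at hvy
      have h2 := hv v v.2
      unfold chv at h2
      have h3 : Nat.testBit y (Nat.pow 2 (v : ℕ)) = true := hvy
      rw [h3] at h2
      simp only [Bool.not_true, Bool.false_or] at h2
      have hcmp : ∀ (z k : ℕ), cmp m x z ((rows.map Prod.fst)[k]?) = true →
          ∃ p ∈ rows.map Prod.fst, dec m z = dec m (stt m x p.1 p.2) := by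
        intro z k hz
        cases hk : (rows.map Prod.fst)[k]? with
        | none => rw [hk] at hz; exact absurd hz (by simp [cmp])
        | some p =>
          rw [hk] at hz
          unfold cmp at hz
          have := Nat.eq_of_beq_eq_true hz
          exact ⟨p, List.mem_of_getElem? hk, by rw [this]⟩
      set hh := r.2.getD (v : ℕ) (0, 0) with hhh
      split at h2
      · right
        right
        refine ⟨hdc.lk v, ?_⟩
        rw [dec_lk hdc]
        exact par_card _ h2
      · left
        right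
        refine ⟨hdc.dl v, ?_⟩
        rw [dec_dl]
        exact par_card _ h2
      · right
        left
        rw [dec_lk hdc]
        exact hcmp _ _ h2
      · left
        left
        rw [dec_dl]
        exact hcmp _ _ h2
  have key := H (fun L => ¬ E L) ?_ ?_
  · apply key
    left
    exact ⟨_, hroot, rfl⟩
  · intro v hE1
    rcases hE1 with ⟨p, hp, hp2⟩ | ⟨-, hodd⟩
    · obtain ⟨r, hr1, rfl⟩ := List.mem_map.1 hp
      obtain ⟨-, ⟨u, w, huw, hu, hw⟩, -⟩ := facts r hr1
      rw [← hp2, mem_insert, mem_singleton] at hu hw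
      have e1 : u = v := by
        rcases hu with hu | hu
        · exact absurd hu (singleton_ne_empty u)
        · exact singleton_injective hu
      have e2 : w = v := by
        rcases hw with hw | hw
        · exact absurd hw (singleton_ne_empty w)
        · exact singleton_injective hw
      exact huw (e1.trans e2.symm)
    · rw [card_pair (Ne.symm (singleton_ne_empty v))] at hodd
      exact absurd hodd (by decide)
  · intro L v hv h1 h2 hE1
    rcases hE1 with ⟨p, hp, rfl⟩ | ⟨hdc, hodd⟩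
    · obtain ⟨r, hr1, rfl⟩ := List.mem_map.1 hp
      obtain ⟨-, -, h3⟩ := facts r hr1
      rcases h3 v hv with h4 | h4
      · exact h1 h4
      · exact h2 h4
    · rw [card_split hdc v] at hodd
      rcases Nat.even_or_odd (Dl L v).card with h3 | h3
      · have h4 : Odd (Lk L v).card := by
          by_contra hcon
          rw [Nat.not_odd_iff_even] at hcon
          exact (Nat.not_odd_iff_even.2 (h3.add hcon)) hodd
        exact h2 (Or.inr ⟨hdc.lk v, h4⟩)
      · exact h1 (Or.inr ⟨hdc.dl v, h3⟩)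

/-- the bitset of the family with one vertex -/
def one (v : ℕ) : ℕ := Nat.lor 1 (Nat.pow 2 (Nat.pow 2 v))

theorem mem_one {m : ℕ} {v : Fin m} {s : Finset (Fin m)} :
    s ∈ dec m (one v) ↔ s = ∅ ∨ s = {v} := by
  rw [mem_dec]
  change (1 ||| 2 ^ 2 ^ (v : ℕ)).testBit (cd s) = true ↔ _
  rw [Nat.testBit_or, Bool.or_eq_true, Nat.testBit_two_pow, decide_eq_true_iff]
  have h1 : (1 : ℕ).testBit (cd s) = true ↔ cd s = 0 := by
    have : (1 : ℕ) = 2 ^ 0 := by norm_num
    rw [this, Nat.testBit_two_pow, decide_eq_true_iff, eq_comm]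
  rw [h1]
  constructor
  · rintro (h | h)
    · left
      apply cd_inj
      rw [h]; simp [cd]
    · right
      apply cd_inj
      rw [cd_single, h]
  · rintro (rfl | rfl)
    · left; simp [cd]
    · right; rw [cd_single]

theorem dec_one {m : ℕ} (v : Fin m) : dec m (one v) = {∅, {v}} := by
  ext s
  rw [mem_one, mem_insert, mem_singleton]

/-- the check of a collapse -/
def col (m : ℕ) : List (ℕ × ℕ) → ℕ → ℕ → Bool
  | [], w, x => Nat.blt w m && Nat.beq x (one w)
  | (p, v) :: t, w, x => Nat.blt v m && Nat.blt p (2 ^ m) && Nat.beq (lk m x p) (one v) &&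
      col m t w (Nat.xor (Nat.xor x (Nat.pow 2 p)) (Nat.pow 2 (p + Nat.pow 2 v)))

theorem ex_cd {m p : ℕ} (hp : p < 2 ^ m) : ∃ s : Finset (Fin m), cd s = p := by
  have : p ∈ (univ : Finset (Finset (Fin m))).image cd := by rw [image_cd, mem_range]; exact hp
  obtain ⟨s, -, hs⟩ := mem_image.1 this
  exact ⟨s, hs⟩

theorem col_spec {m : ℕ} {t : List (ℕ × ℕ)} {w x : ℕ} (h : col m t w x = true)
    (S : Finset (Finset (Fin m)) → Prop) (h1 : ∀ v : Fin m, S {∅, {v}})
    (h2 : ∀ L : Finset (Finset (Fin m)), ∀ σ ∈ L, ∀ τ ∈ L, σ ⊂ τ →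
          τ.card = σ.card + 1 →
          (∀ ρ ∈ L, σ ⊆ ρ → ρ = σ ∨ ρ = τ) →
          S ((L.erase σ).erase τ) → S L) : S (dec m x) := by
  have hb : ∀ {a b : ℕ}, Nat.blt a b = true → a < b := fun h => by rwa [Nat.blt_eq] at h
  induction t generalizing x with
  | nil =>
    unfold col at h
    rw [Bool.and_eq_true] at h
    obtain ⟨h3, h4⟩ := h
    rw [Nat.eq_of_beq_eq_true h4]
    have := dec_one (m := m) ⟨w, hb h3⟩
    rw [this]
    exact h1 _
  | cons q t ih =>
    obtain ⟨p, v⟩ := q
    unfold col at h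
    simp only [Bool.and_eq_true] at h
    obtain ⟨⟨⟨h3, h4⟩, h5⟩, h6⟩ := h
    have hv := hb h3
    obtain ⟨σ, hσ⟩ := ex_cd (m := m) (hb h4)
    have h7 : dec m (lk m x (cd σ)) = {∅, {(⟨v, hv⟩ : Fin m)}} := by
      rw [hσ, Nat.eq_of_beq_eq_true h5]
      exact dec_one (m := m) ⟨v, hv⟩
    set v' : Fin m := ⟨v, hv⟩ with hv'
    have a1 : ∅ ∈ dec m (lk m x (cd σ)) := by rw [h7]; simp
    have a2 : {v'} ∈ dec m (lk m x (cd σ)) := by rw [h7]; simp
    rw [mem_lk] at a1 a2
    rw [union_empty] at a1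
    have hvσ : v' ∉ σ := disjoint_singleton_right.1 a2.1
    have hτ : σ ∪ {v'} = insert v' σ := by rw [union_comm]; rfl
    rw [hτ] at a2
    have hne : insert v' σ ≠ σ := fun h => hvσ (h ▸ mem_insert_self v' σ)
    refine h2 _ σ a1.2 (insert v' σ) a2.2 (ssubset_insert hvσ) (card_insert_of_notMem hvσ) ?_ ?_
    · intro ρ hρ hσρ
      have h8 : ρ \ σ ∈ dec m (lk m x (cd σ)) := by
        rw [mem_lk]
        refine ⟨disjoint_sdiff, ?_⟩
        rw [union_sdiff_of_subset hσρ]
        exact hρ
      rw [h7, mem_insert, mem_singleton] at h8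
      rcases h8 with h8 | h8
      · left
        exact Subset.antisymm (sdiff_eq_empty_iff_subset.1 h8) hσρ
      · right
        rw [← union_sdiff_of_subset hσρ, h8, hτ]
    · have h9 := ih h6
      have h10 : ((dec m x).erase σ).erase (insert v' σ) =
          dec m (Nat.xor (Nat.xor x (Nat.pow 2 p)) (Nat.pow 2 (p + Nat.pow 2 v))) := by
        ext ρ
        rw [mem_erase, mem_erase, mem_dec, mem_dec]
        have e0 : Nat.xor (Nat.xor x (Nat.pow 2 p)) (Nat.pow 2 (p + Nat.pow 2 v)) =
            (x ^^^ 2 ^ cd σ) ^^^ 2 ^ cd (insert v' σ) := by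
          rw [cd_insert hvσ, hσ, add_comm (2 ^ (v' : ℕ)) p]
          rfl
        rw [e0, Nat.testBit_xor, Nat.testBit_xor, Nat.testBit_two_pow, Nat.testBit_two_pow]
        have b1 := mem_dec.1 a1.2
        have b2 := mem_dec.1 a2.2
        by_cases e1 : ρ = σ
        · subst e1
          have : cd (insert v' ρ) ≠ cd ρ := fun h => hne (cd_inj h)
          simp [this, b1]
        · by_cases e2 : ρ = insert v' σ
          · subst e2
            have : cd σ ≠ cd (insert v' σ) := fun h => hne (cd_inj h).symm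
            simp [this, b2]
          · have c1 : cd σ ≠ cd ρ := fun h => e1 (cd_inj h).symm
            have c2 : cd (insert v' σ) ≠ cd ρ := fun h => e2 (cd_inj h).symm
            simp [e1, e2, c1, c2]
      rw [h10]
      exact h9

end Pool.Agent.V11201.EB
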