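import Pool.Agent.V11201.EB.Col

set_option autoImplicit false
set_option maxRecDepth 1000000

namespace Pool.Agent.V11201.EB

/-- the table -/
def rws : List ((List ℕ × List ℕ) × List (ℕ × ℕ)) := [
  (([], []), [(3, 1), (3, 201), (3, 289), (3, 341), (3, 419), (3, 477), (3, 545), (3, 577), (3,
  595), (3, 603), (3, 607), (3, 609), (2, 611), (2, 611), (0, 0)]),
  (([], [0]), [(0, 0), (3, 2), (0, 0), (3, 66), (3, 140), (3, 170), (3, 178), (3, 194), (3, 198),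
  (0, 0), (0, 0), (0, 0), (2, 200), (2, 200), (0, 0)]),
  (([], [0, 1]), [(0, 0), (0, 0), (2, 3), (3, 41), (0, 0), (3, 55), (3, 59), (0, 0), (3, 63), (0,
  0), (0, 0), (0, 0), (2, 65), (2, 65), (0, 0)]),
  (([2], [0, 1]), [(0, 0), (0, 0), (0, 0), (3, 4), (0, 0), (3, 18), (3, 28), (0, 0), (0, 0), (0,
  0), (3, 32), (3, 38), (2, 40), (2, 40), (0, 0)]),
  (([2], [0, 1, 3]), [(0, 0), (0, 0), (0, 0), (0, 0), (0, 0), (0, 0), (0, 0), (0, 0), (0, 0), (2,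
  5), (3, 7), (3, 15), (2, 17), (2, 17), (0, 0)]),
  (([2, 9], [0, 1, 3]), [(0, 0), (0, 0), (0, 0), (0, 0), (0, 0), (0, 0), (0, 0), (0, 0), (0, 0),
  (0, 0), (0, 0), (0, 0), (2, 6), (2, 6), (0, 0)]),
  (([2, 9, 12], [0, 1, 3]), [(0, 0), (0, 0), (0, 0), (0, 0), (0, 0), (0, 0), (0, 0), (0, 0), (0,
  0), (0, 0), (0, 0), (0, 0), (0, 0), (0, 0), (0, 0)]),
  (([2], [0, 1, 3, 10]), [(0, 0), (0, 0), (0, 0), (0, 0), (0, 0), (0, 0), (2, 8), (0, 0), (2, 10),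
  (2, 5), (0, 0), (3, 12), (2, 14), (2, 14), (0, 0)]),
  (([2, 6], [0, 1, 3, 10]), [(0, 0), (0, 0), (0, 0), (0, 0), (0, 0), (0, 0), (0, 0), (0, 0), (0,
  0), (0, 0), (0, 0), (0, 0), (2, 9), (2, 9), (0, 0)]),
  (([2, 6, 12], [0, 1, 3, 10]), [(0, 0), (0, 0), (0, 0), (0, 0), (0, 0), (0, 0), (0, 0), (0, 0),
  (0, 0), (0, 0), (0, 0), (0, 0), (0, 0), (0, 0), (0, 0)]),
  (([2, 8], [0, 1, 3, 10]), [(0, 0), (0, 0), (0, 0), (0, 0), (0, 0), (0, 0), (0, 0), (0, 0), (0,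
  0), (0, 0), (0, 0), (0, 0), (2, 11), (2, 11), (0, 0)]),
  (([2, 8, 12], [0, 1, 3, 10]), [(0, 0), (0, 0), (0, 0), (0, 0), (0, 0), (0, 0), (0, 0), (0, 0),
  (0, 0), (0, 0), (0, 0), (0, 0), (0, 0), (0, 0), (0, 0)]),
  (([2], [0, 1, 3, 10, 11]), [(0, 0), (0, 0), (0, 0), (0, 0), (0, 0), (0, 0), (2, 8), (0, 0), (0,
  0), (2, 5), (0, 0), (0, 0), (2, 13), (2, 13), (0, 0)]),
  (([2, 12], [0, 1, 3, 10, 11]), [(0, 0), (0, 0), (0, 0), (0, 0), (0, 0), (0, 0), (2, 9), (0, 0),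
  (0, 0), (2, 6), (0, 0), (0, 0), (0, 0), (0, 0), (0, 0)]),
  (([2, 12], [0, 1, 3, 10]), [(0, 0), (0, 0), (0, 0), (0, 0), (0, 0), (0, 0), (2, 9), (0, 0), (2,
  11), (2, 6), (0, 0), (3, 13), (0, 0), (0, 0), (0, 0)]),
  (([2], [0, 1, 3, 11]), [(0, 0), (0, 0), (0, 0), (0, 0), (0, 0), (0, 0), (0, 0), (0, 0), (0, 0),
  (2, 5), (3, 12), (0, 0), (2, 16), (2, 16), (0, 0)]),
  (([2, 12], [0, 1, 3, 11]), [(0, 0), (0, 0), (0, 0), (0, 0), (0, 0), (0, 0), (0, 0), (0, 0), (0,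
  0), (2, 6), (3, 13), (0, 0), (0, 0), (0, 0), (0, 0)]),
  (([2, 12], [0, 1, 3]), [(0, 0), (0, 0), (0, 0), (0, 0), (0, 0), (0, 0), (0, 0), (0, 0), (0, 0),
  (2, 6), (3, 14), (3, 16), (0, 0), (0, 0), (0, 0)]),
  (([2], [0, 1, 5]), [(0, 0), (0, 0), (0, 0), (0, 0), (0, 0), (0, 0), (0, 0), (0, 0), (0, 0), (0,
  0), (3, 19), (3, 25), (2, 27), (2, 27), (0, 0)]),
  (([2], [0, 1, 5, 10]), [(0, 0), (0, 0), (0, 0), (0, 0), (0, 0), (0, 0), (0, 0), (0, 0), (2, 20),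
  (0, 0), (0, 0), (3, 22), (2, 24), (2, 24), (0, 0)]),
  (([2, 8], [0, 1, 5, 10]), [(0, 0), (0, 0), (0, 0), (0, 0), (0, 0), (0, 0), (0, 0), (0, 0), (0,
  0), (0, 0), (0, 0), (0, 0), (2, 21), (2, 21), (0, 0)]),
  (([2, 8, 12], [0, 1, 5, 10]), [(0, 0), (0, 0), (0, 0), (0, 0), (0, 0), (0, 0), (0, 0), (0, 0),
  (0, 0), (0, 0), (0, 0), (0, 0), (0, 0), (0, 0), (0, 0)]),
  (([2], [0, 1, 5, 10, 11]), [(0, 0), (0, 0), (0, 0), (0, 0), (0, 0), (0, 0), (0, 0), (0, 0), (0,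
  0), (0, 0), (0, 0), (0, 0), (2, 23), (2, 23), (0, 0)]),
  (([2, 12], [0, 1, 5, 10, 11]), [(0, 0), (0, 0), (0, 0), (0, 0), (0, 0), (0, 0), (0, 0), (0, 0),
  (0, 0), (0, 0), (0, 0), (0, 0), (0, 0), (0, 0), (0, 0)]),
  (([2, 12], [0, 1, 5, 10]), [(0, 0), (0, 0), (0, 0), (0, 0), (0, 0), (0, 0), (0, 0), (0, 0), (2,
  21), (0, 0), (0, 0), (3, 23), (0, 0), (0, 0), (0, 0)]),
  (([2], [0, 1, 5, 11]), [(0, 0), (0, 0), (0, 0), (0, 0), (0, 0), (0, 0), (0, 0), (0, 0), (0, 0),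
  (0, 0), (3, 22), (0, 0), (2, 26), (2, 26), (0, 0)]),
  (([2, 12], [0, 1, 5, 11]), [(0, 0), (0, 0), (0, 0), (0, 0), (0, 0), (0, 0), (0, 0), (0, 0), (0,
  0), (0, 0), (3, 23), (0, 0), (0, 0), (0, 0), (0, 0)]),
  (([2, 12], [0, 1, 5]), [(0, 0), (0, 0), (0, 0), (0, 0), (0, 0), (0, 0), (0, 0), (0, 0), (0, 0),
  (0, 0), (3, 24), (3, 26), (0, 0), (0, 0), (0, 0)]),
  (([2], [0, 1, 6]), [(0, 0), (0, 0), (0, 0), (0, 0), (0, 0), (0, 0), (0, 0), (0, 0), (0, 0), (0,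
  0), (0, 0), (3, 29), (2, 31), (2, 31), (0, 0)]),
  (([2], [0, 1, 6, 11]), [(0, 0), (0, 0), (0, 0), (0, 0), (0, 0), (0, 0), (0, 0), (0, 0), (0, 0),
  (0, 0), (0, 0), (0, 0), (2, 30), (2, 30), (0, 0)]),
  (([2, 12], [0, 1, 6, 11]), [(0, 0), (0, 0), (0, 0), (0, 0), (0, 0), (0, 0), (0, 0), (0, 0), (0,
  0), (0, 0), (0, 0), (0, 0), (0, 0), (0, 0), (0, 0)]),
  (([2, 12], [0, 1, 6]), [(0, 0), (0, 0), (0, 0), (0, 0), (0, 0), (0, 0), (0, 0), (0, 0), (0, 0),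
  (0, 0), (0, 0), (3, 30), (0, 0), (0, 0), (0, 0)]),
  (([2], [0, 1, 10]), [(0, 0), (0, 0), (0, 0), (3, 7), (0, 0), (3, 19), (0, 0), (0, 0), (2, 33),
  (0, 0), (0, 0), (3, 35), (2, 37), (2, 37), (0, 0)]),
  (([2, 8], [0, 1, 10]), [(0, 0), (0, 0), (0, 0), (3, 10), (0, 0), (3, 20), (0, 0), (0, 0), (0,
  0), (0, 0), (0, 0), (0, 0), (2, 34), (2, 34), (0, 0)]),
  (([2, 8, 12], [0, 1, 10]), [(0, 0), (0, 0), (0, 0), (3, 11), (0, 0), (3, 21), (0, 0), (0, 0),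
  (0, 0), (0, 0), (0, 0), (0, 0), (0, 0), (0, 0), (0, 0)]),
  (([2], [0, 1, 10, 11]), [(0, 0), (0, 0), (0, 0), (3, 12), (0, 0), (3, 22), (0, 0), (0, 0), (0,
  0), (0, 0), (0, 0), (0, 0), (2, 36), (2, 36), (0, 0)]),
  (([2, 12], [0, 1, 10, 11]), [(0, 0), (0, 0), (0, 0), (3, 13), (0, 0), (3, 23), (0, 0), (0, 0),
  (0, 0), (0, 0), (0, 0), (0, 0), (0, 0), (0, 0), (0, 0)]),
  (([2, 12], [0, 1, 10]), [(0, 0), (0, 0), (0, 0), (3, 14), (0, 0), (3, 24), (0, 0), (0, 0), (2,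
  34), (0, 0), (0, 0), (3, 36), (0, 0), (0, 0), (0, 0)]),
  (([2], [0, 1, 11]), [(0, 0), (0, 0), (0, 0), (3, 15), (0, 0), (3, 25), (3, 29), (0, 0), (0, 0),
  (0, 0), (3, 35), (0, 0), (2, 39), (2, 39), (0, 0)]),
  (([2, 12], [0, 1, 11]), [(0, 0), (0, 0), (0, 0), (3, 16), (0, 0), (3, 26), (3, 30), (0, 0), (0,
  0), (0, 0), (3, 36), (0, 0), (0, 0), (0, 0), (0, 0)]),
  (([2, 12], [0, 1]), [(0, 0), (0, 0), (0, 0), (3, 17), (0, 0), (3, 27), (3, 31), (0, 0), (0, 0),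
  (0, 0), (3, 37), (3, 39), (0, 0), (0, 0), (0, 0)]),
  (([], [0, 1, 3]), [(0, 0), (0, 0), (2, 4), (0, 0), (0, 0), (3, 42), (0, 0), (0, 0), (3, 52), (2,
  49), (0, 0), (0, 0), (2, 54), (2, 54), (0, 0)]),
  (([], [0, 1, 3, 5]), [(0, 0), (0, 0), (0, 0), (0, 0), (0, 0), (0, 0), (0, 0), (0, 0), (3, 43),
  (2, 49), (0, 0), (0, 0), (2, 51), (2, 51), (0, 0)]),
  (([], [0, 1, 3, 5, 8]), [(0, 0), (0, 0), (0, 0), (0, 0), (0, 0), (0, 0), (0, 0), (0, 0), (0, 0),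
  (2, 44), (0, 0), (0, 0), (2, 48), (2, 48), (0, 0)]),
  (([9], [0, 1, 3, 5, 8]), [(0, 0), (0, 0), (2, 5), (0, 0), (0, 0), (0, 0), (0, 0), (0, 0), (0,
  0), (0, 0), (0, 0), (2, 45), (2, 47), (2, 47), (0, 0)]),
  (([9, 11], [0, 1, 3, 5, 8]), [(0, 0), (0, 0), (0, 0), (0, 0), (0, 0), (0, 0), (0, 0), (0, 0),
  (0, 0), (0, 0), (0, 0), (0, 0), (2, 46), (2, 46), (0, 0)]),
  (([9, 11, 12], [0, 1, 3, 5, 8]), [(0, 0), (0, 0), (0, 0), (0, 0), (0, 0), (0, 0), (0, 0), (0,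
  0), (0, 0), (0, 0), (0, 0), (0, 0), (0, 0), (0, 0), (0, 0)]),
  (([9, 12], [0, 1, 3, 5, 8]), [(0, 0), (0, 0), (2, 6), (0, 0), (0, 0), (0, 0), (0, 0), (0, 0),
  (0, 0), (0, 0), (0, 0), (2, 46), (0, 0), (0, 0), (0, 0)]),
  (([12], [0, 1, 3, 5, 8]), [(0, 0), (0, 0), (0, 0), (0, 0), (0, 0), (0, 0), (0, 0), (0, 0), (0,
  0), (2, 47), (0, 0), (0, 0), (0, 0), (0, 0), (0, 0)]),
  (([9], [0, 1, 3, 5]), [(0, 0), (0, 0), (2, 5), (0, 0), (0, 0), (0, 0), (0, 0), (0, 0), (3, 44),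
  (0, 0), (0, 0), (0, 0), (2, 50), (2, 50), (0, 0)]),
  (([9, 12], [0, 1, 3, 5]), [(0, 0), (0, 0), (2, 6), (0, 0), (0, 0), (0, 0), (0, 0), (0, 0), (3,
  47), (0, 0), (0, 0), (0, 0), (0, 0), (0, 0), (0, 0)]),
  (([12], [0, 1, 3, 5]), [(0, 0), (0, 0), (0, 0), (0, 0), (0, 0), (0, 0), (0, 0), (0, 0), (3, 48),
  (2, 50), (0, 0), (0, 0), (0, 0), (0, 0), (0, 0)]),
  (([], [0, 1, 3, 8]), [(0, 0), (0, 0), (0, 0), (0, 0), (0, 0), (3, 43), (0, 0), (0, 0), (0, 0),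
  (2, 44), (0, 0), (0, 0), (2, 53), (2, 53), (0, 0)]),
  (([12], [0, 1, 3, 8]), [(0, 0), (0, 0), (0, 0), (0, 0), (0, 0), (3, 48), (0, 0), (0, 0), (0, 0),
  (2, 47), (0, 0), (0, 0), (0, 0), (0, 0), (0, 0)]),
  (([12], [0, 1, 3]), [(0, 0), (0, 0), (2, 17), (0, 0), (0, 0), (3, 51), (0, 0), (0, 0), (3, 53),
  (2, 50), (0, 0), (0, 0), (0, 0), (0, 0), (0, 0)]),
  (([], [0, 1, 5]), [(0, 0), (0, 0), (2, 18), (3, 42), (0, 0), (0, 0), (0, 0), (0, 0), (3, 56),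
  (0, 0), (0, 0), (0, 0), (2, 58), (2, 58), (0, 0)]),
  (([], [0, 1, 5, 8]), [(0, 0), (0, 0), (0, 0), (3, 43), (0, 0), (0, 0), (0, 0), (0, 0), (0, 0),
  (0, 0), (0, 0), (0, 0), (2, 57), (2, 57), (0, 0)]),
  (([12], [0, 1, 5, 8]), [(0, 0), (0, 0), (0, 0), (3, 48), (0, 0), (0, 0), (0, 0), (0, 0), (0, 0),
  (0, 0), (0, 0), (0, 0), (0, 0), (0, 0), (0, 0)]),
  (([12], [0, 1, 5]), [(0, 0), (0, 0), (2, 27), (3, 51), (0, 0), (0, 0), (0, 0), (0, 0), (3, 57),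
  (0, 0), (0, 0), (0, 0), (0, 0), (0, 0), (0, 0)]),
  (([], [0, 1, 6]), [(0, 0), (0, 0), (2, 28), (0, 0), (0, 0), (0, 0), (0, 0), (0, 0), (3, 60), (0,
  0), (0, 0), (0, 0), (2, 62), (2, 62), (0, 0)]),
  (([], [0, 1, 6, 8]), [(0, 0), (0, 0), (0, 0), (0, 0), (0, 0), (0, 0), (0, 0), (0, 0), (0, 0),
  (0, 0), (0, 0), (0, 0), (2, 61), (2, 61), (0, 0)]),
  (([12], [0, 1, 6, 8]), [(0, 0), (0, 0), (0, 0), (0, 0), (0, 0), (0, 0), (0, 0), (0, 0), (0, 0),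
  (0, 0), (0, 0), (0, 0), (0, 0), (0, 0), (0, 0)]),
  (([12], [0, 1, 6]), [(0, 0), (0, 0), (2, 31), (0, 0), (0, 0), (0, 0), (0, 0), (0, 0), (3, 61),
  (0, 0), (0, 0), (0, 0), (0, 0), (0, 0), (0, 0)]),
  (([], [0, 1, 8]), [(0, 0), (0, 0), (0, 0), (3, 52), (0, 0), (3, 56), (3, 60), (0, 0), (0, 0),
  (0, 0), (0, 0), (0, 0), (2, 64), (2, 64), (0, 0)]),
  (([12], [0, 1, 8]), [(0, 0), (0, 0), (0, 0), (3, 53), (0, 0), (3, 57), (3, 61), (0, 0), (0, 0),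
  (0, 0), (0, 0), (0, 0), (0, 0), (0, 0), (0, 0)]),
  (([12], [0, 1]), [(0, 0), (0, 0), (2, 40), (3, 54), (0, 0), (3, 58), (3, 62), (0, 0), (3, 64),
  (0, 0), (0, 0), (0, 0), (0, 0), (0, 0), (0, 0)]),
  (([], [0, 3]), [(0, 0), (3, 41), (2, 67), (0, 0), (0, 0), (3, 101), (0, 0), (3, 133), (3, 137),
  (2, 130), (0, 0), (0, 0), (2, 139), (2, 139), (0, 0)]),
  (([2], [0, 3]), [(0, 0), (3, 4), (0, 0), (0, 0), (0, 0), (0, 0), (3, 68), (3, 84), (0, 0), (0,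
  0), (3, 94), (3, 98), (2, 100), (2, 100), (0, 0)]),
  (([2], [0, 3, 6]), [(0, 0), (0, 0), (0, 0), (0, 0), (0, 0), (0, 0), (0, 0), (3, 69), (2, 72),
  (0, 0), (0, 0), (3, 81), (2, 83), (2, 83), (0, 0)]),
  (([2], [0, 3, 6, 7]), [(0, 0), (2, 70), (0, 0), (0, 0), (0, 0), (0, 0), (0, 0), (0, 0), (2, 72),
  (0, 0), (0, 0), (3, 78), (2, 80), (2, 80), (0, 0)]),
  (([2, 1], [0, 3, 6, 7]), [(0, 0), (0, 0), (0, 0), (0, 0), (0, 0), (0, 0), (0, 0), (0, 0), (0,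
  0), (0, 0), (0, 0), (0, 0), (2, 71), (2, 71), (0, 0)]),
  (([2, 1, 12], [0, 3, 6, 7]), [(0, 0), (0, 0), (0, 0), (0, 0), (0, 0), (0, 0), (0, 0), (0, 0),
  (0, 0), (0, 0), (0, 0), (0, 0), (0, 0), (0, 0), (0, 0)]),
  (([2, 8], [0, 3, 6, 7]), [(0, 0), (0, 0), (0, 0), (0, 0), (0, 0), (0, 0), (0, 0), (0, 0), (0,
  0), (0, 0), (3, 73), (3, 75), (2, 77), (2, 77), (0, 0)]),
  (([2, 8], [0, 3, 6, 7, 10]), [(0, 0), (0, 0), (0, 0), (0, 0), (0, 0), (0, 0), (0, 0), (0, 0),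
  (0, 0), (0, 0), (0, 0), (0, 0), (2, 74), (2, 74), (0, 0)]),
  (([2, 8, 12], [0, 3, 6, 7, 10]), [(0, 0), (0, 0), (0, 0), (0, 0), (0, 0), (0, 0), (0, 0), (0,
  0), (0, 0), (0, 0), (0, 0), (0, 0), (0, 0), (0, 0), (0, 0)]),
  (([2, 8], [0, 3, 6, 7, 11]), [(0, 0), (0, 0), (0, 0), (0, 0), (0, 0), (0, 0), (0, 0), (0, 0),
  (0, 0), (0, 0), (0, 0), (0, 0), (2, 76), (2, 76), (0, 0)]),
  (([2, 8, 12], [0, 3, 6, 7, 11]), [(0, 0), (0, 0), (0, 0), (0, 0), (0, 0), (0, 0), (0, 0), (0,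
  0), (0, 0), (0, 0), (0, 0), (0, 0), (0, 0), (0, 0), (0, 0)]),
  (([2, 8, 12], [0, 3, 6, 7]), [(0, 0), (0, 0), (0, 0), (0, 0), (0, 0), (0, 0), (0, 0), (0, 0),
  (0, 0), (0, 0), (3, 74), (3, 76), (0, 0), (0, 0), (0, 0)]),
  (([2], [0, 3, 6, 7, 11]), [(0, 0), (2, 70), (0, 0), (0, 0), (0, 0), (0, 0), (0, 0), (0, 0), (2,
  75), (0, 0), (0, 0), (0, 0), (2, 79), (2, 79), (0, 0)]),
  (([2, 12], [0, 3, 6, 7, 11]), [(0, 0), (2, 71), (0, 0), (0, 0), (0, 0), (0, 0), (0, 0), (0, 0),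
  (2, 76), (0, 0), (0, 0), (0, 0), (0, 0), (0, 0), (0, 0)]),
  (([2, 12], [0, 3, 6, 7]), [(0, 0), (2, 71), (0, 0), (0, 0), (0, 0), (0, 0), (0, 0), (0, 0), (2,
  77), (0, 0), (0, 0), (3, 79), (0, 0), (0, 0), (0, 0)]),
  (([2], [0, 3, 6, 11]), [(0, 0), (0, 0), (0, 0), (0, 0), (0, 0), (0, 0), (0, 0), (3, 78), (2,
  75), (0, 0), (0, 0), (0, 0), (2, 82), (2, 82), (0, 0)]),
  (([2, 12], [0, 3, 6, 11]), [(0, 0), (0, 0), (0, 0), (0, 0), (0, 0), (0, 0), (0, 0), (3, 79), (2,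
  76), (0, 0), (0, 0), (0, 0), (0, 0), (0, 0), (0, 0)]),
  (([2, 12], [0, 3, 6]), [(0, 0), (0, 0), (0, 0), (0, 0), (0, 0), (0, 0), (0, 0), (3, 80), (2,
  77), (0, 0), (0, 0), (3, 82), (0, 0), (0, 0), (0, 0)]),
  (([2], [0, 3, 7]), [(0, 0), (0, 0), (0, 0), (0, 0), (0, 0), (0, 0), (3, 69), (0, 0), (0, 0), (0,
  0), (3, 85), (3, 91), (2, 93), (2, 93), (0, 0)]),
  (([2], [0, 3, 7, 10]), [(0, 0), (0, 0), (0, 0), (0, 0), (0, 0), (0, 0), (0, 0), (0, 0), (2, 86),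
  (0, 0), (0, 0), (3, 88), (2, 90), (2, 90), (0, 0)]),
  (([2, 8], [0, 3, 7, 10]), [(0, 0), (3, 10), (0, 0), (0, 0), (0, 0), (0, 0), (3, 73), (0, 0), (0,
  0), (0, 0), (0, 0), (0, 0), (2, 87), (2, 87), (0, 0)]),
  (([2, 8, 12], [0, 3, 7, 10]), [(0, 0), (3, 11), (0, 0), (0, 0), (0, 0), (0, 0), (3, 74), (0, 0),
  (0, 0), (0, 0), (0, 0), (0, 0), (0, 0), (0, 0), (0, 0)]),
  (([2], [0, 3, 7, 10, 11]), [(0, 0), (0, 0), (0, 0), (0, 0), (0, 0), (0, 0), (0, 0), (0, 0), (0,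
  0), (0, 0), (0, 0), (0, 0), (2, 89), (2, 89), (0, 0)]),
  (([2, 12], [0, 3, 7, 10, 11]), [(0, 0), (0, 0), (0, 0), (0, 0), (0, 0), (0, 0), (0, 0), (0, 0),
  (0, 0), (0, 0), (0, 0), (0, 0), (0, 0), (0, 0), (0, 0)]),
  (([2, 12], [0, 3, 7, 10]), [(0, 0), (0, 0), (0, 0), (0, 0), (0, 0), (0, 0), (0, 0), (0, 0), (2,
  87), (0, 0), (0, 0), (3, 89), (0, 0), (0, 0), (0, 0)]),
  (([2], [0, 3, 7, 11]), [(0, 0), (0, 0), (0, 0), (0, 0), (0, 0), (0, 0), (3, 78), (0, 0), (0, 0),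
  (0, 0), (3, 88), (0, 0), (2, 92), (2, 92), (0, 0)]),
  (([2, 12], [0, 3, 7, 11]), [(0, 0), (0, 0), (0, 0), (0, 0), (0, 0), (0, 0), (3, 79), (0, 0), (0,
  0), (0, 0), (3, 89), (0, 0), (0, 0), (0, 0), (0, 0)]),
  (([2, 12], [0, 3, 7]), [(0, 0), (0, 0), (0, 0), (0, 0), (0, 0), (0, 0), (3, 80), (0, 0), (0, 0),
  (0, 0), (3, 90), (3, 92), (0, 0), (0, 0), (0, 0)]),
  (([2], [0, 3, 10]), [(0, 0), (3, 7), (0, 0), (0, 0), (0, 0), (0, 0), (0, 0), (3, 85), (2, 86),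
  (0, 0), (0, 0), (3, 95), (2, 97), (2, 97), (0, 0)]),
  (([2], [0, 3, 10, 11]), [(0, 0), (3, 12), (0, 0), (0, 0), (0, 0), (0, 0), (0, 0), (3, 88), (0,
  0), (0, 0), (0, 0), (0, 0), (2, 96), (2, 96), (0, 0)]),
  (([2, 12], [0, 3, 10, 11]), [(0, 0), (3, 13), (0, 0), (0, 0), (0, 0), (0, 0), (0, 0), (3, 89),
  (0, 0), (0, 0), (0, 0), (0, 0), (0, 0), (0, 0), (0, 0)]),
  (([2, 12], [0, 3, 10]), [(0, 0), (3, 14), (0, 0), (0, 0), (0, 0), (0, 0), (0, 0), (3, 90), (2,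
  87), (0, 0), (0, 0), (3, 96), (0, 0), (0, 0), (0, 0)]),
  (([2], [0, 3, 11]), [(0, 0), (3, 15), (0, 0), (0, 0), (0, 0), (0, 0), (3, 81), (3, 91), (0, 0),
  (0, 0), (3, 95), (0, 0), (2, 99), (2, 99), (0, 0)]),
  (([2, 12], [0, 3, 11]), [(0, 0), (3, 16), (0, 0), (0, 0), (0, 0), (0, 0), (3, 82), (3, 92), (0,
  0), (0, 0), (3, 96), (0, 0), (0, 0), (0, 0), (0, 0)]),
  (([2, 12], [0, 3]), [(0, 0), (3, 17), (0, 0), (0, 0), (0, 0), (0, 0), (3, 83), (3, 93), (0, 0),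
  (0, 0), (3, 97), (3, 99), (0, 0), (0, 0), (0, 0)]),
  (([], [0, 3, 5]), [(0, 0), (3, 42), (0, 0), (0, 0), (2, 102), (0, 0), (0, 0), (3, 118), (3,
  126), (2, 130), (0, 0), (0, 0), (2, 132), (2, 132), (0, 0)]),
  (([4], [0, 3, 5]), [(0, 0), (0, 0), (0, 0), (0, 0), (0, 0), (0, 0), (0, 0), (3, 103), (3, 115),
  (0, 0), (0, 0), (2, 110), (2, 117), (2, 117), (0, 0)]),
  (([4], [0, 3, 5, 7]), [(0, 0), (2, 104), (0, 0), (0, 0), (0, 0), (0, 0), (0, 0), (0, 0), (3,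
  106), (0, 0), (0, 0), (2, 110), (2, 114), (2, 114), (0, 0)]),
  (([4, 1], [0, 3, 5, 7]), [(0, 0), (0, 0), (0, 0), (0, 0), (0, 0), (0, 0), (0, 0), (0, 0), (0,
  0), (0, 0), (0, 0), (0, 0), (2, 105), (2, 105), (0, 0)]),
  (([4, 1, 12], [0, 3, 5, 7]), [(0, 0), (0, 0), (0, 0), (0, 0), (0, 0), (0, 0), (0, 0), (0, 0),
  (0, 0), (0, 0), (0, 0), (0, 0), (0, 0), (0, 0), (0, 0)]),
  (([4], [0, 3, 5, 7, 8]), [(0, 0), (2, 104), (0, 0), (0, 0), (0, 0), (0, 0), (0, 0), (0, 0), (0,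
  0), (0, 0), (0, 0), (2, 107), (2, 109), (2, 109), (0, 0)]),
  (([4, 11], [0, 3, 5, 7, 8]), [(0, 0), (0, 0), (0, 0), (0, 0), (0, 0), (0, 0), (0, 0), (0, 0),
  (0, 0), (0, 0), (0, 0), (0, 0), (2, 108), (2, 108), (0, 0)]),
  (([4, 11, 12], [0, 3, 5, 7, 8]), [(0, 0), (0, 0), (0, 0), (0, 0), (0, 0), (0, 0), (0, 0), (0,
  0), (0, 0), (0, 0), (0, 0), (0, 0), (0, 0), (0, 0), (0, 0)]),
  (([4, 12], [0, 3, 5, 7, 8]), [(0, 0), (2, 105), (0, 0), (0, 0), (0, 0), (0, 0), (0, 0), (0, 0),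
  (0, 0), (0, 0), (0, 0), (2, 108), (0, 0), (0, 0), (0, 0)]),
  (([4, 11], [0, 3, 5, 7]), [(0, 0), (0, 0), (0, 0), (0, 0), (0, 0), (0, 0), (0, 0), (0, 0), (3,
  107), (3, 111), (0, 0), (0, 0), (2, 113), (2, 113), (0, 0)]),
  (([4, 11], [0, 3, 5, 7, 9]), [(0, 0), (0, 0), (0, 0), (0, 0), (0, 0), (0, 0), (0, 0), (0, 0),
  (0, 0), (0, 0), (0, 0), (0, 0), (2, 112), (2, 112), (0, 0)]),
  (([4, 11, 12], [0, 3, 5, 7, 9]), [(0, 0), (0, 0), (0, 0), (0, 0), (0, 0), (0, 0), (0, 0), (0,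
  0), (0, 0), (0, 0), (0, 0), (0, 0), (0, 0), (0, 0), (0, 0)]),
  (([4, 11, 12], [0, 3, 5, 7]), [(0, 0), (0, 0), (0, 0), (0, 0), (0, 0), (0, 0), (0, 0), (0, 0),
  (3, 108), (3, 112), (0, 0), (0, 0), (0, 0), (0, 0), (0, 0)]),
  (([4, 12], [0, 3, 5, 7]), [(0, 0), (2, 105), (0, 0), (0, 0), (0, 0), (0, 0), (0, 0), (0, 0), (3,
  109), (0, 0), (0, 0), (2, 113), (0, 0), (0, 0), (0, 0)]),
  (([4], [0, 3, 5, 8]), [(0, 0), (0, 0), (0, 0), (0, 0), (0, 0), (0, 0), (0, 0), (3, 106), (0, 0),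
  (0, 0), (0, 0), (2, 107), (2, 116), (2, 116), (0, 0)]),
  (([4, 12], [0, 3, 5, 8]), [(0, 0), (0, 0), (0, 0), (0, 0), (0, 0), (0, 0), (0, 0), (3, 109), (0,
  0), (0, 0), (0, 0), (2, 108), (0, 0), (0, 0), (0, 0)]),
  (([4, 12], [0, 3, 5]), [(0, 0), (0, 0), (0, 0), (0, 0), (0, 0), (0, 0), (0, 0), (3, 114), (3,
  116), (0, 0), (0, 0), (2, 113), (0, 0), (0, 0), (0, 0)]),
  (([], [0, 3, 5, 7]), [(0, 0), (0, 0), (0, 0), (0, 0), (2, 103), (0, 0), (0, 0), (0, 0), (3,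
  119), (2, 123), (0, 0), (0, 0), (2, 125), (2, 125), (0, 0)]),
  (([], [0, 3, 5, 7, 8]), [(0, 0), (0, 0), (0, 0), (0, 0), (2, 106), (0, 0), (0, 0), (0, 0), (0,
  0), (2, 120), (0, 0), (0, 0), (2, 122), (2, 122), (0, 0)]),
  (([9], [0, 3, 5, 7, 8]), [(0, 0), (0, 0), (0, 0), (0, 0), (0, 0), (0, 0), (0, 0), (0, 0), (0,
  0), (0, 0), (0, 0), (2, 45), (2, 121), (2, 121), (0, 0)]),
  (([9, 12], [0, 3, 5, 7, 8]), [(0, 0), (0, 0), (0, 0), (0, 0), (0, 0), (0, 0), (0, 0), (0, 0),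
  (0, 0), (0, 0), (0, 0), (2, 46), (0, 0), (0, 0), (0, 0)]),
  (([12], [0, 3, 5, 7, 8]), [(0, 0), (0, 0), (0, 0), (0, 0), (2, 109), (0, 0), (0, 0), (0, 0), (0,
  0), (2, 121), (0, 0), (0, 0), (0, 0), (0, 0), (0, 0)]),
  (([9], [0, 3, 5, 7]), [(0, 0), (0, 0), (0, 0), (0, 0), (0, 0), (0, 0), (0, 0), (0, 0), (3, 120),
  (0, 0), (0, 0), (0, 0), (2, 124), (2, 124), (0, 0)]),
  (([9, 12], [0, 3, 5, 7]), [(0, 0), (0, 0), (0, 0), (0, 0), (0, 0), (0, 0), (0, 0), (0, 0), (3,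
  121), (0, 0), (0, 0), (0, 0), (0, 0), (0, 0), (0, 0)]),
  (([12], [0, 3, 5, 7]), [(0, 0), (0, 0), (0, 0), (0, 0), (2, 114), (0, 0), (0, 0), (0, 0), (3,
  122), (2, 124), (0, 0), (0, 0), (0, 0), (0, 0), (0, 0)]),
  (([], [0, 3, 5, 8]), [(0, 0), (3, 43), (0, 0), (0, 0), (2, 115), (0, 0), (0, 0), (3, 119), (0,
  0), (2, 127), (0, 0), (0, 0), (2, 129), (2, 129), (0, 0)]),
  (([9], [0, 3, 5, 8]), [(0, 0), (3, 44), (0, 0), (0, 0), (0, 0), (0, 0), (0, 0), (3, 120), (0,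
  0), (0, 0), (0, 0), (2, 45), (2, 128), (2, 128), (0, 0)]),
  (([9, 12], [0, 3, 5, 8]), [(0, 0), (3, 47), (0, 0), (0, 0), (0, 0), (0, 0), (0, 0), (3, 121),
  (0, 0), (0, 0), (0, 0), (2, 46), (0, 0), (0, 0), (0, 0)]),
  (([12], [0, 3, 5, 8]), [(0, 0), (3, 48), (0, 0), (0, 0), (2, 116), (0, 0), (0, 0), (3, 122), (0,
  0), (2, 128), (0, 0), (0, 0), (0, 0), (0, 0), (0, 0)]),
  (([9], [0, 3, 5]), [(0, 0), (3, 49), (0, 0), (0, 0), (0, 0), (0, 0), (0, 0), (3, 123), (3, 127),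
  (0, 0), (0, 0), (0, 0), (2, 131), (2, 131), (0, 0)]),
  (([9, 12], [0, 3, 5]), [(0, 0), (3, 50), (0, 0), (0, 0), (0, 0), (0, 0), (0, 0), (3, 124), (3,
  128), (0, 0), (0, 0), (0, 0), (0, 0), (0, 0), (0, 0)]),
  (([12], [0, 3, 5]), [(0, 0), (3, 51), (0, 0), (0, 0), (2, 117), (0, 0), (0, 0), (3, 125), (3,
  129), (2, 131), (0, 0), (0, 0), (0, 0), (0, 0), (0, 0)]),
  (([], [0, 3, 7]), [(0, 0), (0, 0), (2, 84), (0, 0), (0, 0), (3, 118), (0, 0), (0, 0), (3, 134),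
  (2, 123), (0, 0), (0, 0), (2, 136), (2, 136), (0, 0)]),
  (([], [0, 3, 7, 8]), [(0, 0), (0, 0), (0, 0), (0, 0), (0, 0), (3, 119), (0, 0), (0, 0), (0, 0),
  (2, 120), (0, 0), (0, 0), (2, 135), (2, 135), (0, 0)]),
  (([12], [0, 3, 7, 8]), [(0, 0), (0, 0), (0, 0), (0, 0), (0, 0), (3, 122), (0, 0), (0, 0), (0,
  0), (2, 121), (0, 0), (0, 0), (0, 0), (0, 0), (0, 0)]),
  (([12], [0, 3, 7]), [(0, 0), (0, 0), (2, 93), (0, 0), (0, 0), (3, 125), (0, 0), (0, 0), (3,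
  135), (2, 124), (0, 0), (0, 0), (0, 0), (0, 0), (0, 0)]),
  (([], [0, 3, 8]), [(0, 0), (3, 52), (0, 0), (0, 0), (0, 0), (3, 126), (0, 0), (3, 134), (0, 0),
  (2, 127), (0, 0), (0, 0), (2, 138), (2, 138), (0, 0)]),
  (([12], [0, 3, 8]), [(0, 0), (3, 53), (0, 0), (0, 0), (0, 0), (3, 129), (0, 0), (3, 135), (0,
  0), (2, 128), (0, 0), (0, 0), (0, 0), (0, 0), (0, 0)]),
  (([12], [0, 3]), [(0, 0), (3, 54), (2, 100), (0, 0), (0, 0), (3, 132), (0, 0), (3, 136), (3,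
  138), (2, 131), (0, 0), (0, 0), (0, 0), (0, 0), (0, 0)]),
  (([], [0, 4]), [(0, 0), (0, 0), (0, 0), (0, 0), (0, 0), (0, 0), (3, 141), (3, 163), (3, 167),
  (0, 0), (0, 0), (0, 0), (2, 169), (2, 169), (0, 0)]),
  (([], [0, 4, 6]), [(0, 0), (0, 0), (2, 142), (2, 150), (0, 0), (0, 0), (0, 0), (3, 156), (3,
  160), (0, 0), (0, 0), (0, 0), (2, 162), (2, 162), (0, 0)]),
  (([2], [0, 4, 6]), [(0, 0), (0, 0), (0, 0), (0, 0), (0, 0), (0, 0), (0, 0), (3, 143), (0, 0),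
  (0, 0), (0, 0), (3, 147), (2, 149), (2, 149), (0, 0)]),
  (([2], [0, 4, 6, 7]), [(0, 0), (0, 0), (0, 0), (0, 0), (0, 0), (0, 0), (0, 0), (0, 0), (0, 0),
  (0, 0), (0, 0), (3, 144), (2, 146), (2, 146), (0, 0)]),
  (([2], [0, 4, 6, 7, 11]), [(0, 0), (0, 0), (0, 0), (0, 0), (0, 0), (0, 0), (0, 0), (0, 0), (0,
  0), (0, 0), (0, 0), (0, 0), (2, 145), (2, 145), (0, 0)]),
  (([2, 12], [0, 4, 6, 7, 11]), [(0, 0), (0, 0), (0, 0), (0, 0), (0, 0), (0, 0), (0, 0), (0, 0),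
  (0, 0), (0, 0), (0, 0), (0, 0), (0, 0), (0, 0), (0, 0)]),
  (([2, 12], [0, 4, 6, 7]), [(0, 0), (0, 0), (0, 0), (0, 0), (0, 0), (0, 0), (0, 0), (0, 0), (0,
  0), (0, 0), (0, 0), (3, 145), (0, 0), (0, 0), (0, 0)]),
  (([2], [0, 4, 6, 11]), [(0, 0), (0, 0), (0, 0), (0, 0), (0, 0), (0, 0), (0, 0), (3, 144), (0,
  0), (0, 0), (0, 0), (0, 0), (2, 148), (2, 148), (0, 0)]),
  (([2, 12], [0, 4, 6, 11]), [(0, 0), (0, 0), (0, 0), (0, 0), (0, 0), (0, 0), (0, 0), (3, 145),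
  (0, 0), (0, 0), (0, 0), (0, 0), (0, 0), (0, 0), (0, 0)]),
  (([2, 12], [0, 4, 6]), [(0, 0), (0, 0), (0, 0), (0, 0), (0, 0), (0, 0), (0, 0), (3, 146), (0,
  0), (0, 0), (0, 0), (3, 148), (0, 0), (0, 0), (0, 0)]),
  (([3], [0, 4, 6]), [(0, 0), (0, 0), (0, 0), (0, 0), (0, 0), (0, 0), (0, 0), (0, 0), (3, 151),
  (0, 0), (0, 0), (2, 152), (2, 155), (2, 155), (0, 0)]),
  (([3], [0, 4, 6, 8]), [(0, 0), (0, 0), (2, 152), (0, 0), (0, 0), (0, 0), (0, 0), (0, 0), (0, 0),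
  (0, 0), (0, 0), (2, 152), (2, 154), (2, 154), (0, 0)]),
  (([3, 2], [0, 4, 6, 8]), [(0, 0), (0, 0), (0, 0), (0, 0), (0, 0), (0, 0), (0, 0), (0, 0), (0,
  0), (0, 0), (0, 0), (0, 0), (2, 153), (2, 153), (0, 0)]),
  (([3, 2, 12], [0, 4, 6, 8]), [(0, 0), (0, 0), (0, 0), (0, 0), (0, 0), (0, 0), (0, 0), (0, 0),
  (0, 0), (0, 0), (0, 0), (0, 0), (0, 0), (0, 0), (0, 0)]),
  (([3, 12], [0, 4, 6, 8]), [(0, 0), (0, 0), (2, 153), (0, 0), (0, 0), (0, 0), (0, 0), (0, 0), (0,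
  0), (0, 0), (0, 0), (2, 153), (0, 0), (0, 0), (0, 0)]),
  (([3, 12], [0, 4, 6]), [(0, 0), (0, 0), (0, 0), (0, 0), (0, 0), (0, 0), (0, 0), (0, 0), (3,
  154), (0, 0), (0, 0), (2, 153), (0, 0), (0, 0), (0, 0)]),
  (([], [0, 4, 6, 7]), [(0, 0), (0, 0), (2, 143), (2, 150), (0, 0), (0, 0), (0, 0), (0, 0), (3,
  157), (0, 0), (0, 0), (0, 0), (2, 159), (2, 159), (0, 0)]),
  (([], [0, 4, 6, 7, 8]), [(0, 0), (0, 0), (0, 0), (2, 151), (0, 0), (0, 0), (0, 0), (0, 0), (0,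
  0), (0, 0), (0, 0), (0, 0), (2, 158), (2, 158), (0, 0)]),
  (([12], [0, 4, 6, 7, 8]), [(0, 0), (0, 0), (0, 0), (2, 154), (0, 0), (0, 0), (0, 0), (0, 0), (0,
  0), (0, 0), (0, 0), (0, 0), (0, 0), (0, 0), (0, 0)]),
  (([12], [0, 4, 6, 7]), [(0, 0), (0, 0), (2, 146), (2, 155), (0, 0), (0, 0), (0, 0), (0, 0), (3,
  158), (0, 0), (0, 0), (0, 0), (0, 0), (0, 0), (0, 0)]),
  (([], [0, 4, 6, 8]), [(0, 0), (0, 0), (0, 0), (2, 151), (0, 0), (0, 0), (0, 0), (3, 157), (0,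
  0), (0, 0), (0, 0), (0, 0), (2, 161), (2, 161), (0, 0)]),
  (([12], [0, 4, 6, 8]), [(0, 0), (0, 0), (0, 0), (2, 154), (0, 0), (0, 0), (0, 0), (3, 158), (0,
  0), (0, 0), (0, 0), (0, 0), (0, 0), (0, 0), (0, 0)]),
  (([12], [0, 4, 6]), [(0, 0), (0, 0), (2, 149), (2, 155), (0, 0), (0, 0), (0, 0), (3, 159), (3,
  161), (0, 0), (0, 0), (0, 0), (0, 0), (0, 0), (0, 0)]),
  (([], [0, 4, 7]), [(0, 0), (0, 0), (0, 0), (0, 0), (0, 0), (0, 0), (3, 156), (0, 0), (3, 164),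
  (0, 0), (0, 0), (0, 0), (2, 166), (2, 166), (0, 0)]),
  (([], [0, 4, 7, 8]), [(0, 0), (0, 0), (0, 0), (0, 0), (0, 0), (0, 0), (3, 157), (0, 0), (0, 0),
  (0, 0), (0, 0), (0, 0), (2, 165), (2, 165), (0, 0)]),
  (([12], [0, 4, 7, 8]), [(0, 0), (0, 0), (0, 0), (0, 0), (0, 0), (0, 0), (3, 158), (0, 0), (0,
  0), (0, 0), (0, 0), (0, 0), (0, 0), (0, 0), (0, 0)]),
  (([12], [0, 4, 7]), [(0, 0), (0, 0), (0, 0), (0, 0), (0, 0), (0, 0), (3, 159), (0, 0), (3, 165),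
  (0, 0), (0, 0), (0, 0), (0, 0), (0, 0), (0, 0)]),
  (([], [0, 4, 8]), [(0, 0), (0, 0), (0, 0), (0, 0), (0, 0), (0, 0), (3, 160), (3, 164), (0, 0),
  (0, 0), (0, 0), (0, 0), (2, 168), (2, 168), (0, 0)]),
  (([12], [0, 4, 8]), [(0, 0), (0, 0), (0, 0), (0, 0), (0, 0), (0, 0), (3, 161), (3, 165), (0, 0),
  (0, 0), (0, 0), (0, 0), (0, 0), (0, 0), (0, 0)]),
  (([12], [0, 4]), [(0, 0), (0, 0), (0, 0), (0, 0), (0, 0), (0, 0), (3, 162), (3, 166), (3, 168),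
  (0, 0), (0, 0), (0, 0), (0, 0), (0, 0), (0, 0)]),
  (([], [0, 5]), [(0, 0), (3, 55), (0, 0), (3, 101), (0, 0), (0, 0), (0, 0), (3, 171), (3, 175),
  (0, 0), (0, 0), (0, 0), (2, 177), (2, 177), (0, 0)]),
  (([], [0, 5, 7]), [(0, 0), (0, 0), (0, 0), (3, 118), (0, 0), (0, 0), (0, 0), (0, 0), (3, 172),
  (0, 0), (0, 0), (0, 0), (2, 174), (2, 174), (0, 0)]),
  (([], [0, 5, 7, 8]), [(0, 0), (0, 0), (0, 0), (3, 119), (0, 0), (0, 0), (0, 0), (0, 0), (0, 0),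
  (0, 0), (0, 0), (0, 0), (2, 173), (2, 173), (0, 0)]),
  (([12], [0, 5, 7, 8]), [(0, 0), (0, 0), (0, 0), (3, 122), (0, 0), (0, 0), (0, 0), (0, 0), (0,
  0), (0, 0), (0, 0), (0, 0), (0, 0), (0, 0), (0, 0)]),
  (([12], [0, 5, 7]), [(0, 0), (0, 0), (0, 0), (3, 125), (0, 0), (0, 0), (0, 0), (0, 0), (3, 173),
  (0, 0), (0, 0), (0, 0), (0, 0), (0, 0), (0, 0)]),
  (([], [0, 5, 8]), [(0, 0), (3, 56), (0, 0), (3, 126), (0, 0), (0, 0), (0, 0), (3, 172), (0, 0),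
  (0, 0), (0, 0), (0, 0), (2, 176), (2, 176), (0, 0)]),
  (([12], [0, 5, 8]), [(0, 0), (3, 57), (0, 0), (3, 129), (0, 0), (0, 0), (0, 0), (3, 173), (0,
  0), (0, 0), (0, 0), (0, 0), (0, 0), (0, 0), (0, 0)]),
  (([12], [0, 5]), [(0, 0), (3, 58), (0, 0), (3, 132), (0, 0), (0, 0), (0, 0), (3, 174), (3, 176),
  (0, 0), (0, 0), (0, 0), (0, 0), (0, 0), (0, 0)]),
  (([], [0, 6]), [(0, 0), (3, 59), (2, 179), (0, 0), (3, 141), (0, 0), (0, 0), (3, 187), (3, 191),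
  (0, 0), (0, 0), (0, 0), (2, 193), (2, 193), (0, 0)]),
  (([2], [0, 6]), [(0, 0), (3, 28), (0, 0), (3, 68), (3, 142), (0, 0), (0, 0), (3, 180), (0, 0),
  (0, 0), (0, 0), (3, 184), (2, 186), (2, 186), (0, 0)]),
  (([2], [0, 6, 7]), [(0, 0), (0, 0), (0, 0), (3, 69), (3, 143), (0, 0), (0, 0), (0, 0), (0, 0),
  (0, 0), (0, 0), (3, 181), (2, 183), (2, 183), (0, 0)]),
  (([2], [0, 6, 7, 11]), [(0, 0), (0, 0), (0, 0), (3, 78), (3, 144), (0, 0), (0, 0), (0, 0), (0,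
  0), (0, 0), (0, 0), (0, 0), (2, 182), (2, 182), (0, 0)]),
  (([2, 12], [0, 6, 7, 11]), [(0, 0), (0, 0), (0, 0), (3, 79), (3, 145), (0, 0), (0, 0), (0, 0),
  (0, 0), (0, 0), (0, 0), (0, 0), (0, 0), (0, 0), (0, 0)]),
  (([2, 12], [0, 6, 7]), [(0, 0), (0, 0), (0, 0), (3, 80), (3, 146), (0, 0), (0, 0), (0, 0), (0,
  0), (0, 0), (0, 0), (3, 182), (0, 0), (0, 0), (0, 0)]),
  (([2], [0, 6, 11]), [(0, 0), (3, 29), (0, 0), (3, 81), (3, 147), (0, 0), (0, 0), (3, 181), (0,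
  0), (0, 0), (0, 0), (0, 0), (2, 185), (2, 185), (0, 0)]),
  (([2, 12], [0, 6, 11]), [(0, 0), (3, 30), (0, 0), (3, 82), (3, 148), (0, 0), (0, 0), (3, 182),
  (0, 0), (0, 0), (0, 0), (0, 0), (0, 0), (0, 0), (0, 0)]),
  (([2, 12], [0, 6]), [(0, 0), (3, 31), (0, 0), (3, 83), (3, 149), (0, 0), (0, 0), (3, 183), (0,
  0), (0, 0), (0, 0), (3, 185), (0, 0), (0, 0), (0, 0)]),
  (([], [0, 6, 7]), [(0, 0), (0, 0), (2, 180), (0, 0), (3, 156), (0, 0), (0, 0), (0, 0), (3, 188),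
  (0, 0), (0, 0), (0, 0), (2, 190), (2, 190), (0, 0)]),
  (([], [0, 6, 7, 8]), [(0, 0), (0, 0), (0, 0), (0, 0), (3, 157), (0, 0), (0, 0), (0, 0), (0, 0),
  (0, 0), (0, 0), (0, 0), (2, 189), (2, 189), (0, 0)]),
  (([12], [0, 6, 7, 8]), [(0, 0), (0, 0), (0, 0), (0, 0), (3, 158), (0, 0), (0, 0), (0, 0), (0,
  0), (0, 0), (0, 0), (0, 0), (0, 0), (0, 0), (0, 0)]),
  (([12], [0, 6, 7]), [(0, 0), (0, 0), (2, 183), (0, 0), (3, 159), (0, 0), (0, 0), (0, 0), (3,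
  189), (0, 0), (0, 0), (0, 0), (0, 0), (0, 0), (0, 0)]),
  (([], [0, 6, 8]), [(0, 0), (3, 60), (0, 0), (0, 0), (3, 160), (0, 0), (0, 0), (3, 188), (0, 0),
  (0, 0), (0, 0), (0, 0), (2, 192), (2, 192), (0, 0)]),
  (([12], [0, 6, 8]), [(0, 0), (3, 61), (0, 0), (0, 0), (3, 161), (0, 0), (0, 0), (3, 189), (0,
  0), (0, 0), (0, 0), (0, 0), (0, 0), (0, 0), (0, 0)]),
  (([12], [0, 6]), [(0, 0), (3, 62), (2, 186), (0, 0), (3, 162), (0, 0), (0, 0), (3, 190), (3,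
  192), (0, 0), (0, 0), (0, 0), (0, 0), (0, 0), (0, 0)]),
  (([], [0, 7]), [(0, 0), (0, 0), (0, 0), (3, 133), (3, 163), (3, 171), (3, 187), (0, 0), (3,
  195), (0, 0), (0, 0), (0, 0), (2, 197), (2, 197), (0, 0)]),
  (([], [0, 7, 8]), [(0, 0), (0, 0), (0, 0), (3, 134), (3, 164), (3, 172), (3, 188), (0, 0), (0,
  0), (0, 0), (0, 0), (0, 0), (2, 196), (2, 196), (0, 0)]),
  (([12], [0, 7, 8]), [(0, 0), (0, 0), (0, 0), (3, 135), (3, 165), (3, 173), (3, 189), (0, 0), (0,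
  0), (0, 0), (0, 0), (0, 0), (0, 0), (0, 0), (0, 0)]),
  (([12], [0, 7]), [(0, 0), (0, 0), (0, 0), (3, 136), (3, 166), (3, 174), (3, 190), (0, 0), (3,
  196), (0, 0), (0, 0), (0, 0), (0, 0), (0, 0), (0, 0)]),
  (([], [0, 8]), [(0, 0), (3, 63), (0, 0), (3, 137), (3, 167), (3, 175), (3, 191), (3, 195), (0,
  0), (0, 0), (0, 0), (0, 0), (2, 199), (2, 199), (0, 0)]),
  (([12], [0, 8]), [(0, 0), (3, 64), (0, 0), (3, 138), (3, 168), (3, 176), (3, 192), (3, 196), (0,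
  0), (0, 0), (0, 0), (0, 0), (0, 0), (0, 0), (0, 0)]),
  (([12], [0]), [(0, 0), (3, 65), (0, 0), (3, 139), (3, 169), (3, 177), (3, 193), (3, 197), (3,
  199), (0, 0), (0, 0), (0, 0), (0, 0), (0, 0), (0, 0)]),
  (([], [1]), [(3, 2), (0, 0), (0, 0), (3, 202), (0, 0), (3, 236), (3, 254), (0, 0), (3, 274), (0,
  0), (0, 0), (3, 276), (2, 288), (2, 288), (0, 0)]),
  (([], [1, 3]), [(3, 41), (0, 0), (0, 0), (0, 0), (0, 0), (3, 203), (0, 0), (0, 0), (3, 221), (2,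
  208), (0, 0), (3, 223), (2, 235), (2, 235), (0, 0)]),
  (([], [1, 3, 5]), [(3, 42), (0, 0), (0, 0), (0, 0), (0, 0), (0, 0), (0, 0), (0, 0), (3, 204),
  (2, 208), (0, 0), (3, 214), (2, 220), (2, 220), (0, 0)]),
  (([], [1, 3, 5, 8]), [(3, 43), (0, 0), (0, 0), (0, 0), (0, 0), (0, 0), (0, 0), (0, 0), (0, 0),
  (2, 205), (0, 0), (0, 0), (2, 207), (2, 207), (0, 0)]),
  (([9], [1, 3, 5, 8]), [(3, 44), (0, 0), (2, 5), (0, 0), (0, 0), (0, 0), (0, 0), (0, 0), (0, 0),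
  (0, 0), (0, 0), (0, 0), (2, 206), (2, 206), (0, 0)]),
  (([9, 12], [1, 3, 5, 8]), [(3, 47), (0, 0), (2, 6), (0, 0), (0, 0), (0, 0), (0, 0), (0, 0), (0,
  0), (0, 0), (0, 0), (0, 0), (0, 0), (0, 0), (0, 0)]),
  (([12], [1, 3, 5, 8]), [(3, 48), (0, 0), (0, 0), (0, 0), (0, 0), (0, 0), (0, 0), (0, 0), (0, 0),
  (2, 206), (0, 0), (0, 0), (0, 0), (0, 0), (0, 0)]),
  (([9], [1, 3, 5]), [(3, 49), (0, 0), (2, 5), (0, 0), (0, 0), (0, 0), (0, 0), (0, 0), (3, 205),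
  (0, 0), (0, 0), (3, 209), (2, 213), (2, 213), (0, 0)]),
  (([9], [1, 3, 5, 11]), [(0, 0), (0, 0), (2, 5), (0, 0), (0, 0), (0, 0), (0, 0), (0, 0), (0, 0),
  (0, 0), (2, 210), (0, 0), (2, 212), (2, 212), (0, 0)]),
  (([9, 10], [1, 3, 5, 11]), [(0, 0), (0, 0), (0, 0), (0, 0), (0, 0), (0, 0), (0, 0), (0, 0), (0,
  0), (0, 0), (0, 0), (0, 0), (2, 211), (2, 211), (0, 0)]),
  (([9, 10, 12], [1, 3, 5, 11]), [(0, 0), (0, 0), (0, 0), (0, 0), (0, 0), (0, 0), (0, 0), (0, 0),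
  (0, 0), (0, 0), (0, 0), (0, 0), (0, 0), (0, 0), (0, 0)]),
  (([9, 12], [1, 3, 5, 11]), [(0, 0), (0, 0), (2, 6), (0, 0), (0, 0), (0, 0), (0, 0), (0, 0), (0,
  0), (0, 0), (2, 211), (0, 0), (0, 0), (0, 0), (0, 0)]),
  (([9, 12], [1, 3, 5]), [(3, 50), (0, 0), (2, 6), (0, 0), (0, 0), (0, 0), (0, 0), (0, 0), (3,
  206), (0, 0), (0, 0), (3, 212), (0, 0), (0, 0), (0, 0)]),
  (([], [1, 3, 5, 11]), [(0, 0), (0, 0), (2, 215), (0, 0), (0, 0), (0, 0), (0, 0), (0, 0), (0, 0),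
  (2, 209), (2, 217), (0, 0), (2, 219), (2, 219), (0, 0)]),
  (([2], [1, 3, 5, 11]), [(0, 0), (0, 0), (0, 0), (0, 0), (0, 0), (0, 0), (0, 0), (0, 0), (0, 0),
  (2, 5), (0, 0), (0, 0), (2, 216), (2, 216), (0, 0)]),
  (([2, 12], [1, 3, 5, 11]), [(0, 0), (0, 0), (0, 0), (0, 0), (0, 0), (0, 0), (0, 0), (0, 0), (0,
  0), (2, 6), (0, 0), (0, 0), (0, 0), (0, 0), (0, 0)]),
  (([10], [1, 3, 5, 11]), [(0, 0), (0, 0), (0, 0), (0, 0), (0, 0), (0, 0), (0, 0), (0, 0), (0, 0),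
  (2, 210), (0, 0), (0, 0), (2, 218), (2, 218), (0, 0)]),
  (([10, 12], [1, 3, 5, 11]), [(0, 0), (0, 0), (0, 0), (0, 0), (0, 0), (0, 0), (0, 0), (0, 0), (0,
  0), (2, 211), (0, 0), (0, 0), (0, 0), (0, 0), (0, 0)]),
  (([12], [1, 3, 5, 11]), [(0, 0), (0, 0), (2, 216), (0, 0), (0, 0), (0, 0), (0, 0), (0, 0), (0,
  0), (2, 212), (2, 218), (0, 0), (0, 0), (0, 0), (0, 0)]),
  (([12], [1, 3, 5]), [(3, 51), (0, 0), (0, 0), (0, 0), (0, 0), (0, 0), (0, 0), (0, 0), (3, 207),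
  (2, 213), (0, 0), (3, 219), (0, 0), (0, 0), (0, 0)]),
  (([], [1, 3, 8]), [(3, 52), (0, 0), (0, 0), (0, 0), (0, 0), (3, 204), (0, 0), (0, 0), (0, 0),
  (2, 205), (0, 0), (0, 0), (2, 222), (2, 222), (0, 0)]),
  (([12], [1, 3, 8]), [(3, 53), (0, 0), (0, 0), (0, 0), (0, 0), (3, 207), (0, 0), (0, 0), (0, 0),
  (2, 206), (0, 0), (0, 0), (0, 0), (0, 0), (0, 0)]),
  (([], [1, 3, 11]), [(0, 0), (0, 0), (2, 224), (0, 0), (0, 0), (3, 214), (0, 0), (0, 0), (0, 0),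
  (2, 209), (2, 228), (0, 0), (2, 234), (2, 234), (0, 0)]),
  (([2], [1, 3, 11]), [(3, 15), (0, 0), (0, 0), (0, 0), (0, 0), (3, 215), (0, 0), (0, 0), (0, 0),
  (2, 5), (3, 225), (0, 0), (2, 227), (2, 227), (0, 0)]),
  (([2], [1, 3, 11, 10]), [(3, 12), (0, 0), (0, 0), (0, 0), (0, 0), (0, 0), (2, 8), (0, 0), (0,
  0), (2, 5), (0, 0), (0, 0), (2, 226), (2, 226), (0, 0)]),
  (([2, 12], [1, 3, 11, 10]), [(3, 13), (0, 0), (0, 0), (0, 0), (0, 0), (0, 0), (2, 9), (0, 0),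
  (0, 0), (2, 6), (0, 0), (0, 0), (0, 0), (0, 0), (0, 0)]),
  (([2, 12], [1, 3, 11]), [(3, 16), (0, 0), (0, 0), (0, 0), (0, 0), (3, 216), (0, 0), (0, 0), (0,
  0), (2, 6), (3, 226), (0, 0), (0, 0), (0, 0), (0, 0)]),
  (([10], [1, 3, 11]), [(0, 0), (0, 0), (3, 229), (0, 0), (0, 0), (3, 217), (3, 231), (0, 0), (0,
  0), (2, 210), (0, 0), (0, 0), (2, 233), (2, 233), (0, 0)]),
  (([10], [1, 3, 11, 2]), [(0, 0), (0, 0), (0, 0), (0, 0), (0, 0), (0, 0), (0, 0), (0, 0), (0, 0),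
  (2, 210), (0, 0), (0, 0), (2, 230), (2, 230), (0, 0)]),
  (([10, 12], [1, 3, 11, 2]), [(0, 0), (0, 0), (0, 0), (0, 0), (0, 0), (0, 0), (0, 0), (0, 0), (0,
  0), (2, 211), (0, 0), (0, 0), (0, 0), (0, 0), (0, 0)]),
  (([10], [1, 3, 11, 6]), [(0, 0), (0, 0), (0, 0), (0, 0), (0, 0), (0, 0), (0, 0), (0, 0), (0, 0),
  (2, 210), (0, 0), (0, 0), (2, 232), (2, 232), (0, 0)]),
  (([10, 12], [1, 3, 11, 6]), [(0, 0), (0, 0), (0, 0), (0, 0), (0, 0), (0, 0), (0, 0), (0, 0), (0,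
  0), (2, 211), (0, 0), (0, 0), (0, 0), (0, 0), (0, 0)]),
  (([10, 12], [1, 3, 11]), [(0, 0), (0, 0), (3, 230), (0, 0), (0, 0), (3, 218), (3, 232), (0, 0),
  (0, 0), (2, 211), (0, 0), (0, 0), (0, 0), (0, 0), (0, 0)]),
  (([12], [1, 3, 11]), [(0, 0), (0, 0), (2, 227), (0, 0), (0, 0), (3, 219), (0, 0), (0, 0), (0,
  0), (2, 212), (2, 233), (0, 0), (0, 0), (0, 0), (0, 0)]),
  (([12], [1, 3]), [(3, 54), (0, 0), (0, 0), (0, 0), (0, 0), (3, 220), (0, 0), (0, 0), (3, 222),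
  (2, 213), (0, 0), (3, 234), (0, 0), (0, 0), (0, 0)]),
  (([], [1, 5]), [(3, 55), (0, 0), (2, 237), (3, 203), (0, 0), (0, 0), (0, 0), (0, 0), (3, 247),
  (0, 0), (0, 0), (3, 249), (2, 253), (2, 253), (0, 0)]),
  (([2], [1, 5]), [(3, 18), (0, 0), (0, 0), (0, 0), (0, 0), (0, 0), (0, 0), (0, 0), (0, 0), (0,
  0), (3, 238), (0, 0), (2, 246), (2, 246), (0, 0)]),
  (([2], [1, 5, 10]), [(3, 19), (0, 0), (0, 0), (0, 0), (0, 0), (0, 0), (0, 0), (0, 0), (2, 239),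
  (0, 0), (0, 0), (3, 243), (2, 245), (2, 245), (0, 0)]),
  (([2, 8], [1, 5, 10]), [(3, 20), (0, 0), (0, 0), (0, 0), (0, 0), (0, 0), (0, 0), (0, 0), (0, 0),
  (0, 0), (0, 0), (3, 240), (2, 242), (2, 242), (0, 0)]),
  (([2, 8], [1, 5, 10, 11]), [(0, 0), (0, 0), (0, 0), (0, 0), (0, 0), (0, 0), (0, 0), (0, 0), (0,
  0), (0, 0), (0, 0), (0, 0), (2, 241), (2, 241), (0, 0)]),
  (([2, 8, 12], [1, 5, 10, 11]), [(0, 0), (0, 0), (0, 0), (0, 0), (0, 0), (0, 0), (0, 0), (0, 0),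
  (0, 0), (0, 0), (0, 0), (0, 0), (0, 0), (0, 0), (0, 0)]),
  (([2, 8, 12], [1, 5, 10]), [(3, 21), (0, 0), (0, 0), (0, 0), (0, 0), (0, 0), (0, 0), (0, 0), (0,
  0), (0, 0), (0, 0), (3, 241), (0, 0), (0, 0), (0, 0)]),
  (([2], [1, 5, 10, 11]), [(3, 22), (0, 0), (0, 0), (0, 0), (0, 0), (0, 0), (0, 0), (0, 0), (2,
  240), (0, 0), (0, 0), (0, 0), (2, 244), (2, 244), (0, 0)]),
  (([2, 12], [1, 5, 10, 11]), [(3, 23), (0, 0), (0, 0), (0, 0), (0, 0), (0, 0), (0, 0), (0, 0),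
  (2, 241), (0, 0), (0, 0), (0, 0), (0, 0), (0, 0), (0, 0)]),
  (([2, 12], [1, 5, 10]), [(3, 24), (0, 0), (0, 0), (0, 0), (0, 0), (0, 0), (0, 0), (0, 0), (2,
  242), (0, 0), (0, 0), (3, 244), (0, 0), (0, 0), (0, 0)]),
  (([2, 12], [1, 5]), [(3, 27), (0, 0), (0, 0), (0, 0), (0, 0), (0, 0), (0, 0), (0, 0), (0, 0),
  (0, 0), (3, 245), (0, 0), (0, 0), (0, 0), (0, 0)]),
  (([], [1, 5, 8]), [(3, 56), (0, 0), (0, 0), (3, 204), (0, 0), (0, 0), (0, 0), (0, 0), (0, 0),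
  (0, 0), (0, 0), (0, 0), (2, 248), (2, 248), (0, 0)]),
  (([12], [1, 5, 8]), [(3, 57), (0, 0), (0, 0), (3, 207), (0, 0), (0, 0), (0, 0), (0, 0), (0, 0),
  (0, 0), (0, 0), (0, 0), (0, 0), (0, 0), (0, 0)]),
  (([], [1, 5, 11]), [(0, 0), (0, 0), (0, 0), (3, 214), (0, 0), (0, 0), (0, 0), (0, 0), (0, 0),
  (2, 250), (2, 217), (0, 0), (2, 252), (2, 252), (0, 0)]),
  (([9], [1, 5, 11]), [(0, 0), (0, 0), (0, 0), (3, 209), (0, 0), (0, 0), (0, 0), (0, 0), (0, 0),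
  (0, 0), (2, 210), (0, 0), (2, 251), (2, 251), (0, 0)]),
  (([9, 12], [1, 5, 11]), [(0, 0), (0, 0), (0, 0), (3, 212), (0, 0), (0, 0), (0, 0), (0, 0), (0,
  0), (0, 0), (2, 211), (0, 0), (0, 0), (0, 0), (0, 0)]),
  (([12], [1, 5, 11]), [(0, 0), (0, 0), (0, 0), (3, 219), (0, 0), (0, 0), (0, 0), (0, 0), (0, 0),
  (2, 251), (2, 218), (0, 0), (0, 0), (0, 0), (0, 0)]),
  (([12], [1, 5]), [(3, 58), (0, 0), (2, 246), (3, 220), (0, 0), (0, 0), (0, 0), (0, 0), (3, 248),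
  (0, 0), (0, 0), (3, 252), (0, 0), (0, 0), (0, 0)]),
  (([], [1, 6]), [(3, 59), (0, 0), (0, 0), (0, 0), (0, 0), (0, 0), (0, 0), (0, 0), (3, 255), (0,
  0), (0, 0), (0, 0), (2, 273), (2, 273), (0, 0)]),
  (([], [1, 6, 8]), [(3, 60), (0, 0), (0, 0), (0, 0), (0, 0), (0, 0), (0, 0), (0, 0), (0, 0), (0,
  0), (0, 0), (2, 256), (2, 272), (2, 272), (0, 0)]),
  (([11], [1, 6, 8]), [(0, 0), (0, 0), (3, 257), (0, 0), (2, 258), (0, 0), (0, 0), (0, 0), (0, 0),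
  (0, 0), (3, 267), (0, 0), (2, 271), (2, 271), (0, 0)]),
  (([11], [1, 6, 8, 2]), [(0, 0), (0, 0), (0, 0), (0, 0), (2, 258), (0, 0), (0, 0), (0, 0), (0,
  0), (0, 0), (3, 264), (0, 0), (2, 266), (2, 266), (0, 0)]),
  (([11, 4], [1, 6, 8, 2]), [(0, 0), (0, 0), (0, 0), (3, 259), (0, 0), (0, 0), (0, 0), (0, 0), (0,
  0), (3, 261), (0, 0), (0, 0), (2, 263), (2, 263), (0, 0)]),
  (([11, 4], [1, 6, 8, 2, 3]), [(0, 0), (0, 0), (0, 0), (0, 0), (0, 0), (0, 0), (0, 0), (0, 0),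
  (0, 0), (0, 0), (0, 0), (0, 0), (2, 260), (2, 260), (0, 0)]),
  (([11, 4, 12], [1, 6, 8, 2, 3]), [(0, 0), (0, 0), (0, 0), (0, 0), (0, 0), (0, 0), (0, 0), (0,
  0), (0, 0), (0, 0), (0, 0), (0, 0), (0, 0), (0, 0), (0, 0)]),
  (([11, 4], [1, 6, 8, 2, 9]), [(0, 0), (0, 0), (0, 0), (0, 0), (0, 0), (0, 0), (0, 0), (0, 0),
  (0, 0), (0, 0), (0, 0), (0, 0), (2, 262), (2, 262), (0, 0)]),
  (([11, 4, 12], [1, 6, 8, 2, 9]), [(0, 0), (0, 0), (0, 0), (0, 0), (0, 0), (0, 0), (0, 0), (0,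
  0), (0, 0), (0, 0), (0, 0), (0, 0), (0, 0), (0, 0), (0, 0)]),
  (([11, 4, 12], [1, 6, 8, 2]), [(0, 0), (0, 0), (0, 0), (3, 260), (0, 0), (0, 0), (0, 0), (0, 0),
  (0, 0), (3, 262), (0, 0), (0, 0), (0, 0), (0, 0), (0, 0)]),
  (([11], [1, 6, 8, 2, 10]), [(0, 0), (0, 0), (0, 0), (0, 0), (2, 258), (0, 0), (0, 0), (0, 0),
  (0, 0), (0, 0), (0, 0), (0, 0), (2, 265), (2, 265), (0, 0)]),
  (([11, 12], [1, 6, 8, 2, 10]), [(0, 0), (0, 0), (0, 0), (0, 0), (2, 263), (0, 0), (0, 0), (0,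
  0), (0, 0), (0, 0), (0, 0), (0, 0), (0, 0), (0, 0), (0, 0)]),
  (([11, 12], [1, 6, 8, 2]), [(0, 0), (0, 0), (0, 0), (0, 0), (2, 263), (0, 0), (0, 0), (0, 0),
  (0, 0), (0, 0), (3, 265), (0, 0), (0, 0), (0, 0), (0, 0)]),
  (([11], [1, 6, 8, 10]), [(2, 268), (0, 0), (3, 264), (0, 0), (2, 258), (0, 0), (0, 0), (0, 0),
  (0, 0), (0, 0), (0, 0), (0, 0), (2, 270), (2, 270), (0, 0)]),
  (([11, 0], [1, 6, 8, 10]), [(0, 0), (0, 0), (0, 0), (0, 0), (0, 0), (0, 0), (0, 0), (0, 0), (0,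
  0), (0, 0), (0, 0), (0, 0), (2, 269), (2, 269), (0, 0)]),
  (([11, 0, 12], [1, 6, 8, 10]), [(0, 0), (0, 0), (0, 0), (0, 0), (0, 0), (0, 0), (0, 0), (0, 0),
  (0, 0), (0, 0), (0, 0), (0, 0), (0, 0), (0, 0), (0, 0)]),
  (([11, 12], [1, 6, 8, 10]), [(2, 269), (0, 0), (3, 265), (0, 0), (2, 263), (0, 0), (0, 0), (0,
  0), (0, 0), (0, 0), (0, 0), (0, 0), (0, 0), (0, 0), (0, 0)]),
  (([11, 12], [1, 6, 8]), [(0, 0), (0, 0), (3, 266), (0, 0), (2, 263), (0, 0), (0, 0), (0, 0), (0,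
  0), (0, 0), (3, 270), (0, 0), (0, 0), (0, 0), (0, 0)]),
  (([12], [1, 6, 8]), [(3, 61), (0, 0), (0, 0), (0, 0), (0, 0), (0, 0), (0, 0), (0, 0), (0, 0),
  (0, 0), (0, 0), (2, 271), (0, 0), (0, 0), (0, 0)]),
  (([12], [1, 6]), [(3, 62), (0, 0), (0, 0), (0, 0), (0, 0), (0, 0), (0, 0), (0, 0), (3, 272), (0,
  0), (0, 0), (0, 0), (0, 0), (0, 0), (0, 0)]),
  (([], [1, 8]), [(3, 63), (0, 0), (0, 0), (3, 221), (0, 0), (3, 247), (3, 255), (0, 0), (0, 0),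
  (0, 0), (0, 0), (0, 0), (2, 275), (2, 275), (0, 0)]),
  (([12], [1, 8]), [(3, 64), (0, 0), (0, 0), (3, 222), (0, 0), (3, 248), (3, 272), (0, 0), (0, 0),
  (0, 0), (0, 0), (0, 0), (0, 0), (0, 0), (0, 0)]),
  (([], [1, 11]), [(0, 0), (0, 0), (2, 277), (3, 223), (0, 0), (3, 249), (0, 0), (0, 0), (0, 0),
  (2, 250), (2, 228), (0, 0), (2, 287), (2, 287), (0, 0)]),
  (([2], [1, 11]), [(3, 38), (0, 0), (0, 0), (3, 224), (0, 0), (0, 0), (3, 278), (0, 0), (0, 0),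
  (0, 0), (3, 284), (0, 0), (2, 286), (2, 286), (0, 0)]),
  (([2], [1, 11, 6]), [(3, 29), (0, 0), (0, 0), (0, 0), (0, 0), (3, 279), (0, 0), (0, 0), (0, 0),
  (0, 0), (0, 0), (0, 0), (2, 283), (2, 283), (0, 0)]),
  (([2], [1, 11, 6, 5]), [(0, 0), (0, 0), (0, 0), (0, 0), (0, 0), (0, 0), (0, 0), (0, 0), (2,
  280), (0, 0), (0, 0), (0, 0), (2, 282), (2, 282), (0, 0)]),
  (([2, 8], [1, 11, 6, 5]), [(0, 0), (0, 0), (0, 0), (0, 0), (0, 0), (0, 0), (0, 0), (0, 0), (0,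
  0), (0, 0), (0, 0), (0, 0), (2, 281), (2, 281), (0, 0)]),
  (([2, 8, 12], [1, 11, 6, 5]), [(0, 0), (0, 0), (0, 0), (0, 0), (0, 0), (0, 0), (0, 0), (0, 0),
  (0, 0), (0, 0), (0, 0), (0, 0), (0, 0), (0, 0), (0, 0)]),
  (([2, 12], [1, 11, 6, 5]), [(0, 0), (0, 0), (0, 0), (0, 0), (0, 0), (0, 0), (0, 0), (0, 0), (2,
  281), (0, 0), (0, 0), (0, 0), (0, 0), (0, 0), (0, 0)]),
  (([2, 12], [1, 11, 6]), [(3, 30), (0, 0), (0, 0), (0, 0), (0, 0), (3, 282), (0, 0), (0, 0), (0,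
  0), (0, 0), (0, 0), (0, 0), (0, 0), (0, 0), (0, 0)]),
  (([2], [1, 11, 10]), [(3, 35), (0, 0), (0, 0), (3, 225), (0, 0), (3, 243), (0, 0), (0, 0), (0,
  0), (0, 0), (0, 0), (0, 0), (2, 285), (2, 285), (0, 0)]),
  (([2, 12], [1, 11, 10]), [(3, 36), (0, 0), (0, 0), (3, 226), (0, 0), (3, 244), (0, 0), (0, 0),
  (0, 0), (0, 0), (0, 0), (0, 0), (0, 0), (0, 0), (0, 0)]),
  (([2, 12], [1, 11]), [(3, 39), (0, 0), (0, 0), (3, 227), (0, 0), (0, 0), (3, 283), (0, 0), (0,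
  0), (0, 0), (3, 285), (0, 0), (0, 0), (0, 0), (0, 0)]),
  (([12], [1, 11]), [(0, 0), (0, 0), (2, 286), (3, 234), (0, 0), (3, 252), (0, 0), (0, 0), (0, 0),
  (2, 251), (2, 233), (0, 0), (0, 0), (0, 0), (0, 0)]),
  (([12], [1]), [(3, 65), (0, 0), (0, 0), (3, 235), (0, 0), (3, 253), (3, 273), (0, 0), (3, 275),
  (0, 0), (0, 0), (3, 287), (0, 0), (0, 0), (0, 0)]),
  (([], [2]), [(0, 0), (0, 0), (0, 0), (0, 0), (3, 290), (0, 0), (0, 0), (3, 316), (0, 0), (3,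
  338), (0, 0), (0, 0), (2, 340), (2, 340), (0, 0)]),
  (([], [2, 4]), [(0, 0), (0, 0), (0, 0), (0, 0), (0, 0), (2, 291), (0, 0), (3, 293), (0, 0), (3,
  313), (0, 0), (2, 302), (2, 315), (2, 315), (0, 0)]),
  (([5], [2, 4]), [(0, 0), (0, 0), (0, 0), (0, 0), (0, 0), (0, 0), (0, 0), (0, 0), (0, 0), (0, 0),
  (0, 0), (0, 0), (2, 292), (2, 292), (0, 0)]),
  (([5, 12], [2, 4]), [(0, 0), (0, 0), (0, 0), (0, 0), (0, 0), (0, 0), (0, 0), (0, 0), (0, 0), (0,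
  0), (0, 0), (0, 0), (0, 0), (0, 0), (0, 0)]),
  (([], [2, 4, 7]), [(0, 0), (0, 0), (0, 0), (0, 0), (0, 0), (2, 291), (0, 0), (0, 0), (0, 0), (3,
  294), (0, 0), (2, 302), (2, 312), (2, 312), (0, 0)]),
  (([], [2, 4, 7, 9]), [(2, 295), (0, 0), (0, 0), (0, 0), (0, 0), (2, 291), (0, 0), (0, 0), (0,
  0), (0, 0), (0, 0), (2, 299), (2, 301), (2, 301), (0, 0)]),
  (([0], [2, 4, 7, 9]), [(0, 0), (0, 0), (0, 0), (0, 0), (0, 0), (0, 0), (0, 0), (0, 0), (0, 0),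
  (0, 0), (0, 0), (2, 296), (2, 298), (2, 298), (0, 0)]),
  (([0, 11], [2, 4, 7, 9]), [(0, 0), (0, 0), (0, 0), (0, 0), (0, 0), (0, 0), (0, 0), (0, 0), (0,
  0), (0, 0), (0, 0), (0, 0), (2, 297), (2, 297), (0, 0)]),
  (([0, 11, 12], [2, 4, 7, 9]), [(0, 0), (0, 0), (0, 0), (0, 0), (0, 0), (0, 0), (0, 0), (0, 0),
  (0, 0), (0, 0), (0, 0), (0, 0), (0, 0), (0, 0), (0, 0)]),
  (([0, 12], [2, 4, 7, 9]), [(0, 0), (0, 0), (0, 0), (0, 0), (0, 0), (0, 0), (0, 0), (0, 0), (0,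
  0), (0, 0), (0, 0), (2, 297), (0, 0), (0, 0), (0, 0)]),
  (([11], [2, 4, 7, 9]), [(2, 296), (0, 0), (0, 0), (0, 0), (0, 0), (0, 0), (0, 0), (0, 0), (0,
  0), (0, 0), (0, 0), (0, 0), (2, 300), (2, 300), (0, 0)]),
  (([11, 12], [2, 4, 7, 9]), [(2, 297), (0, 0), (0, 0), (0, 0), (0, 0), (0, 0), (0, 0), (0, 0),
  (0, 0), (0, 0), (0, 0), (0, 0), (0, 0), (0, 0), (0, 0)]),
  (([12], [2, 4, 7, 9]), [(2, 298), (0, 0), (0, 0), (0, 0), (0, 0), (2, 292), (0, 0), (0, 0), (0,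
  0), (0, 0), (0, 0), (2, 300), (0, 0), (0, 0), (0, 0)]),
  (([11], [2, 4, 7]), [(0, 0), (0, 0), (0, 0), (0, 0), (0, 0), (0, 0), (3, 303), (0, 0), (0, 0),
  (3, 299), (3, 309), (0, 0), (2, 311), (2, 311), (0, 0)]),
  (([11], [2, 4, 7, 6]), [(0, 0), (0, 0), (0, 0), (2, 152), (0, 0), (0, 0), (0, 0), (0, 0), (0,
  0), (0, 0), (3, 304), (0, 0), (2, 308), (2, 308), (0, 0)]),
  (([11], [2, 4, 7, 6, 10]), [(0, 0), (0, 0), (0, 0), (2, 152), (0, 0), (0, 0), (0, 0), (0, 0),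
  (0, 0), (2, 305), (0, 0), (0, 0), (2, 307), (2, 307), (0, 0)]),
  (([11, 9], [2, 4, 7, 6, 10]), [(0, 0), (0, 0), (0, 0), (0, 0), (0, 0), (0, 0), (0, 0), (0, 0),
  (0, 0), (0, 0), (0, 0), (0, 0), (2, 306), (2, 306), (0, 0)]),
  (([11, 9, 12], [2, 4, 7, 6, 10]), [(0, 0), (0, 0), (0, 0), (0, 0), (0, 0), (0, 0), (0, 0), (0,
  0), (0, 0), (0, 0), (0, 0), (0, 0), (0, 0), (0, 0), (0, 0)]),
  (([11, 12], [2, 4, 7, 6, 10]), [(0, 0), (0, 0), (0, 0), (2, 153), (0, 0), (0, 0), (0, 0), (0,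
  0), (0, 0), (2, 306), (0, 0), (0, 0), (0, 0), (0, 0), (0, 0)]),
  (([11, 12], [2, 4, 7, 6]), [(0, 0), (0, 0), (0, 0), (2, 153), (0, 0), (0, 0), (0, 0), (0, 0),
  (0, 0), (0, 0), (3, 307), (0, 0), (0, 0), (0, 0), (0, 0)]),
  (([11], [2, 4, 7, 10]), [(0, 0), (0, 0), (0, 0), (0, 0), (0, 0), (0, 0), (3, 304), (0, 0), (0,
  0), (0, 0), (0, 0), (0, 0), (2, 310), (2, 310), (0, 0)]),
  (([11, 12], [2, 4, 7, 10]), [(0, 0), (0, 0), (0, 0), (0, 0), (0, 0), (0, 0), (3, 307), (0, 0),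
  (0, 0), (0, 0), (0, 0), (0, 0), (0, 0), (0, 0), (0, 0)]),
  (([11, 12], [2, 4, 7]), [(0, 0), (0, 0), (0, 0), (0, 0), (0, 0), (0, 0), (3, 308), (0, 0), (0,
  0), (3, 300), (3, 310), (0, 0), (0, 0), (0, 0), (0, 0)]),
  (([12], [2, 4, 7]), [(0, 0), (0, 0), (0, 0), (0, 0), (0, 0), (2, 292), (0, 0), (0, 0), (0, 0),
  (3, 301), (0, 0), (2, 311), (0, 0), (0, 0), (0, 0)]),
  (([], [2, 4, 9]), [(2, 295), (0, 0), (0, 0), (0, 0), (0, 0), (2, 291), (0, 0), (3, 294), (0, 0),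
  (0, 0), (0, 0), (2, 299), (2, 314), (2, 314), (0, 0)]),
  (([12], [2, 4, 9]), [(2, 298), (0, 0), (0, 0), (0, 0), (0, 0), (2, 292), (0, 0), (3, 301), (0,
  0), (0, 0), (0, 0), (2, 300), (0, 0), (0, 0), (0, 0)]),
  (([12], [2, 4]), [(0, 0), (0, 0), (0, 0), (0, 0), (0, 0), (2, 292), (0, 0), (3, 312), (0, 0),
  (3, 314), (0, 0), (2, 311), (0, 0), (0, 0), (0, 0)]),
  (([], [2, 7]), [(0, 0), (0, 0), (0, 0), (0, 0), (3, 293), (0, 0), (0, 0), (0, 0), (0, 0), (3,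
  317), (0, 0), (0, 0), (2, 337), (2, 337), (0, 0)]),
  (([], [2, 7, 9]), [(2, 318), (0, 0), (0, 0), (0, 0), (3, 294), (0, 0), (0, 0), (0, 0), (0, 0),
  (0, 0), (0, 0), (2, 320), (2, 336), (2, 336), (0, 0)]),
  (([0], [2, 7, 9]), [(0, 0), (0, 0), (0, 0), (0, 0), (3, 295), (0, 0), (0, 0), (0, 0), (0, 0),
  (0, 0), (0, 0), (0, 0), (2, 319), (2, 319), (0, 0)]),
  (([0, 12], [2, 7, 9]), [(0, 0), (0, 0), (0, 0), (0, 0), (3, 298), (0, 0), (0, 0), (0, 0), (0,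
  0), (0, 0), (0, 0), (0, 0), (0, 0), (0, 0), (0, 0)]),
  (([11], [2, 7, 9]), [(0, 0), (3, 321), (0, 0), (0, 0), (3, 299), (3, 331), (3, 333), (0, 0), (0,
  0), (0, 0), (0, 0), (0, 0), (2, 335), (2, 335), (0, 0)]),
  (([11], [2, 7, 9, 1]), [(0, 0), (0, 0), (0, 0), (0, 0), (0, 0), (3, 322), (3, 324), (0, 0), (0,
  0), (0, 0), (0, 0), (0, 0), (2, 330), (2, 330), (0, 0)]),
  (([11], [2, 7, 9, 1, 5]), [(0, 0), (0, 0), (0, 0), (0, 0), (0, 0), (0, 0), (0, 0), (0, 0), (0,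
  0), (0, 0), (0, 0), (0, 0), (2, 323), (2, 323), (0, 0)]),
  (([11, 12], [2, 7, 9, 1, 5]), [(0, 0), (0, 0), (0, 0), (0, 0), (0, 0), (0, 0), (0, 0), (0, 0),
  (0, 0), (0, 0), (0, 0), (0, 0), (0, 0), (0, 0), (0, 0)]),
  (([11], [2, 7, 9, 1, 6]), [(0, 0), (0, 0), (0, 0), (0, 0), (2, 325), (0, 0), (0, 0), (0, 0), (0,
  0), (0, 0), (0, 0), (0, 0), (2, 329), (2, 329), (0, 0)]),
  (([11, 4], [2, 7, 9, 1, 6]), [(3, 326), (0, 0), (0, 0), (0, 0), (0, 0), (0, 0), (0, 0), (0, 0),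
  (3, 261), (0, 0), (0, 0), (0, 0), (2, 328), (2, 328), (0, 0)]),
  (([11, 4], [2, 7, 9, 1, 6, 0]), [(0, 0), (0, 0), (0, 0), (0, 0), (0, 0), (0, 0), (0, 0), (0, 0),
  (0, 0), (0, 0), (0, 0), (0, 0), (2, 327), (2, 327), (0, 0)]),
  (([11, 4, 12], [2, 7, 9, 1, 6, 0]), [(0, 0), (0, 0), (0, 0), (0, 0), (0, 0), (0, 0), (0, 0), (0,
  0), (0, 0), (0, 0), (0, 0), (0, 0), (0, 0), (0, 0), (0, 0)]),
  (([11, 4, 12], [2, 7, 9, 1, 6]), [(3, 327), (0, 0), (0, 0), (0, 0), (0, 0), (0, 0), (0, 0), (0,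
  0), (3, 262), (0, 0), (0, 0), (0, 0), (0, 0), (0, 0), (0, 0)]),
  (([11, 12], [2, 7, 9, 1, 6]), [(0, 0), (0, 0), (0, 0), (0, 0), (2, 328), (0, 0), (0, 0), (0, 0),
  (0, 0), (0, 0), (0, 0), (0, 0), (0, 0), (0, 0), (0, 0)]),
  (([11, 12], [2, 7, 9, 1]), [(0, 0), (0, 0), (0, 0), (0, 0), (0, 0), (3, 323), (3, 329), (0, 0),
  (0, 0), (0, 0), (0, 0), (0, 0), (0, 0), (0, 0), (0, 0)]),
  (([11], [2, 7, 9, 5]), [(0, 0), (3, 322), (0, 0), (0, 0), (0, 0), (0, 0), (0, 0), (0, 0), (0,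
  0), (0, 0), (0, 0), (0, 0), (2, 332), (2, 332), (0, 0)]),
  (([11, 12], [2, 7, 9, 5]), [(0, 0), (3, 323), (0, 0), (0, 0), (0, 0), (0, 0), (0, 0), (0, 0),
  (0, 0), (0, 0), (0, 0), (0, 0), (0, 0), (0, 0), (0, 0)]),
  (([11], [2, 7, 9, 6]), [(0, 0), (3, 324), (0, 0), (0, 0), (0, 0), (0, 0), (0, 0), (0, 0), (0,
  0), (0, 0), (0, 0), (0, 0), (2, 334), (2, 334), (0, 0)]),
  (([11, 12], [2, 7, 9, 6]), [(0, 0), (3, 329), (0, 0), (0, 0), (0, 0), (0, 0), (0, 0), (0, 0),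
  (0, 0), (0, 0), (0, 0), (0, 0), (0, 0), (0, 0), (0, 0)]),
  (([11, 12], [2, 7, 9]), [(0, 0), (3, 330), (0, 0), (0, 0), (3, 300), (3, 332), (3, 334), (0, 0),
  (0, 0), (0, 0), (0, 0), (0, 0), (0, 0), (0, 0), (0, 0)]),
  (([12], [2, 7, 9]), [(2, 319), (0, 0), (0, 0), (0, 0), (3, 301), (0, 0), (0, 0), (0, 0), (0, 0),
  (0, 0), (0, 0), (2, 335), (0, 0), (0, 0), (0, 0)]),
  (([12], [2, 7]), [(0, 0), (0, 0), (0, 0), (0, 0), (3, 312), (0, 0), (0, 0), (0, 0), (0, 0), (3,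
  336), (0, 0), (0, 0), (0, 0), (0, 0), (0, 0)]),
  (([], [2, 9]), [(2, 318), (0, 0), (0, 0), (0, 0), (3, 313), (0, 0), (0, 0), (3, 317), (0, 0),
  (0, 0), (0, 0), (2, 320), (2, 339), (2, 339), (0, 0)]),
  (([12], [2, 9]), [(2, 319), (0, 0), (0, 0), (0, 0), (3, 314), (0, 0), (0, 0), (3, 336), (0, 0),
  (0, 0), (0, 0), (2, 335), (0, 0), (0, 0), (0, 0)]),
  (([12], [2]), [(0, 0), (0, 0), (0, 0), (0, 0), (3, 315), (0, 0), (0, 0), (3, 337), (0, 0), (3,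
  339), (0, 0), (0, 0), (0, 0), (0, 0), (0, 0)]),
  (([], [3]), [(3, 66), (3, 202), (0, 0), (0, 0), (0, 0), (3, 342), (0, 0), (3, 380), (3, 400),
  (0, 0), (3, 404), (3, 412), (2, 418), (2, 418), (0, 0)]),
  (([], [3, 5]), [(3, 101), (3, 203), (0, 0), (0, 0), (2, 343), (0, 0), (0, 0), (3, 355), (3,
  369), (0, 0), (0, 0), (3, 371), (2, 379), (2, 379), (0, 0)]),
  (([4], [3, 5]), [(3, 102), (0, 0), (0, 0), (0, 0), (0, 0), (0, 0), (0, 0), (3, 344), (3, 352),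
  (0, 0), (0, 0), (0, 0), (2, 354), (2, 354), (0, 0)]),
  (([4], [3, 5, 7]), [(3, 103), (2, 104), (0, 0), (0, 0), (0, 0), (0, 0), (0, 0), (0, 0), (3,
  345), (0, 0), (0, 0), (0, 0), (2, 351), (2, 351), (0, 0)]),
  (([4], [3, 5, 7, 8]), [(3, 106), (2, 104), (0, 0), (0, 0), (0, 0), (0, 0), (0, 0), (0, 0), (0,
  0), (0, 0), (0, 0), (2, 346), (2, 350), (2, 350), (0, 0)]),
  (([4, 11], [3, 5, 7, 8]), [(3, 107), (0, 0), (0, 0), (0, 0), (0, 0), (0, 0), (3, 347), (0, 0),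
  (0, 0), (0, 0), (0, 0), (0, 0), (2, 349), (2, 349), (0, 0)]),
  (([4, 11], [3, 5, 7, 8, 6]), [(0, 0), (0, 0), (0, 0), (0, 0), (0, 0), (0, 0), (0, 0), (0, 0),
  (0, 0), (0, 0), (0, 0), (0, 0), (2, 348), (2, 348), (0, 0)]),
  (([4, 11, 12], [3, 5, 7, 8, 6]), [(0, 0), (0, 0), (0, 0), (0, 0), (0, 0), (0, 0), (0, 0), (0,
  0), (0, 0), (0, 0), (0, 0), (0, 0), (0, 0), (0, 0), (0, 0)]),
  (([4, 11, 12], [3, 5, 7, 8]), [(3, 108), (0, 0), (0, 0), (0, 0), (0, 0), (0, 0), (3, 348), (0,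
  0), (0, 0), (0, 0), (0, 0), (0, 0), (0, 0), (0, 0), (0, 0)]),
  (([4, 12], [3, 5, 7, 8]), [(3, 109), (2, 105), (0, 0), (0, 0), (0, 0), (0, 0), (0, 0), (0, 0),
  (0, 0), (0, 0), (0, 0), (2, 349), (0, 0), (0, 0), (0, 0)]),
  (([4, 12], [3, 5, 7]), [(3, 114), (2, 105), (0, 0), (0, 0), (0, 0), (0, 0), (0, 0), (0, 0), (3,
  350), (0, 0), (0, 0), (0, 0), (0, 0), (0, 0), (0, 0)]),
  (([4], [3, 5, 8]), [(3, 115), (0, 0), (0, 0), (0, 0), (0, 0), (0, 0), (0, 0), (3, 345), (0, 0),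
  (0, 0), (0, 0), (2, 346), (2, 353), (2, 353), (0, 0)]),
  (([4, 12], [3, 5, 8]), [(3, 116), (0, 0), (0, 0), (0, 0), (0, 0), (0, 0), (0, 0), (3, 350), (0,
  0), (0, 0), (0, 0), (2, 349), (0, 0), (0, 0), (0, 0)]),
  (([4, 12], [3, 5]), [(3, 117), (0, 0), (0, 0), (0, 0), (0, 0), (0, 0), (0, 0), (3, 351), (3,
  353), (0, 0), (0, 0), (0, 0), (0, 0), (0, 0), (0, 0)]),
  (([], [3, 5, 7]), [(3, 118), (0, 0), (0, 0), (0, 0), (2, 344), (0, 0), (0, 0), (0, 0), (3, 356),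
  (0, 0), (0, 0), (3, 358), (2, 368), (2, 368), (0, 0)]),
  (([], [3, 5, 7, 8]), [(3, 119), (0, 0), (0, 0), (0, 0), (2, 345), (0, 0), (0, 0), (0, 0), (0,
  0), (0, 0), (0, 0), (0, 0), (2, 357), (2, 357), (0, 0)]),
  (([12], [3, 5, 7, 8]), [(3, 122), (0, 0), (0, 0), (0, 0), (2, 350), (0, 0), (0, 0), (0, 0), (0,
  0), (0, 0), (0, 0), (0, 0), (0, 0), (0, 0), (0, 0)]),
  (([], [3, 5, 7, 11]), [(0, 0), (0, 0), (2, 359), (0, 0), (0, 0), (0, 0), (0, 0), (0, 0), (0, 0),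
  (0, 0), (2, 365), (0, 0), (2, 367), (2, 367), (0, 0)]),
  (([2], [3, 5, 7, 11]), [(0, 0), (0, 0), (0, 0), (0, 0), (0, 0), (0, 0), (3, 360), (0, 0), (0,
  0), (0, 0), (0, 0), (0, 0), (2, 364), (2, 364), (0, 0)]),
  (([2], [3, 5, 7, 11, 6]), [(0, 0), (2, 70), (0, 0), (0, 0), (0, 0), (0, 0), (0, 0), (0, 0), (2,
  361), (0, 0), (0, 0), (0, 0), (2, 363), (2, 363), (0, 0)]),
  (([2, 8], [3, 5, 7, 11, 6]), [(0, 0), (0, 0), (0, 0), (0, 0), (0, 0), (0, 0), (0, 0), (0, 0),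
  (0, 0), (0, 0), (0, 0), (0, 0), (2, 362), (2, 362), (0, 0)]),
  (([2, 8, 12], [3, 5, 7, 11, 6]), [(0, 0), (0, 0), (0, 0), (0, 0), (0, 0), (0, 0), (0, 0), (0,
  0), (0, 0), (0, 0), (0, 0), (0, 0), (0, 0), (0, 0), (0, 0)]),
  (([2, 12], [3, 5, 7, 11, 6]), [(0, 0), (2, 71), (0, 0), (0, 0), (0, 0), (0, 0), (0, 0), (0, 0),
  (2, 362), (0, 0), (0, 0), (0, 0), (0, 0), (0, 0), (0, 0)]),
  (([2, 12], [3, 5, 7, 11]), [(0, 0), (0, 0), (0, 0), (0, 0), (0, 0), (0, 0), (3, 363), (0, 0),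
  (0, 0), (0, 0), (0, 0), (0, 0), (0, 0), (0, 0), (0, 0)]),
  (([10], [3, 5, 7, 11]), [(0, 0), (0, 0), (0, 0), (0, 0), (0, 0), (0, 0), (0, 0), (0, 0), (0, 0),
  (0, 0), (0, 0), (0, 0), (2, 366), (2, 366), (0, 0)]),
  (([10, 12], [3, 5, 7, 11]), [(0, 0), (0, 0), (0, 0), (0, 0), (0, 0), (0, 0), (0, 0), (0, 0), (0,
  0), (0, 0), (0, 0), (0, 0), (0, 0), (0, 0), (0, 0)]),
  (([12], [3, 5, 7, 11]), [(0, 0), (0, 0), (2, 364), (0, 0), (0, 0), (0, 0), (0, 0), (0, 0), (0,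
  0), (0, 0), (2, 366), (0, 0), (0, 0), (0, 0), (0, 0)]),
  (([12], [3, 5, 7]), [(3, 125), (0, 0), (0, 0), (0, 0), (2, 351), (0, 0), (0, 0), (0, 0), (3,
  357), (0, 0), (0, 0), (3, 367), (0, 0), (0, 0), (0, 0)]),
  (([], [3, 5, 8]), [(3, 126), (3, 204), (0, 0), (0, 0), (2, 352), (0, 0), (0, 0), (3, 356), (0,
  0), (0, 0), (0, 0), (0, 0), (2, 370), (2, 370), (0, 0)]),
  (([12], [3, 5, 8]), [(3, 129), (3, 207), (0, 0), (0, 0), (2, 353), (0, 0), (0, 0), (3, 357), (0,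
  0), (0, 0), (0, 0), (0, 0), (0, 0), (0, 0), (0, 0)]),
  (([], [3, 5, 11]), [(0, 0), (3, 214), (2, 372), (0, 0), (0, 0), (0, 0), (0, 0), (3, 358), (0,
  0), (0, 0), (2, 376), (0, 0), (2, 378), (2, 378), (0, 0)]),
  (([2], [3, 5, 11]), [(0, 0), (3, 215), (0, 0), (0, 0), (0, 0), (0, 0), (3, 373), (3, 359), (0,
  0), (0, 0), (0, 0), (0, 0), (2, 375), (2, 375), (0, 0)]),
  (([2], [3, 5, 11, 6]), [(0, 0), (0, 0), (0, 0), (0, 0), (0, 0), (0, 0), (0, 0), (3, 360), (2,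
  361), (0, 0), (0, 0), (0, 0), (2, 374), (2, 374), (0, 0)]),
  (([2, 12], [3, 5, 11, 6]), [(0, 0), (0, 0), (0, 0), (0, 0), (0, 0), (0, 0), (0, 0), (3, 363),
  (2, 362), (0, 0), (0, 0), (0, 0), (0, 0), (0, 0), (0, 0)]),
  (([2, 12], [3, 5, 11]), [(0, 0), (3, 216), (0, 0), (0, 0), (0, 0), (0, 0), (3, 374), (3, 364),
  (0, 0), (0, 0), (0, 0), (0, 0), (0, 0), (0, 0), (0, 0)]),
  (([10], [3, 5, 11]), [(0, 0), (3, 217), (0, 0), (0, 0), (0, 0), (0, 0), (0, 0), (3, 365), (0,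
  0), (0, 0), (0, 0), (0, 0), (2, 377), (2, 377), (0, 0)]),
  (([10, 12], [3, 5, 11]), [(0, 0), (3, 218), (0, 0), (0, 0), (0, 0), (0, 0), (0, 0), (3, 366),
  (0, 0), (0, 0), (0, 0), (0, 0), (0, 0), (0, 0), (0, 0)]),
  (([12], [3, 5, 11]), [(0, 0), (3, 219), (2, 375), (0, 0), (0, 0), (0, 0), (0, 0), (3, 367), (0,
  0), (0, 0), (2, 377), (0, 0), (0, 0), (0, 0), (0, 0)]),
  (([12], [3, 5]), [(3, 132), (3, 220), (0, 0), (0, 0), (2, 354), (0, 0), (0, 0), (3, 368), (3,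
  370), (0, 0), (0, 0), (3, 378), (0, 0), (0, 0), (0, 0)]),
  (([], [3, 7]), [(3, 133), (0, 0), (0, 0), (0, 0), (0, 0), (3, 355), (0, 0), (0, 0), (3, 381),
  (0, 0), (3, 385), (3, 391), (2, 399), (2, 399), (0, 0)]),
  (([], [3, 7, 8]), [(3, 134), (0, 0), (0, 0), (0, 0), (0, 0), (3, 356), (0, 0), (0, 0), (0, 0),
  (0, 0), (3, 382), (0, 0), (2, 384), (2, 384), (0, 0)]),
  (([], [3, 7, 8, 10]), [(0, 0), (0, 0), (0, 0), (0, 0), (0, 0), (0, 0), (0, 0), (0, 0), (0, 0),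
  (0, 0), (0, 0), (0, 0), (2, 383), (2, 383), (0, 0)]),
  (([12], [3, 7, 8, 10]), [(0, 0), (0, 0), (0, 0), (0, 0), (0, 0), (0, 0), (0, 0), (0, 0), (0, 0),
  (0, 0), (0, 0), (0, 0), (0, 0), (0, 0), (0, 0)]),
  (([12], [3, 7, 8]), [(3, 135), (0, 0), (0, 0), (0, 0), (0, 0), (3, 357), (0, 0), (0, 0), (0, 0),
  (0, 0), (3, 383), (0, 0), (0, 0), (0, 0), (0, 0)]),
  (([], [3, 7, 10]), [(0, 0), (0, 0), (2, 386), (0, 0), (0, 0), (0, 0), (0, 0), (0, 0), (3, 382),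
  (0, 0), (0, 0), (0, 0), (2, 390), (2, 390), (0, 0)]),
  (([2], [3, 7, 10]), [(3, 85), (0, 0), (0, 0), (0, 0), (0, 0), (0, 0), (0, 0), (0, 0), (0, 0),
  (0, 0), (0, 0), (3, 387), (2, 389), (2, 389), (0, 0)]),
  (([2], [3, 7, 10, 11]), [(3, 88), (0, 0), (0, 0), (0, 0), (0, 0), (0, 0), (0, 0), (0, 0), (0,
  0), (0, 0), (0, 0), (0, 0), (2, 388), (2, 388), (0, 0)]),
  (([2, 12], [3, 7, 10, 11]), [(3, 89), (0, 0), (0, 0), (0, 0), (0, 0), (0, 0), (0, 0), (0, 0),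
  (0, 0), (0, 0), (0, 0), (0, 0), (0, 0), (0, 0), (0, 0)]),
  (([2, 12], [3, 7, 10]), [(3, 90), (0, 0), (0, 0), (0, 0), (0, 0), (0, 0), (0, 0), (0, 0), (0,
  0), (0, 0), (0, 0), (3, 388), (0, 0), (0, 0), (0, 0)]),
  (([12], [3, 7, 10]), [(0, 0), (0, 0), (2, 389), (0, 0), (0, 0), (0, 0), (0, 0), (0, 0), (3,
  383), (0, 0), (0, 0), (0, 0), (0, 0), (0, 0), (0, 0)]),
  (([], [3, 7, 11]), [(0, 0), (0, 0), (2, 392), (0, 0), (0, 0), (3, 358), (0, 0), (0, 0), (0, 0),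
  (0, 0), (0, 0), (0, 0), (2, 398), (2, 398), (0, 0)]),
  (([2], [3, 7, 11]), [(3, 91), (0, 0), (0, 0), (0, 0), (0, 0), (3, 359), (3, 393), (0, 0), (0,
  0), (0, 0), (3, 387), (0, 0), (2, 397), (2, 397), (0, 0)]),
  (([2], [3, 7, 11, 6]), [(3, 78), (2, 70), (0, 0), (0, 0), (0, 0), (3, 360), (0, 0), (0, 0), (2,
  394), (0, 0), (0, 0), (0, 0), (2, 396), (2, 396), (0, 0)]),
  (([2, 8], [3, 7, 11, 6]), [(3, 75), (0, 0), (0, 0), (0, 0), (0, 0), (3, 361), (0, 0), (0, 0),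
  (0, 0), (0, 0), (0, 0), (0, 0), (2, 395), (2, 395), (0, 0)]),
  (([2, 8, 12], [3, 7, 11, 6]), [(3, 76), (0, 0), (0, 0), (0, 0), (0, 0), (3, 362), (0, 0), (0,
  0), (0, 0), (0, 0), (0, 0), (0, 0), (0, 0), (0, 0), (0, 0)]),
  (([2, 12], [3, 7, 11, 6]), [(3, 79), (2, 71), (0, 0), (0, 0), (0, 0), (3, 363), (0, 0), (0, 0),
  (2, 395), (0, 0), (0, 0), (0, 0), (0, 0), (0, 0), (0, 0)]),
  (([2, 12], [3, 7, 11]), [(3, 92), (0, 0), (0, 0), (0, 0), (0, 0), (3, 364), (3, 396), (0, 0),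
  (0, 0), (0, 0), (3, 388), (0, 0), (0, 0), (0, 0), (0, 0)]),
  (([12], [3, 7, 11]), [(0, 0), (0, 0), (2, 397), (0, 0), (0, 0), (3, 367), (0, 0), (0, 0), (0,
  0), (0, 0), (0, 0), (0, 0), (0, 0), (0, 0), (0, 0)]),
  (([12], [3, 7]), [(3, 136), (0, 0), (0, 0), (0, 0), (0, 0), (3, 368), (0, 0), (0, 0), (3, 384),
  (0, 0), (3, 390), (3, 398), (0, 0), (0, 0), (0, 0)]),
  (([], [3, 8]), [(3, 137), (3, 221), (0, 0), (0, 0), (0, 0), (3, 369), (0, 0), (3, 381), (0, 0),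
  (0, 0), (3, 401), (0, 0), (2, 403), (2, 403), (0, 0)]),
  (([], [3, 8, 10]), [(0, 0), (0, 0), (0, 0), (0, 0), (0, 0), (0, 0), (0, 0), (3, 382), (0, 0),
  (0, 0), (0, 0), (0, 0), (2, 402), (2, 402), (0, 0)]),
  (([12], [3, 8, 10]), [(0, 0), (0, 0), (0, 0), (0, 0), (0, 0), (0, 0), (0, 0), (3, 383), (0, 0),
  (0, 0), (0, 0), (0, 0), (0, 0), (0, 0), (0, 0)]),
  (([12], [3, 8]), [(3, 138), (3, 222), (0, 0), (0, 0), (0, 0), (3, 370), (0, 0), (3, 384), (0,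
  0), (0, 0), (3, 402), (0, 0), (0, 0), (0, 0), (0, 0)]),
  (([], [3, 10]), [(0, 0), (0, 0), (2, 405), (0, 0), (0, 0), (0, 0), (0, 0), (3, 385), (3, 401),
  (0, 0), (0, 0), (0, 0), (2, 411), (2, 411), (0, 0)]),
  (([2], [3, 10]), [(3, 94), (3, 406), (0, 0), (0, 0), (0, 0), (0, 0), (0, 0), (3, 386), (0, 0),
  (0, 0), (0, 0), (3, 408), (2, 410), (2, 410), (0, 0)]),
  (([2], [3, 10, 1]), [(3, 7), (0, 0), (0, 0), (0, 0), (0, 0), (0, 0), (2, 8), (0, 0), (0, 0), (2,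
  5), (0, 0), (3, 225), (2, 407), (2, 407), (0, 0)]),
  (([2, 12], [3, 10, 1]), [(3, 14), (0, 0), (0, 0), (0, 0), (0, 0), (0, 0), (2, 9), (0, 0), (0,
  0), (2, 6), (0, 0), (3, 226), (0, 0), (0, 0), (0, 0)]),
  (([2], [3, 10, 11]), [(3, 95), (3, 225), (0, 0), (0, 0), (0, 0), (0, 0), (0, 0), (3, 387), (0,
  0), (0, 0), (0, 0), (0, 0), (2, 409), (2, 409), (0, 0)]),
  (([2, 12], [3, 10, 11]), [(3, 96), (3, 226), (0, 0), (0, 0), (0, 0), (0, 0), (0, 0), (3, 388),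
  (0, 0), (0, 0), (0, 0), (0, 0), (0, 0), (0, 0), (0, 0)]),
  (([2, 12], [3, 10]), [(3, 97), (3, 407), (0, 0), (0, 0), (0, 0), (0, 0), (0, 0), (3, 389), (0,
  0), (0, 0), (0, 0), (3, 409), (0, 0), (0, 0), (0, 0)]),
  (([12], [3, 10]), [(0, 0), (0, 0), (2, 410), (0, 0), (0, 0), (0, 0), (0, 0), (3, 390), (3, 402),
  (0, 0), (0, 0), (0, 0), (0, 0), (0, 0), (0, 0)]),
  (([], [3, 11]), [(0, 0), (3, 223), (2, 413), (0, 0), (0, 0), (3, 371), (0, 0), (3, 391), (0, 0),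
  (0, 0), (0, 0), (0, 0), (2, 417), (2, 417), (0, 0)]),
  (([2], [3, 11]), [(3, 98), (3, 224), (0, 0), (0, 0), (0, 0), (3, 372), (3, 414), (3, 392), (0,
  0), (0, 0), (3, 408), (0, 0), (2, 416), (2, 416), (0, 0)]),
  (([2], [3, 11, 6]), [(3, 81), (0, 0), (0, 0), (0, 0), (0, 0), (3, 373), (0, 0), (3, 393), (2,
  394), (0, 0), (0, 0), (0, 0), (2, 415), (2, 415), (0, 0)]),
  (([2, 12], [3, 11, 6]), [(3, 82), (0, 0), (0, 0), (0, 0), (0, 0), (3, 374), (0, 0), (3, 396),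
  (2, 395), (0, 0), (0, 0), (0, 0), (0, 0), (0, 0), (0, 0)]),
  (([2, 12], [3, 11]), [(3, 99), (3, 227), (0, 0), (0, 0), (0, 0), (3, 375), (3, 415), (3, 397),
  (0, 0), (0, 0), (3, 409), (0, 0), (0, 0), (0, 0), (0, 0)]),
  (([12], [3, 11]), [(0, 0), (3, 234), (2, 416), (0, 0), (0, 0), (3, 378), (0, 0), (3, 398), (0,
  0), (0, 0), (0, 0), (0, 0), (0, 0), (0, 0), (0, 0)]),
  (([12], [3]), [(3, 139), (3, 235), (0, 0), (0, 0), (0, 0), (3, 379), (0, 0), (3, 399), (3, 403),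
  (0, 0), (3, 411), (3, 417), (0, 0), (0, 0), (0, 0)]),
  (([], [4]), [(3, 140), (0, 0), (3, 290), (0, 0), (0, 0), (0, 0), (3, 420), (3, 438), (3, 456),
  (3, 468), (3, 474), (0, 0), (2, 476), (2, 476), (0, 0)]),
  (([], [4, 6]), [(3, 141), (0, 0), (0, 0), (2, 150), (0, 0), (0, 0), (0, 0), (3, 421), (3, 431),
  (0, 0), (3, 435), (0, 0), (2, 437), (2, 437), (0, 0)]),
  (([], [4, 6, 7]), [(3, 156), (0, 0), (0, 0), (2, 150), (0, 0), (0, 0), (0, 0), (0, 0), (3, 422),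
  (0, 0), (3, 426), (0, 0), (2, 430), (2, 430), (0, 0)]),
  (([], [4, 6, 7, 8]), [(3, 157), (0, 0), (0, 0), (2, 151), (0, 0), (0, 0), (0, 0), (0, 0), (0,
  0), (0, 0), (3, 423), (0, 0), (2, 425), (2, 425), (0, 0)]),
  (([], [4, 6, 7, 8, 10]), [(0, 0), (0, 0), (0, 0), (2, 151), (0, 0), (0, 0), (0, 0), (0, 0), (0,
  0), (0, 0), (0, 0), (0, 0), (2, 424), (2, 424), (0, 0)]),
  (([12], [4, 6, 7, 8, 10]), [(0, 0), (0, 0), (0, 0), (2, 154), (0, 0), (0, 0), (0, 0), (0, 0),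
  (0, 0), (0, 0), (0, 0), (0, 0), (0, 0), (0, 0), (0, 0)]),
  (([12], [4, 6, 7, 8]), [(3, 158), (0, 0), (0, 0), (2, 154), (0, 0), (0, 0), (0, 0), (0, 0), (0,
  0), (0, 0), (3, 424), (0, 0), (0, 0), (0, 0), (0, 0)]),
  (([], [4, 6, 7, 10]), [(0, 0), (0, 0), (0, 0), (2, 150), (0, 0), (0, 0), (0, 0), (0, 0), (3,
  423), (0, 0), (0, 0), (2, 427), (2, 429), (2, 429), (0, 0)]),
  (([11], [4, 6, 7, 10]), [(0, 0), (0, 0), (3, 304), (2, 152), (0, 0), (0, 0), (0, 0), (0, 0), (0,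
  0), (2, 305), (0, 0), (0, 0), (2, 428), (2, 428), (0, 0)]),
  (([11, 12], [4, 6, 7, 10]), [(0, 0), (0, 0), (3, 307), (2, 153), (0, 0), (0, 0), (0, 0), (0, 0),
  (0, 0), (2, 306), (0, 0), (0, 0), (0, 0), (0, 0), (0, 0)]),
  (([12], [4, 6, 7, 10]), [(0, 0), (0, 0), (0, 0), (2, 155), (0, 0), (0, 0), (0, 0), (0, 0), (3,
  424), (0, 0), (0, 0), (2, 428), (0, 0), (0, 0), (0, 0)]),
  (([12], [4, 6, 7]), [(3, 159), (0, 0), (0, 0), (2, 155), (0, 0), (0, 0), (0, 0), (0, 0), (3,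
  425), (0, 0), (3, 429), (0, 0), (0, 0), (0, 0), (0, 0)]),
  (([], [4, 6, 8]), [(3, 160), (0, 0), (0, 0), (2, 151), (0, 0), (0, 0), (0, 0), (3, 422), (0, 0),
  (0, 0), (3, 432), (0, 0), (2, 434), (2, 434), (0, 0)]),
  (([], [4, 6, 8, 10]), [(0, 0), (0, 0), (0, 0), (2, 151), (0, 0), (0, 0), (0, 0), (3, 423), (0,
  0), (0, 0), (0, 0), (0, 0), (2, 433), (2, 433), (0, 0)]),
  (([12], [4, 6, 8, 10]), [(0, 0), (0, 0), (0, 0), (2, 154), (0, 0), (0, 0), (0, 0), (3, 424), (0,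
  0), (0, 0), (0, 0), (0, 0), (0, 0), (0, 0), (0, 0)]),
  (([12], [4, 6, 8]), [(3, 161), (0, 0), (0, 0), (2, 154), (0, 0), (0, 0), (0, 0), (3, 425), (0,
  0), (0, 0), (3, 433), (0, 0), (0, 0), (0, 0), (0, 0)]),
  (([], [4, 6, 10]), [(0, 0), (0, 0), (0, 0), (2, 150), (0, 0), (0, 0), (0, 0), (3, 426), (3,
  432), (0, 0), (0, 0), (2, 427), (2, 436), (2, 436), (0, 0)]),
  (([12], [4, 6, 10]), [(0, 0), (0, 0), (0, 0), (2, 155), (0, 0), (0, 0), (0, 0), (3, 429), (3,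
  433), (0, 0), (0, 0), (2, 428), (0, 0), (0, 0), (0, 0)]),
  (([12], [4, 6]), [(3, 162), (0, 0), (0, 0), (2, 155), (0, 0), (0, 0), (0, 0), (3, 430), (3,
  434), (0, 0), (3, 436), (0, 0), (0, 0), (0, 0), (0, 0)]),
  (([], [4, 7]), [(3, 163), (0, 0), (3, 293), (0, 0), (0, 0), (0, 0), (3, 421), (0, 0), (3, 439),
  (3, 447), (3, 451), (0, 0), (2, 455), (2, 455), (0, 0)]),
  (([], [4, 7, 8]), [(3, 164), (0, 0), (0, 0), (0, 0), (0, 0), (0, 0), (3, 422), (0, 0), (0, 0),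
  (3, 440), (3, 444), (0, 0), (2, 446), (2, 446), (0, 0)]),
  (([], [4, 7, 8, 9]), [(0, 0), (0, 0), (0, 0), (0, 0), (0, 0), (0, 0), (0, 0), (0, 0), (0, 0),
  (0, 0), (3, 441), (0, 0), (2, 443), (2, 443), (0, 0)]),
  (([], [4, 7, 8, 9, 10]), [(0, 0), (0, 0), (0, 0), (0, 0), (0, 0), (0, 0), (0, 0), (0, 0), (0,
  0), (0, 0), (0, 0), (0, 0), (2, 442), (2, 442), (0, 0)]),
  (([12], [4, 7, 8, 9, 10]), [(0, 0), (0, 0), (0, 0), (0, 0), (0, 0), (0, 0), (0, 0), (0, 0), (0,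
  0), (0, 0), (0, 0), (0, 0), (0, 0), (0, 0), (0, 0)]),
  (([12], [4, 7, 8, 9]), [(0, 0), (0, 0), (0, 0), (0, 0), (0, 0), (0, 0), (0, 0), (0, 0), (0, 0),
  (0, 0), (3, 442), (0, 0), (0, 0), (0, 0), (0, 0)]),
  (([], [4, 7, 8, 10]), [(0, 0), (0, 0), (0, 0), (0, 0), (0, 0), (0, 0), (3, 423), (0, 0), (0, 0),
  (3, 441), (0, 0), (0, 0), (2, 445), (2, 445), (0, 0)]),
  (([12], [4, 7, 8, 10]), [(0, 0), (0, 0), (0, 0), (0, 0), (0, 0), (0, 0), (3, 424), (0, 0), (0,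
  0), (3, 442), (0, 0), (0, 0), (0, 0), (0, 0), (0, 0)]),
  (([12], [4, 7, 8]), [(3, 165), (0, 0), (0, 0), (0, 0), (0, 0), (0, 0), (3, 425), (0, 0), (0, 0),
  (3, 443), (3, 445), (0, 0), (0, 0), (0, 0), (0, 0)]),
  (([], [4, 7, 9]), [(0, 0), (0, 0), (3, 294), (0, 0), (0, 0), (0, 0), (0, 0), (0, 0), (3, 440),
  (0, 0), (3, 448), (0, 0), (2, 450), (2, 450), (0, 0)]),
  (([], [4, 7, 9, 10]), [(0, 0), (0, 0), (0, 0), (0, 0), (0, 0), (0, 0), (0, 0), (0, 0), (3, 441),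
  (0, 0), (0, 0), (0, 0), (2, 449), (2, 449), (0, 0)]),
  (([12], [4, 7, 9, 10]), [(0, 0), (0, 0), (0, 0), (0, 0), (0, 0), (0, 0), (0, 0), (0, 0), (3,
  442), (0, 0), (0, 0), (0, 0), (0, 0), (0, 0), (0, 0)]),
  (([12], [4, 7, 9]), [(0, 0), (0, 0), (3, 301), (0, 0), (0, 0), (0, 0), (0, 0), (0, 0), (3, 443),
  (0, 0), (3, 449), (0, 0), (0, 0), (0, 0), (0, 0)]),
  (([], [4, 7, 10]), [(0, 0), (0, 0), (0, 0), (0, 0), (0, 0), (0, 0), (3, 426), (0, 0), (3, 444),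
  (3, 448), (0, 0), (2, 452), (2, 454), (2, 454), (0, 0)]),
  (([11], [4, 7, 10]), [(0, 0), (0, 0), (3, 309), (0, 0), (0, 0), (0, 0), (3, 427), (0, 0), (0,
  0), (0, 0), (0, 0), (0, 0), (2, 453), (2, 453), (0, 0)]),
  (([11, 12], [4, 7, 10]), [(0, 0), (0, 0), (3, 310), (0, 0), (0, 0), (0, 0), (3, 428), (0, 0),
  (0, 0), (0, 0), (0, 0), (0, 0), (0, 0), (0, 0), (0, 0)]),
  (([12], [4, 7, 10]), [(0, 0), (0, 0), (0, 0), (0, 0), (0, 0), (0, 0), (3, 429), (0, 0), (3,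
  445), (3, 449), (0, 0), (2, 453), (0, 0), (0, 0), (0, 0)]),
  (([12], [4, 7]), [(3, 166), (0, 0), (3, 312), (0, 0), (0, 0), (0, 0), (3, 430), (0, 0), (3,
  446), (3, 450), (3, 454), (0, 0), (0, 0), (0, 0), (0, 0)]),
  (([], [4, 8]), [(3, 167), (0, 0), (0, 0), (0, 0), (0, 0), (0, 0), (3, 431), (3, 439), (0, 0),
  (3, 457), (3, 465), (0, 0), (2, 467), (2, 467), (0, 0)]),
  (([], [4, 8, 9]), [(0, 0), (2, 458), (0, 0), (0, 0), (0, 0), (0, 0), (0, 0), (3, 440), (0, 0),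
  (0, 0), (3, 462), (0, 0), (2, 464), (2, 464), (0, 0)]),
  (([1], [4, 8, 9]), [(0, 0), (0, 0), (2, 459), (0, 0), (0, 0), (0, 0), (0, 0), (0, 0), (0, 0),
  (0, 0), (0, 0), (0, 0), (2, 461), (2, 461), (0, 0)]),
  (([1, 2], [4, 8, 9]), [(0, 0), (0, 0), (0, 0), (0, 0), (0, 0), (0, 0), (0, 0), (0, 0), (0, 0),
  (0, 0), (0, 0), (0, 0), (2, 460), (2, 460), (0, 0)]),
  (([1, 2, 12], [4, 8, 9]), [(0, 0), (0, 0), (0, 0), (0, 0), (0, 0), (0, 0), (0, 0), (0, 0), (0,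
  0), (0, 0), (0, 0), (0, 0), (0, 0), (0, 0), (0, 0)]),
  (([1, 12], [4, 8, 9]), [(0, 0), (0, 0), (2, 460), (0, 0), (0, 0), (0, 0), (0, 0), (0, 0), (0,
  0), (0, 0), (0, 0), (0, 0), (0, 0), (0, 0), (0, 0)]),
  (([], [4, 8, 9, 10]), [(0, 0), (0, 0), (0, 0), (0, 0), (0, 0), (0, 0), (0, 0), (3, 441), (0, 0),
  (0, 0), (0, 0), (0, 0), (2, 463), (2, 463), (0, 0)]),
  (([12], [4, 8, 9, 10]), [(0, 0), (0, 0), (0, 0), (0, 0), (0, 0), (0, 0), (0, 0), (3, 442), (0,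
  0), (0, 0), (0, 0), (0, 0), (0, 0), (0, 0), (0, 0)]),
  (([12], [4, 8, 9]), [(0, 0), (2, 461), (0, 0), (0, 0), (0, 0), (0, 0), (0, 0), (3, 443), (0, 0),
  (0, 0), (3, 463), (0, 0), (0, 0), (0, 0), (0, 0)]),
  (([], [4, 8, 10]), [(0, 0), (0, 0), (0, 0), (0, 0), (0, 0), (0, 0), (3, 432), (3, 444), (0, 0),
  (3, 462), (0, 0), (0, 0), (2, 466), (2, 466), (0, 0)]),
  (([12], [4, 8, 10]), [(0, 0), (0, 0), (0, 0), (0, 0), (0, 0), (0, 0), (3, 433), (3, 445), (0,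
  0), (3, 463), (0, 0), (0, 0), (0, 0), (0, 0), (0, 0)]),
  (([12], [4, 8]), [(3, 168), (0, 0), (0, 0), (0, 0), (0, 0), (0, 0), (3, 434), (3, 446), (0, 0),
  (3, 464), (3, 466), (0, 0), (0, 0), (0, 0), (0, 0)]),
  (([], [4, 9]), [(0, 0), (2, 469), (3, 313), (0, 0), (0, 0), (0, 0), (0, 0), (3, 447), (3, 457),
  (0, 0), (3, 471), (0, 0), (2, 473), (2, 473), (0, 0)]),
  (([1], [4, 9]), [(0, 0), (0, 0), (0, 0), (0, 0), (0, 0), (0, 0), (0, 0), (0, 0), (3, 458), (0,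
  0), (0, 0), (0, 0), (2, 470), (2, 470), (0, 0)]),
  (([1, 12], [4, 9]), [(0, 0), (0, 0), (0, 0), (0, 0), (0, 0), (0, 0), (0, 0), (0, 0), (3, 461),
  (0, 0), (0, 0), (0, 0), (0, 0), (0, 0), (0, 0)]),
  (([], [4, 9, 10]), [(0, 0), (0, 0), (0, 0), (0, 0), (0, 0), (0, 0), (0, 0), (3, 448), (3, 462),
  (0, 0), (0, 0), (0, 0), (2, 472), (2, 472), (0, 0)]),
  (([12], [4, 9, 10]), [(0, 0), (0, 0), (0, 0), (0, 0), (0, 0), (0, 0), (0, 0), (3, 449), (3,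
  463), (0, 0), (0, 0), (0, 0), (0, 0), (0, 0), (0, 0)]),
  (([12], [4, 9]), [(0, 0), (2, 470), (3, 314), (0, 0), (0, 0), (0, 0), (0, 0), (3, 450), (3,
  464), (0, 0), (3, 472), (0, 0), (0, 0), (0, 0), (0, 0)]),
  (([], [4, 10]), [(0, 0), (0, 0), (0, 0), (0, 0), (0, 0), (0, 0), (3, 435), (3, 451), (3, 465),
  (3, 471), (0, 0), (2, 452), (2, 475), (2, 475), (0, 0)]),
  (([12], [4, 10]), [(0, 0), (0, 0), (0, 0), (0, 0), (0, 0), (0, 0), (3, 436), (3, 454), (3, 466),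
  (3, 472), (0, 0), (2, 453), (0, 0), (0, 0), (0, 0)]),
  (([12], [4]), [(3, 169), (0, 0), (3, 315), (0, 0), (0, 0), (0, 0), (3, 437), (3, 455), (3, 467),
  (3, 473), (3, 475), (0, 0), (0, 0), (0, 0), (0, 0)]),
  (([], [5]), [(3, 170), (3, 236), (0, 0), (3, 342), (0, 0), (0, 0), (0, 0), (3, 478), (3, 520),
  (3, 524), (0, 0), (3, 526), (2, 544), (2, 544), (0, 0)]),
  (([], [5, 7]), [(3, 171), (0, 0), (0, 0), (3, 355), (0, 0), (0, 0), (0, 0), (0, 0), (3, 479),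
  (3, 487), (0, 0), (3, 491), (2, 519), (2, 519), (0, 0)]),
  (([], [5, 7, 8]), [(3, 172), (0, 0), (0, 0), (3, 356), (0, 0), (0, 0), (0, 0), (0, 0), (0, 0),
  (3, 480), (0, 0), (0, 0), (2, 486), (2, 486), (0, 0)]),
  (([], [5, 7, 8, 9]), [(0, 0), (0, 0), (0, 0), (0, 0), (0, 0), (0, 0), (2, 481), (0, 0), (0, 0),
  (0, 0), (0, 0), (0, 0), (2, 485), (2, 485), (0, 0)]),
  (([6], [5, 7, 8, 9]), [(0, 0), (0, 0), (2, 482), (0, 0), (0, 0), (0, 0), (0, 0), (0, 0), (0, 0),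
  (0, 0), (0, 0), (0, 0), (2, 484), (2, 484), (0, 0)]),
  (([6, 2], [5, 7, 8, 9]), [(0, 0), (0, 0), (0, 0), (0, 0), (0, 0), (0, 0), (0, 0), (0, 0), (0,
  0), (0, 0), (0, 0), (0, 0), (2, 483), (2, 483), (0, 0)]),
  (([6, 2, 12], [5, 7, 8, 9]), [(0, 0), (0, 0), (0, 0), (0, 0), (0, 0), (0, 0), (0, 0), (0, 0),
  (0, 0), (0, 0), (0, 0), (0, 0), (0, 0), (0, 0), (0, 0)]),
  (([6, 12], [5, 7, 8, 9]), [(0, 0), (0, 0), (2, 483), (0, 0), (0, 0), (0, 0), (0, 0), (0, 0), (0,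
  0), (0, 0), (0, 0), (0, 0), (0, 0), (0, 0), (0, 0)]),
  (([12], [5, 7, 8, 9]), [(0, 0), (0, 0), (0, 0), (0, 0), (0, 0), (0, 0), (2, 484), (0, 0), (0,
  0), (0, 0), (0, 0), (0, 0), (0, 0), (0, 0), (0, 0)]),
  (([12], [5, 7, 8]), [(3, 173), (0, 0), (0, 0), (3, 357), (0, 0), (0, 0), (0, 0), (0, 0), (0, 0),
  (3, 485), (0, 0), (0, 0), (0, 0), (0, 0), (0, 0)]),
  (([], [5, 7, 9]), [(0, 0), (0, 0), (0, 0), (0, 0), (0, 0), (0, 0), (2, 488), (0, 0), (3, 480),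
  (0, 0), (0, 0), (0, 0), (2, 490), (2, 490), (0, 0)]),
  (([6], [5, 7, 9]), [(0, 0), (0, 0), (0, 0), (0, 0), (0, 0), (0, 0), (0, 0), (0, 0), (3, 481),
  (0, 0), (0, 0), (0, 0), (2, 489), (2, 489), (0, 0)]),
  (([6, 12], [5, 7, 9]), [(0, 0), (0, 0), (0, 0), (0, 0), (0, 0), (0, 0), (0, 0), (0, 0), (3,
  484), (0, 0), (0, 0), (0, 0), (0, 0), (0, 0), (0, 0)]),
  (([12], [5, 7, 9]), [(0, 0), (0, 0), (0, 0), (0, 0), (0, 0), (0, 0), (2, 489), (0, 0), (3, 485),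
  (0, 0), (0, 0), (0, 0), (0, 0), (0, 0), (0, 0)]),
  (([], [5, 7, 11]), [(0, 0), (0, 0), (2, 492), (3, 358), (0, 0), (0, 0), (0, 0), (0, 0), (0, 0),
  (0, 0), (2, 365), (0, 0), (2, 518), (2, 518), (0, 0)]),
  (([2], [5, 7, 11]), [(0, 0), (3, 493), (0, 0), (3, 359), (3, 505), (0, 0), (3, 513), (0, 0), (0,
  0), (3, 515), (0, 0), (0, 0), (2, 517), (2, 517), (0, 0)]),
  (([2], [5, 7, 11, 1]), [(0, 0), (0, 0), (0, 0), (0, 0), (3, 494), (0, 0), (0, 0), (0, 0), (2,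
  495), (3, 500), (0, 0), (0, 0), (2, 504), (2, 504), (0, 0)]),
  (([2], [5, 7, 11, 1, 4]), [(0, 0), (0, 0), (0, 0), (0, 0), (0, 0), (0, 0), (0, 0), (0, 0), (2,
  495), (3, 497), (0, 0), (0, 0), (2, 499), (2, 499), (0, 0)]),
  (([2, 8], [5, 7, 11, 1, 4]), [(0, 0), (0, 0), (0, 0), (0, 0), (0, 0), (0, 0), (3, 280), (0, 0),
  (0, 0), (0, 0), (3, 240), (0, 0), (2, 496), (2, 496), (0, 0)]),
  (([2, 8, 12], [5, 7, 11, 1, 4]), [(0, 0), (0, 0), (0, 0), (0, 0), (0, 0), (0, 0), (3, 281), (0,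
  0), (0, 0), (0, 0), (3, 241), (0, 0), (0, 0), (0, 0), (0, 0)]),
  (([2], [5, 7, 11, 1, 4, 9]), [(0, 0), (0, 0), (0, 0), (0, 0), (0, 0), (0, 0), (0, 0), (0, 0),
  (2, 495), (0, 0), (0, 0), (0, 0), (2, 498), (2, 498), (0, 0)]),
  (([2, 12], [5, 7, 11, 1, 4, 9]), [(0, 0), (0, 0), (0, 0), (0, 0), (0, 0), (0, 0), (0, 0), (0,
  0), (2, 496), (0, 0), (0, 0), (0, 0), (0, 0), (0, 0), (0, 0)]),
  (([2, 12], [5, 7, 11, 1, 4]), [(0, 0), (0, 0), (0, 0), (0, 0), (0, 0), (0, 0), (0, 0), (0, 0),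
  (2, 496), (3, 498), (0, 0), (0, 0), (0, 0), (0, 0), (0, 0)]),
  (([2], [5, 7, 11, 1, 9]), [(0, 0), (0, 0), (0, 0), (2, 501), (3, 497), (0, 0), (0, 0), (0, 0),
  (2, 495), (0, 0), (0, 0), (0, 0), (2, 503), (2, 503), (0, 0)]),
  (([2, 3], [5, 7, 11, 1, 9]), [(0, 0), (0, 0), (0, 0), (0, 0), (0, 0), (0, 0), (0, 0), (0, 0),
  (0, 0), (0, 0), (0, 0), (0, 0), (2, 502), (2, 502), (0, 0)]),
  (([2, 3, 12], [5, 7, 11, 1, 9]), [(0, 0), (0, 0), (0, 0), (0, 0), (0, 0), (0, 0), (0, 0), (0,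
  0), (0, 0), (0, 0), (0, 0), (0, 0), (0, 0), (0, 0), (0, 0)]),
  (([2, 12], [5, 7, 11, 1, 9]), [(0, 0), (0, 0), (0, 0), (2, 502), (3, 498), (0, 0), (0, 0), (0,
  0), (2, 496), (0, 0), (0, 0), (0, 0), (0, 0), (0, 0), (0, 0)]),
  (([2, 12], [5, 7, 11, 1]), [(0, 0), (0, 0), (0, 0), (0, 0), (3, 499), (0, 0), (0, 0), (0, 0),
  (2, 496), (3, 503), (0, 0), (0, 0), (0, 0), (0, 0), (0, 0)]),
  (([2], [5, 7, 11, 4]), [(0, 0), (3, 494), (0, 0), (0, 0), (0, 0), (0, 0), (3, 506), (0, 0), (0,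
  0), (3, 510), (0, 0), (0, 0), (2, 512), (2, 512), (0, 0)]),
  (([2], [5, 7, 11, 4, 6]), [(0, 0), (0, 0), (0, 0), (0, 0), (0, 0), (0, 0), (0, 0), (0, 0), (2,
  507), (0, 0), (0, 0), (0, 0), (2, 509), (2, 509), (0, 0)]),
  (([2, 8], [5, 7, 11, 4, 6]), [(0, 0), (3, 280), (0, 0), (3, 361), (0, 0), (0, 0), (0, 0), (0,
  0), (0, 0), (0, 0), (0, 0), (0, 0), (2, 508), (2, 508), (0, 0)]),
  (([2, 8, 12], [5, 7, 11, 4, 6]), [(0, 0), (3, 281), (0, 0), (3, 362), (0, 0), (0, 0), (0, 0),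
  (0, 0), (0, 0), (0, 0), (0, 0), (0, 0), (0, 0), (0, 0), (0, 0)]),
  (([2, 12], [5, 7, 11, 4, 6]), [(0, 0), (0, 0), (0, 0), (0, 0), (0, 0), (0, 0), (0, 0), (0, 0),
  (2, 508), (0, 0), (0, 0), (0, 0), (0, 0), (0, 0), (0, 0)]),
  (([2], [5, 7, 11, 4, 9]), [(0, 0), (3, 497), (0, 0), (0, 0), (0, 0), (0, 0), (0, 0), (0, 0), (0,
  0), (0, 0), (0, 0), (0, 0), (2, 511), (2, 511), (0, 0)]),
  (([2, 12], [5, 7, 11, 4, 9]), [(0, 0), (3, 498), (0, 0), (0, 0), (0, 0), (0, 0), (0, 0), (0, 0),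
  (0, 0), (0, 0), (0, 0), (0, 0), (0, 0), (0, 0), (0, 0)]),
  (([2, 12], [5, 7, 11, 4]), [(0, 0), (3, 499), (0, 0), (0, 0), (0, 0), (0, 0), (3, 509), (0, 0),
  (0, 0), (3, 511), (0, 0), (0, 0), (0, 0), (0, 0), (0, 0)]),
  (([2], [5, 7, 11, 6]), [(0, 0), (0, 0), (0, 0), (3, 360), (3, 506), (0, 0), (0, 0), (0, 0), (2,
  507), (0, 0), (0, 0), (0, 0), (2, 514), (2, 514), (0, 0)]),
  (([2, 12], [5, 7, 11, 6]), [(0, 0), (0, 0), (0, 0), (3, 363), (3, 509), (0, 0), (0, 0), (0, 0),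
  (2, 508), (0, 0), (0, 0), (0, 0), (0, 0), (0, 0), (0, 0)]),
  (([2], [5, 7, 11, 9]), [(0, 0), (3, 500), (0, 0), (0, 0), (3, 510), (0, 0), (0, 0), (0, 0), (0,
  0), (0, 0), (0, 0), (0, 0), (2, 516), (2, 516), (0, 0)]),
  (([2, 12], [5, 7, 11, 9]), [(0, 0), (3, 503), (0, 0), (0, 0), (3, 511), (0, 0), (0, 0), (0, 0),
  (0, 0), (0, 0), (0, 0), (0, 0), (0, 0), (0, 0), (0, 0)]),
  (([2, 12], [5, 7, 11]), [(0, 0), (3, 504), (0, 0), (3, 364), (3, 512), (0, 0), (3, 514), (0, 0),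
  (0, 0), (3, 516), (0, 0), (0, 0), (0, 0), (0, 0), (0, 0)]),
  (([12], [5, 7, 11]), [(0, 0), (0, 0), (2, 517), (3, 367), (0, 0), (0, 0), (0, 0), (0, 0), (0,
  0), (0, 0), (2, 366), (0, 0), (0, 0), (0, 0), (0, 0)]),
  (([12], [5, 7]), [(3, 174), (0, 0), (0, 0), (3, 368), (0, 0), (0, 0), (0, 0), (0, 0), (3, 486),
  (3, 490), (0, 0), (3, 518), (0, 0), (0, 0), (0, 0)]),
  (([], [5, 8]), [(3, 175), (3, 247), (0, 0), (3, 369), (0, 0), (0, 0), (0, 0), (3, 479), (0, 0),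
  (3, 521), (0, 0), (0, 0), (2, 523), (2, 523), (0, 0)]),
  (([], [5, 8, 9]), [(0, 0), (0, 0), (0, 0), (0, 0), (0, 0), (0, 0), (2, 481), (3, 480), (0, 0),
  (0, 0), (0, 0), (0, 0), (2, 522), (2, 522), (0, 0)]),
  (([12], [5, 8, 9]), [(0, 0), (0, 0), (0, 0), (0, 0), (0, 0), (0, 0), (2, 484), (3, 485), (0, 0),
  (0, 0), (0, 0), (0, 0), (0, 0), (0, 0), (0, 0)]),
  (([12], [5, 8]), [(3, 176), (3, 248), (0, 0), (3, 370), (0, 0), (0, 0), (0, 0), (3, 486), (0,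
  0), (3, 522), (0, 0), (0, 0), (0, 0), (0, 0), (0, 0)]),
  (([], [5, 9]), [(0, 0), (0, 0), (0, 0), (0, 0), (0, 0), (0, 0), (2, 488), (3, 487), (3, 521),
  (0, 0), (0, 0), (0, 0), (2, 525), (2, 525), (0, 0)]),
  (([12], [5, 9]), [(0, 0), (0, 0), (0, 0), (0, 0), (0, 0), (0, 0), (2, 489), (3, 490), (3, 522),
  (0, 0), (0, 0), (0, 0), (0, 0), (0, 0), (0, 0)]),
  (([], [5, 11]), [(0, 0), (3, 249), (2, 527), (3, 371), (0, 0), (0, 0), (0, 0), (3, 491), (0, 0),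
  (0, 0), (2, 376), (0, 0), (2, 543), (2, 543), (0, 0)]),
  (([2], [5, 11]), [(0, 0), (0, 0), (0, 0), (3, 372), (3, 528), (0, 0), (3, 536), (3, 492), (0,
  0), (3, 538), (0, 0), (0, 0), (2, 542), (2, 542), (0, 0)]),
  (([2], [5, 11, 4]), [(0, 0), (3, 529), (0, 0), (0, 0), (0, 0), (0, 0), (3, 531), (3, 505), (0,
  0), (3, 533), (0, 0), (0, 0), (2, 535), (2, 535), (0, 0)]),
  (([2], [5, 11, 4, 1]), [(0, 0), (0, 0), (0, 0), (0, 0), (0, 0), (0, 0), (0, 0), (3, 494), (2,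
  495), (0, 0), (0, 0), (0, 0), (2, 530), (2, 530), (0, 0)]),
  (([2, 12], [5, 11, 4, 1]), [(0, 0), (0, 0), (0, 0), (0, 0), (0, 0), (0, 0), (0, 0), (3, 499),
  (2, 496), (0, 0), (0, 0), (0, 0), (0, 0), (0, 0), (0, 0)]),
  (([2], [5, 11, 4, 6]), [(0, 0), (0, 0), (0, 0), (0, 0), (0, 0), (0, 0), (0, 0), (3, 506), (2,
  507), (0, 0), (0, 0), (0, 0), (2, 532), (2, 532), (0, 0)]),
  (([2, 12], [5, 11, 4, 6]), [(0, 0), (0, 0), (0, 0), (0, 0), (0, 0), (0, 0), (0, 0), (3, 509),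
  (2, 508), (0, 0), (0, 0), (0, 0), (0, 0), (0, 0), (0, 0)]),
  (([2], [5, 11, 4, 9]), [(0, 0), (0, 0), (0, 0), (0, 0), (0, 0), (0, 0), (0, 0), (3, 510), (0,
  0), (0, 0), (0, 0), (0, 0), (2, 534), (2, 534), (0, 0)]),
  (([2, 12], [5, 11, 4, 9]), [(0, 0), (0, 0), (0, 0), (0, 0), (0, 0), (0, 0), (0, 0), (3, 511),
  (0, 0), (0, 0), (0, 0), (0, 0), (0, 0), (0, 0), (0, 0)]),
  (([2, 12], [5, 11, 4]), [(0, 0), (3, 530), (0, 0), (0, 0), (0, 0), (0, 0), (3, 532), (3, 512),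
  (0, 0), (3, 534), (0, 0), (0, 0), (0, 0), (0, 0), (0, 0)]),
  (([2], [5, 11, 6]), [(0, 0), (3, 279), (0, 0), (3, 373), (3, 531), (0, 0), (0, 0), (3, 513), (2,
  507), (0, 0), (0, 0), (0, 0), (2, 537), (2, 537), (0, 0)]),
  (([2, 12], [5, 11, 6]), [(0, 0), (3, 282), (0, 0), (3, 374), (3, 532), (0, 0), (0, 0), (3, 514),
  (2, 508), (0, 0), (0, 0), (0, 0), (0, 0), (0, 0), (0, 0)]),
  (([2], [5, 11, 9]), [(0, 0), (3, 539), (0, 0), (0, 0), (3, 533), (0, 0), (0, 0), (3, 515), (0,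
  0), (0, 0), (0, 0), (0, 0), (2, 541), (2, 541), (0, 0)]),
  (([2], [5, 11, 9, 1]), [(0, 0), (0, 0), (0, 0), (2, 501), (0, 0), (0, 0), (0, 0), (3, 500), (2,
  495), (0, 0), (0, 0), (0, 0), (2, 540), (2, 540), (0, 0)]),
  (([2, 12], [5, 11, 9, 1]), [(0, 0), (0, 0), (0, 0), (2, 502), (0, 0), (0, 0), (0, 0), (3, 503),
  (2, 496), (0, 0), (0, 0), (0, 0), (0, 0), (0, 0), (0, 0)]),
  (([2, 12], [5, 11, 9]), [(0, 0), (3, 540), (0, 0), (0, 0), (3, 534), (0, 0), (0, 0), (3, 516),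
  (0, 0), (0, 0), (0, 0), (0, 0), (0, 0), (0, 0), (0, 0)]),
  (([2, 12], [5, 11]), [(0, 0), (0, 0), (0, 0), (3, 375), (3, 535), (0, 0), (3, 537), (3, 517),
  (0, 0), (3, 541), (0, 0), (0, 0), (0, 0), (0, 0), (0, 0)]),
  (([12], [5, 11]), [(0, 0), (3, 252), (2, 542), (3, 378), (0, 0), (0, 0), (0, 0), (3, 518), (0,
  0), (0, 0), (2, 377), (0, 0), (0, 0), (0, 0), (0, 0)]),
  (([12], [5]), [(3, 177), (3, 253), (0, 0), (3, 379), (0, 0), (0, 0), (0, 0), (3, 519), (3, 523),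
  (3, 525), (0, 0), (3, 543), (0, 0), (0, 0), (0, 0)]),
  (([], [6]), [(3, 178), (3, 254), (0, 0), (0, 0), (3, 420), (0, 0), (0, 0), (3, 546), (3, 570),
  (0, 0), (3, 574), (0, 0), (2, 576), (2, 576), (0, 0)]),
  (([], [6, 7]), [(3, 187), (0, 0), (0, 0), (0, 0), (3, 421), (0, 0), (0, 0), (0, 0), (3, 547),
  (0, 0), (3, 559), (0, 0), (2, 569), (2, 569), (0, 0)]),
  (([], [6, 7, 8]), [(3, 188), (0, 0), (0, 0), (0, 0), (3, 422), (0, 0), (0, 0), (0, 0), (0, 0),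
  (0, 0), (3, 548), (2, 554), (2, 558), (2, 558), (0, 0)]),
  (([], [6, 7, 8, 10]), [(0, 0), (0, 0), (0, 0), (0, 0), (3, 423), (0, 0), (0, 0), (0, 0), (0, 0),
  (0, 0), (0, 0), (2, 549), (2, 553), (2, 553), (0, 0)]),
  (([11], [6, 7, 8, 10]), [(2, 268), (3, 267), (3, 550), (0, 0), (0, 0), (0, 0), (0, 0), (0, 0),
  (0, 0), (0, 0), (0, 0), (0, 0), (2, 552), (2, 552), (0, 0)]),
  (([11], [6, 7, 8, 10, 2]), [(0, 0), (3, 264), (0, 0), (0, 0), (0, 0), (0, 0), (0, 0), (0, 0),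
  (0, 0), (0, 0), (0, 0), (0, 0), (2, 551), (2, 551), (0, 0)]),
  (([11, 12], [6, 7, 8, 10, 2]), [(0, 0), (3, 265), (0, 0), (0, 0), (0, 0), (0, 0), (0, 0), (0,
  0), (0, 0), (0, 0), (0, 0), (0, 0), (0, 0), (0, 0), (0, 0)]),
  (([11, 12], [6, 7, 8, 10]), [(2, 269), (3, 270), (3, 551), (0, 0), (0, 0), (0, 0), (0, 0), (0,
  0), (0, 0), (0, 0), (0, 0), (0, 0), (0, 0), (0, 0), (0, 0)]),
  (([12], [6, 7, 8, 10]), [(0, 0), (0, 0), (0, 0), (0, 0), (3, 424), (0, 0), (0, 0), (0, 0), (0,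
  0), (0, 0), (0, 0), (2, 552), (0, 0), (0, 0), (0, 0)]),
  (([11], [6, 7, 8]), [(0, 0), (3, 256), (3, 555), (0, 0), (0, 0), (0, 0), (0, 0), (0, 0), (0, 0),
  (0, 0), (3, 549), (0, 0), (2, 557), (2, 557), (0, 0)]),
  (([11], [6, 7, 8, 2]), [(0, 0), (3, 257), (0, 0), (0, 0), (0, 0), (0, 0), (0, 0), (0, 0), (0,
  0), (0, 0), (3, 550), (0, 0), (2, 556), (2, 556), (0, 0)]),
  (([11, 12], [6, 7, 8, 2]), [(0, 0), (3, 266), (0, 0), (0, 0), (0, 0), (0, 0), (0, 0), (0, 0),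
  (0, 0), (0, 0), (3, 551), (0, 0), (0, 0), (0, 0), (0, 0)]),
  (([11, 12], [6, 7, 8]), [(0, 0), (3, 271), (3, 556), (0, 0), (0, 0), (0, 0), (0, 0), (0, 0), (0,
  0), (0, 0), (3, 552), (0, 0), (0, 0), (0, 0), (0, 0)]),
  (([12], [6, 7, 8]), [(3, 189), (0, 0), (0, 0), (0, 0), (3, 425), (0, 0), (0, 0), (0, 0), (0, 0),
  (0, 0), (3, 553), (2, 557), (0, 0), (0, 0), (0, 0)]),
  (([], [6, 7, 10]), [(0, 0), (0, 0), (0, 0), (0, 0), (3, 426), (0, 0), (0, 0), (0, 0), (3, 548),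
  (0, 0), (0, 0), (2, 560), (2, 568), (2, 568), (0, 0)]),
  (([11], [6, 7, 10]), [(0, 0), (3, 561), (3, 565), (0, 0), (3, 427), (0, 0), (0, 0), (0, 0), (3,
  549), (0, 0), (0, 0), (0, 0), (2, 567), (2, 567), (0, 0)]),
  (([11], [6, 7, 10, 1]), [(0, 0), (0, 0), (3, 562), (0, 0), (0, 0), (0, 0), (0, 0), (0, 0), (3,
  267), (0, 0), (0, 0), (0, 0), (2, 564), (2, 564), (0, 0)]),
  (([11], [6, 7, 10, 1, 2]), [(0, 0), (0, 0), (0, 0), (0, 0), (0, 0), (0, 0), (0, 0), (0, 0), (3,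
  264), (0, 0), (0, 0), (0, 0), (2, 563), (2, 563), (0, 0)]),
  (([11, 12], [6, 7, 10, 1, 2]), [(0, 0), (0, 0), (0, 0), (0, 0), (0, 0), (0, 0), (0, 0), (0, 0),
  (3, 265), (0, 0), (0, 0), (0, 0), (0, 0), (0, 0), (0, 0)]),
  (([11, 12], [6, 7, 10, 1]), [(0, 0), (0, 0), (3, 563), (0, 0), (0, 0), (0, 0), (0, 0), (0, 0),
  (3, 270), (0, 0), (0, 0), (0, 0), (0, 0), (0, 0), (0, 0)]),
  (([11], [6, 7, 10, 2]), [(0, 0), (3, 562), (0, 0), (0, 0), (3, 304), (0, 0), (0, 0), (0, 0), (3,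
  550), (0, 0), (0, 0), (0, 0), (2, 566), (2, 566), (0, 0)]),
  (([11, 12], [6, 7, 10, 2]), [(0, 0), (3, 563), (0, 0), (0, 0), (3, 307), (0, 0), (0, 0), (0, 0),
  (3, 551), (0, 0), (0, 0), (0, 0), (0, 0), (0, 0), (0, 0)]),
  (([11, 12], [6, 7, 10]), [(0, 0), (3, 564), (3, 566), (0, 0), (3, 428), (0, 0), (0, 0), (0, 0),
  (3, 552), (0, 0), (0, 0), (0, 0), (0, 0), (0, 0), (0, 0)]),
  (([12], [6, 7, 10]), [(0, 0), (0, 0), (0, 0), (0, 0), (3, 429), (0, 0), (0, 0), (0, 0), (3,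
  553), (0, 0), (0, 0), (2, 567), (0, 0), (0, 0), (0, 0)]),
  (([12], [6, 7]), [(3, 190), (0, 0), (0, 0), (0, 0), (3, 430), (0, 0), (0, 0), (0, 0), (3, 558),
  (0, 0), (3, 568), (0, 0), (0, 0), (0, 0), (0, 0)]),
  (([], [6, 8]), [(3, 191), (3, 255), (0, 0), (0, 0), (3, 431), (0, 0), (0, 0), (3, 547), (0, 0),
  (0, 0), (3, 571), (2, 554), (2, 573), (2, 573), (0, 0)]),
  (([], [6, 8, 10]), [(0, 0), (0, 0), (0, 0), (0, 0), (3, 432), (0, 0), (0, 0), (3, 548), (0, 0),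
  (0, 0), (0, 0), (2, 549), (2, 572), (2, 572), (0, 0)]),
  (([12], [6, 8, 10]), [(0, 0), (0, 0), (0, 0), (0, 0), (3, 433), (0, 0), (0, 0), (3, 553), (0,
  0), (0, 0), (0, 0), (2, 552), (0, 0), (0, 0), (0, 0)]),
  (([12], [6, 8]), [(3, 192), (3, 272), (0, 0), (0, 0), (3, 434), (0, 0), (0, 0), (3, 558), (0,
  0), (0, 0), (3, 572), (2, 557), (0, 0), (0, 0), (0, 0)]),
  (([], [6, 10]), [(0, 0), (0, 0), (0, 0), (0, 0), (3, 435), (0, 0), (0, 0), (3, 559), (3, 571),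
  (0, 0), (0, 0), (2, 560), (2, 575), (2, 575), (0, 0)]),
  (([12], [6, 10]), [(0, 0), (0, 0), (0, 0), (0, 0), (3, 436), (0, 0), (0, 0), (3, 568), (3, 572),
  (0, 0), (0, 0), (2, 567), (0, 0), (0, 0), (0, 0)]),
  (([12], [6]), [(3, 193), (3, 273), (0, 0), (0, 0), (3, 437), (0, 0), (0, 0), (3, 569), (3, 573),
  (0, 0), (3, 575), (0, 0), (0, 0), (0, 0), (0, 0)]),
  (([], [7]), [(3, 194), (0, 0), (3, 316), (3, 380), (3, 438), (3, 478), (3, 546), (0, 0), (3,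
  578), (3, 586), (3, 590), (3, 592), (2, 594), (2, 594), (0, 0)]),
  (([], [7, 8]), [(3, 195), (0, 0), (0, 0), (3, 381), (3, 439), (3, 479), (3, 547), (0, 0), (0,
  0), (3, 579), (3, 583), (0, 0), (2, 585), (2, 585), (0, 0)]),
  (([], [7, 8, 9]), [(0, 0), (0, 0), (0, 0), (0, 0), (3, 440), (3, 480), (0, 0), (0, 0), (0, 0),
  (0, 0), (3, 580), (0, 0), (2, 582), (2, 582), (0, 0)]),
  (([], [7, 8, 9, 10]), [(0, 0), (0, 0), (0, 0), (0, 0), (3, 441), (0, 0), (0, 0), (0, 0), (0, 0),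
  (0, 0), (0, 0), (0, 0), (2, 581), (2, 581), (0, 0)]),
  (([12], [7, 8, 9, 10]), [(0, 0), (0, 0), (0, 0), (0, 0), (3, 442), (0, 0), (0, 0), (0, 0), (0,
  0), (0, 0), (0, 0), (0, 0), (0, 0), (0, 0), (0, 0)]),
  (([12], [7, 8, 9]), [(0, 0), (0, 0), (0, 0), (0, 0), (3, 443), (3, 485), (0, 0), (0, 0), (0, 0),
  (0, 0), (3, 581), (0, 0), (0, 0), (0, 0), (0, 0)]),
  (([], [7, 8, 10]), [(0, 0), (0, 0), (0, 0), (3, 382), (3, 444), (0, 0), (3, 548), (0, 0), (0,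
  0), (3, 580), (0, 0), (0, 0), (2, 584), (2, 584), (0, 0)]),
  (([12], [7, 8, 10]), [(0, 0), (0, 0), (0, 0), (3, 383), (3, 445), (0, 0), (3, 553), (0, 0), (0,
  0), (3, 581), (0, 0), (0, 0), (0, 0), (0, 0), (0, 0)]),
  (([12], [7, 8]), [(3, 196), (0, 0), (0, 0), (3, 384), (3, 446), (3, 486), (3, 558), (0, 0), (0,
  0), (3, 582), (3, 584), (0, 0), (0, 0), (0, 0), (0, 0)]),
  (([], [7, 9]), [(0, 0), (0, 0), (3, 317), (0, 0), (3, 447), (3, 487), (0, 0), (0, 0), (3, 579),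
  (0, 0), (3, 587), (0, 0), (2, 589), (2, 589), (0, 0)]),
  (([], [7, 9, 10]), [(0, 0), (0, 0), (0, 0), (0, 0), (3, 448), (0, 0), (0, 0), (0, 0), (3, 580),
  (0, 0), (0, 0), (0, 0), (2, 588), (2, 588), (0, 0)]),
  (([12], [7, 9, 10]), [(0, 0), (0, 0), (0, 0), (0, 0), (3, 449), (0, 0), (0, 0), (0, 0), (3,
  581), (0, 0), (0, 0), (0, 0), (0, 0), (0, 0), (0, 0)]),
  (([12], [7, 9]), [(0, 0), (0, 0), (3, 336), (0, 0), (3, 450), (3, 490), (0, 0), (0, 0), (3,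
  582), (0, 0), (3, 588), (0, 0), (0, 0), (0, 0), (0, 0)]),
  (([], [7, 10]), [(0, 0), (0, 0), (0, 0), (3, 385), (3, 451), (0, 0), (3, 559), (0, 0), (3, 583),
  (3, 587), (0, 0), (0, 0), (2, 591), (2, 591), (0, 0)]),
  (([12], [7, 10]), [(0, 0), (0, 0), (0, 0), (3, 390), (3, 454), (0, 0), (3, 568), (0, 0), (3,
  584), (3, 588), (0, 0), (0, 0), (0, 0), (0, 0), (0, 0)]),
  (([], [7, 11]), [(0, 0), (0, 0), (0, 0), (3, 391), (0, 0), (3, 491), (0, 0), (0, 0), (0, 0), (0,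
  0), (0, 0), (0, 0), (2, 593), (2, 593), (0, 0)]),
  (([12], [7, 11]), [(0, 0), (0, 0), (0, 0), (3, 398), (0, 0), (3, 518), (0, 0), (0, 0), (0, 0),
  (0, 0), (0, 0), (0, 0), (0, 0), (0, 0), (0, 0)]),
  (([12], [7]), [(3, 197), (0, 0), (3, 337), (3, 399), (3, 455), (3, 519), (3, 569), (0, 0), (3,
  585), (3, 589), (3, 591), (3, 593), (0, 0), (0, 0), (0, 0)]),
  (([], [8]), [(3, 198), (3, 274), (0, 0), (3, 400), (3, 456), (3, 520), (3, 570), (3, 578), (0,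
  0), (3, 596), (3, 600), (0, 0), (2, 602), (2, 602), (0, 0)]),
  (([], [8, 9]), [(0, 0), (0, 0), (0, 0), (0, 0), (3, 457), (3, 521), (0, 0), (3, 579), (0, 0),
  (0, 0), (3, 597), (0, 0), (2, 599), (2, 599), (0, 0)]),
  (([], [8, 9, 10]), [(0, 0), (0, 0), (0, 0), (0, 0), (3, 462), (0, 0), (0, 0), (3, 580), (0, 0),
  (0, 0), (0, 0), (0, 0), (2, 598), (2, 598), (0, 0)]),
  (([12], [8, 9, 10]), [(0, 0), (0, 0), (0, 0), (0, 0), (3, 463), (0, 0), (0, 0), (3, 581), (0,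
  0), (0, 0), (0, 0), (0, 0), (0, 0), (0, 0), (0, 0)]),
  (([12], [8, 9]), [(0, 0), (0, 0), (0, 0), (0, 0), (3, 464), (3, 522), (0, 0), (3, 582), (0, 0),
  (0, 0), (3, 598), (0, 0), (0, 0), (0, 0), (0, 0)]),
  (([], [8, 10]), [(0, 0), (0, 0), (0, 0), (3, 401), (3, 465), (0, 0), (3, 571), (3, 583), (0, 0),
  (3, 597), (0, 0), (0, 0), (2, 601), (2, 601), (0, 0)]),
  (([12], [8, 10]), [(0, 0), (0, 0), (0, 0), (3, 402), (3, 466), (0, 0), (3, 572), (3, 584), (0,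
  0), (3, 598), (0, 0), (0, 0), (0, 0), (0, 0), (0, 0)]),
  (([12], [8]), [(3, 199), (3, 275), (0, 0), (3, 403), (3, 467), (3, 523), (3, 573), (3, 585), (0,
  0), (3, 599), (3, 601), (0, 0), (0, 0), (0, 0), (0, 0)]),
  (([], [9]), [(0, 0), (0, 0), (3, 338), (0, 0), (3, 468), (3, 524), (0, 0), (3, 586), (3, 596),
  (0, 0), (3, 604), (0, 0), (2, 606), (2, 606), (0, 0)]),
  (([], [9, 10]), [(0, 0), (0, 0), (0, 0), (0, 0), (3, 471), (0, 0), (0, 0), (3, 587), (3, 597),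
  (0, 0), (0, 0), (0, 0), (2, 605), (2, 605), (0, 0)]),
  (([12], [9, 10]), [(0, 0), (0, 0), (0, 0), (0, 0), (3, 472), (0, 0), (0, 0), (3, 588), (3, 598),
  (0, 0), (0, 0), (0, 0), (0, 0), (0, 0), (0, 0)]),
  (([12], [9]), [(0, 0), (0, 0), (3, 339), (0, 0), (3, 473), (3, 525), (0, 0), (3, 589), (3, 599),
  (0, 0), (3, 605), (0, 0), (0, 0), (0, 0), (0, 0)]),
  (([], [10]), [(0, 0), (0, 0), (0, 0), (3, 404), (3, 474), (0, 0), (3, 574), (3, 590), (3, 600),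
  (3, 604), (0, 0), (0, 0), (2, 608), (2, 608), (0, 0)]),
  (([12], [10]), [(0, 0), (0, 0), (0, 0), (3, 411), (3, 475), (0, 0), (3, 575), (3, 591), (3,
  601), (3, 605), (0, 0), (0, 0), (0, 0), (0, 0), (0, 0)]),
  (([], [11]), [(0, 0), (3, 276), (0, 0), (3, 412), (0, 0), (3, 526), (0, 0), (3, 592), (0, 0),
  (0, 0), (0, 0), (0, 0), (2, 610), (2, 610), (0, 0)]),
  (([12], [11]), [(0, 0), (3, 287), (0, 0), (3, 417), (0, 0), (3, 543), (0, 0), (3, 593), (0, 0),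
  (0, 0), (0, 0), (0, 0), (0, 0), (0, 0), (0, 0)]),
  (([12], []), [(3, 200), (3, 288), (3, 340), (3, 418), (3, 476), (3, 544), (3, 576), (3, 594),
  (3, 602), (3, 606), (3, 608), (3, 610), (0, 0), (0, 0), (0, 0)])]

theorem rws_ok : rws.all (chr 15 X0 (rws.map Prod.fst)) = true := by decide +kernel

end Pool.Agent.V11201.EB
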