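import Pool.Agent.V11201.EB.Simp
import Pool.Agent.V11201.EB.Rows

set_option autoImplicit false
set_option linter.unusedSectionVars false
open Finset

namespace Pool.Agent.V11201.EB
open Pool.Agent.V11201.RP

theorem foldr_tb (l : List ℕ) (j : ℕ) :
    (l.foldr (fun g r => Nat.lor (dcl g 15) r) 0).testBit j = true ↔
      ∃ g ∈ l, (dcl g 15).testBit j = true := by
  induction l with
  | nil => simp
  | cons x l ih =>
    rw [List.foldr_cons]
    change (dcl x 15 ||| _).testBit j = true ↔ _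
    rw [Nat.testBit_or, Bool.or_eq_true, ih]
    simp

theorem mem_X0 {s : Finset (Fin 15)} : s ∈ dec 15 X0 ↔ ∃ g ∈ l0, s ⊆ ms 15 g := by
  rw [mem_dec, X0_eq, foldr_tb]
  constructor
  · rintro ⟨g, hg, h⟩
    refine ⟨g, hg, ?_⟩
    rw [dcl_tb] at h
    intro i hi
    exact mem_ms.2 (h.2 i ((cd_tb_fin _ _).2 hi))
  · rintro ⟨g, hg, h⟩
    refine ⟨g, hg, ?_⟩
    rw [dcl_tb]
    refine ⟨cd_lt s, ?_⟩
    intro j hj
    obtain ⟨i, hi, rfl⟩ := (cd_tb _ _).1 hj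
    exact mem_ms.1 (h hi)

theorem dc_X0 : DC (dec 15 X0) := by
  intro s hs t ht
  rw [mem_X0] at hs ⊢
  obtain ⟨g, hg, h⟩ := hs
  exact ⟨g, hg, ht.trans h⟩

theorem emp_X0 : ∅ ∈ dec 15 X0 := by
  rw [mem_X0]
  exact ⟨l0.headD 0, by decide, empty_subset _⟩

theorem re_eq : {x : Fin 15 → ℝ | (∀ i, 0 ≤ x i) ∧ ∑ i, x i = 1 ∧
    ∃ σ ∈ dec 15 X0, ∀ i, i ∉ σ → x i = 0} = Re (KF 15 l0) := by
  ext x
  constructor
  · rintro ⟨h1, h2, σ, hσ, h3⟩
    obtain ⟨g, hg, h4⟩ := mem_X0.1 hσ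
    refine ⟨h1, h2, ?_, g, hg, ?_⟩
    · by_contra hcon
      rw [not_nonempty_iff_eq_empty] at hcon
      have : ∀ v, x v = 0 := by
        intro v
        by_contra hv
        have := RP.mem_sup.2 hv
        rw [hcon] at this
        exact absurd this (notMem_empty _)
      simp [this] at h2
    · intro v hv
      apply h4
      by_contra hcon
      exact RP.mem_sup.1 hv (h3 v hcon)
  · rintro ⟨h1, h2, h3, g, hg, h4⟩
    refine ⟨h1, h2, RP.sup x, mem_X0.2 ⟨g, hg, h4⟩, ?_⟩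
    intro i hi
    by_contra hcon
    exact hi (RP.mem_sup.2 hcon)

theorem homeo_ball : Nonempty (↥{x : Fin 15 → ℝ | (∀ i, 0 ≤ x i) ∧ ∑ i, x i = 1 ∧
    ∃ σ ∈ dec 15 X0, ∀ i, i ∉ σ → x i = 0} ≃ₜ
      ↥(Metric.closedBall (0 : EuclideanSpace ℝ (Fin 4)) 1)) := by
  obtain ⟨e⟩ := chain_spec fls_ok
  obtain ⟨f⟩ := Cs_ball
  exact ⟨(Homeomorph.setCongr re_eq).trans (e.trans (sC.trans f))⟩

theorem root_mem : (([], []) : List ℕ × List ℕ) ∈ rws.map Prod.fst := by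
  have h : (rws.map Prod.fst).head? = some ([], []) := by decide +kernel
  exact List.mem_of_head? h

end Pool.Agent.V11201.EB
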