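import Pool.Agent.V11201.RP.Check

set_option autoImplicit false
set_option linter.unusedSectionVars false
open Finset

namespace Pool.Agent.V11201.EB
open Pool.Agent.V11201.RP

variable {V : Type} [Fintype V] [DecidableEq V]

/-- the conditions for a generalized flip: the link of the first set is the join of the boundary
of the second set with some complex -/
structure Gb (K : Set (Finset V)) (A B : Finset V) : Prop where
  hA : A.Nonempty
  hB : B.Nonempty
  dis : Disjoint A B
  down : ∀ F ∈ K, ∀ G ⊆ F, G.Nonempty → G ∈ K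
  star : ∀ F ∈ K, A ⊆ F → ∀ b ∈ B, (F ∪ B).erase b ∈ K
  notB : ∀ F ∈ K, ¬ B ⊆ F

/-- the flipped complex -/
def gK (K : Set (Finset V)) (A B : Finset V) : Set (Finset V) :=
  {F | (F ∈ K ∧ ¬ A ⊆ F) ∨ (B ⊆ F ∧ ¬ A ⊆ F ∧ ∃ b ∈ B, (F ∪ A).erase b ∈ K)}

variable {K : Set (Finset V)} {A B : Finset V}

theorem Gb.sub_er (h : Gb K A B) {F : Finset V} {b : V} (hb : b ∈ B) : A ⊆ (F ∪ A).erase b := by
  intro a ha
  refine mem_erase.2 ⟨fun hab => ?_, mem_union_right _ ha⟩
  exact disjoint_left.1 h.dis ha (hab ▸ hb)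

theorem Gb.symm (h : Gb K A B) : Gb (gK K A B) B A where
  hA := h.hB
  hB := h.hA
  dis := h.dis.symm
  down := by
    rintro F (⟨h1, h2⟩ | ⟨h1, h2, b, hb, h3⟩) G hG hGn
    · exact Or.inl ⟨h.down F h1 G hG hGn, fun hAG => h2 (hAG.trans hG)⟩
    · have h4 : ¬ A ⊆ G := fun hAG => h2 (hAG.trans hG)
      by_cases hBG : B ⊆ G
      · refine Or.inr ⟨hBG, h4, b, hb, ?_⟩
        refine h.down _ h3 _ (erase_subset_erase _ (union_subset_union hG (Subset.refl _))) ?_
        exact h.hA.mono (h.sub_er hb)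
      · left
        obtain ⟨b', hb', hbG⟩ := not_subset.1 hBG
        have h5 := h.star _ h3 (h.sub_er hb) b' hb'
        refine ⟨h.down _ h5 G ?_ hGn, h4⟩
        intro v hv
        refine mem_erase.2 ⟨fun hvb => hbG (hvb ▸ hv), ?_⟩
        by_cases hvB : v ∈ B
        · exact mem_union_right _ hvB
        · refine mem_union_left _ (mem_erase.2 ⟨fun hvb => hvB (hvb ▸ hb), ?_⟩)
          exact mem_union_left _ (hG hv)
  star := by
    rintro F (⟨h1, h2⟩ | ⟨h1, h2, b, hb, h3⟩) hBF a ha
    · exact absurd hBF (h.notB F h1)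
    · right
      refine ⟨?_, ?_, b, hb, ?_⟩
      · intro c hc
        refine mem_erase.2 ⟨fun hca => ?_, mem_union_left _ (h1 hc)⟩
        exact disjoint_left.1 h.dis ha (hca ▸ hc)
      · intro hcon
        exact (mem_erase.1 (hcon ha)).1 rfl
      · have : (F ∪ A).erase a ∪ A = F ∪ A := by
          ext v
          simp only [mem_union, mem_erase]
          by_cases hva : v = a
          · subst hva; simp [ha]
          · simp only [hva, ne_eq, not_false_eq_true, true_and]
            tauto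
        rw [this]; exact h3
  notB := by
    rintro F (⟨h1, h2⟩ | ⟨h1, h2, h3⟩)
    · exact h2
    · exact h2

theorem Gb.back (h : Gb K A B) : gK (gK K A B) B A = K := by
  ext F
  constructor
  · rintro (⟨⟨h1, h2⟩ | ⟨h1, h2, h3⟩, h4⟩ | ⟨h1, h2, a, ha, h3⟩)
    · exact h1
    · exact absurd h1 h4
    · obtain ⟨b', hb', hbF⟩ := not_subset.1 h2
      have h4 : B ⊆ (F ∪ B).erase a := by
        intro c hc
        refine mem_erase.2 ⟨fun hca => ?_, mem_union_right _ hc⟩
        exact disjoint_left.1 h.dis ha (hca ▸ hc)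
      rcases h3 with ⟨h5, -⟩ | ⟨-, h6, b, hb, h5⟩
      · exact absurd h4 (h.notB _ h5)
      · have h7 := h.star _ h5 (h.sub_er hb) b' hb'
        refine h.down _ h7 F ?_ (h.hA.mono h1)
        intro v hv
        refine mem_erase.2 ⟨fun hvb => hbF (hvb ▸ hv), ?_⟩
        by_cases hvB : v ∈ B
        · exact mem_union_right _ hvB
        · refine mem_union_left _ (mem_erase.2 ⟨fun hvb => hvB (hvb ▸ hb), ?_⟩)
          by_cases hva : v ∈ A
          · exact mem_union_right _ hva
          · exact mem_union_left _ (mem_erase.2 ⟨fun hvb => hva (hvb ▸ ha), mem_union_left _ hv⟩)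
  · intro hF
    by_cases hAF : A ⊆ F
    · right
      obtain ⟨a, ha⟩ := h.hA
      obtain ⟨b, hb⟩ := h.hB
      refine ⟨hAF, h.notB F hF, a, ha, Or.inr ⟨?_, ?_, b, hb, ?_⟩⟩
      · intro c hc
        refine mem_erase.2 ⟨fun hca => ?_, mem_union_right _ hc⟩
        exact disjoint_left.1 h.dis ha (hca ▸ hc)
      · intro hcon
        exact (mem_erase.1 (hcon ha)).1 rfl
      · have h1 := h.star F hF hAF b hb
        have : (F ∪ B).erase a ∪ A = F ∪ B := by
          ext v
          simp only [mem_union, mem_erase]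
          by_cases hva : v = a
          · subst hva; simp [ha, hAF ha]
          · simp only [hva, ne_eq, not_false_eq_true, true_and]
            constructor
            · rintro (h | h)
              · exact h
              · exact Or.inl (hAF h)
            · intro h
              exact Or.inl h
        rw [this]; exact h1
    · left
      exact ⟨Or.inl ⟨hF, hAF⟩, h.notB F hF⟩

theorem Gb.fl_mem (h : Gb K A B) {x : V → ℝ} (hx : x ∈ Re K) :
    fl A B x ∈ Re (gK K A B) ∧ mn B (fl A B x) = (A.card : ℝ) / B.card * mn A x := by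
  obtain ⟨h0, h1, h2⟩ := hx
  have hBx : ¬ B ⊆ sup x := h.notB _ h2
  have hmB : mn B x = 0 := mn_zero h.hB h0 hBx
  have hcA : (0 : ℝ) < A.card := by exact_mod_cast h.hA.card_pos
  have hcB : (0 : ℝ) < B.card := by exact_mod_cast h.hB.card_pos
  rcases (mn_nonneg (A := A) h0).eq_or_lt with hm | hm
  · rw [fl_of_zero hm.symm, ← hm, mul_zero]
    refine ⟨⟨h0, h1, Or.inl ⟨h2, ?_⟩⟩, hmB⟩
    intro hAx
    have := (mn_pos_iff h.hA h0).2 hAx
    linarith
  · have hAx := (mn_pos_iff h.hA h0).1 hm
    have hcm : 0 < (A.card : ℝ) / B.card * mn A x := by positivity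
    have eA : ∀ v ∈ A, fl A B x v = x v - mn A x := by
      intro v hv
      have : v ∉ B := disjoint_left.1 h.dis hv
      simp [fl, hv, this]
    have eB : ∀ v ∈ B, fl A B x v = x v + (A.card : ℝ) / B.card * mn A x := by
      intro v hv
      have : v ∉ A := disjoint_right.1 h.dis hv
      simp [fl, hv, this]
    have eC : ∀ v, v ∉ A → v ∉ B → fl A B x v = x v := by
      intro v hvA hvB
      simp [fl, hvA, hvB]
    have hBs : B ⊆ sup (fl A B x) := by
      intro v hv
      rw [RP.mem_sup, eB v hv]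
      have := h0 v
      linarith
    refine ⟨⟨?_, ?_, Or.inr ⟨hBs, ?_, ?_⟩⟩, ?_⟩
    · intro v
      by_cases hvA : v ∈ A
      · rw [eA v hvA]
        have := mn_le (x := x) hvA
        linarith
      · by_cases hvB : v ∈ B
        · rw [eB v hvB]
          have := h0 v
          linarith
        · rw [eC v hvA hvB]
          exact h0 v
    · unfold fl
      rw [sum_add_distrib, sum_sub_distrib, h1, sum_ite_mem, sum_ite_mem, univ_inter, univ_inter,
        sum_const, sum_const, nsmul_eq_mul, nsmul_eq_mul]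
      field_simp
      ring
    · intro hcon
      obtain ⟨a, ha, ha'⟩ := mn_mem h.hA x
      have := RP.mem_sup.1 (hcon ha)
      rw [eA a ha, ha'] at this
      simp at this
    · obtain ⟨b, hb⟩ := h.hB
      refine ⟨b, hb, h.down _ (h.star _ h2 hAx b hb) _ ?_ (h.hA.mono (h.sub_er hb))⟩
      apply erase_subset_erase
      intro v hv
      by_cases hvA : v ∈ A
      · exact mem_union_left _ (hAx hvA)
      · by_cases hvB : v ∈ B
        · exact mem_union_right _ hvB
        · rcases mem_union.1 hv with hv | hv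
          · rw [RP.mem_sup, eC v hvA hvB] at hv
            exact mem_union_left _ (RP.mem_sup.2 hv)
          · exact absurd hv hvA
    · apply le_antisymm
      · obtain ⟨b, hb, hb'⟩ := mn_mem h.hB x
        have h3 := mn_le (x := fl A B x) hb
        rw [eB b hb, ← hb', hmB, zero_add] at h3
        exact h3
      · obtain ⟨b, hb, hb'⟩ := mn_mem h.hB (fl A B x)
        rw [hb', eB b hb]
        have := h0 b
        linarith

theorem Gb.fl_fl (h : Gb K A B) {x : V → ℝ} (hx : x ∈ Re K) : fl B A (fl A B x) = x := by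
  have h1 := (h.fl_mem hx).2
  have hcA : (0 : ℝ) < A.card := by exact_mod_cast h.hA.card_pos
  have hcB : (0 : ℝ) < B.card := by exact_mod_cast h.hB.card_pos
  funext v
  change fl A B x v - (if v ∈ B then mn B (fl A B x) else 0) +
    (if v ∈ A then (B.card : ℝ) / A.card * mn B (fl A B x) else 0) = x v
  rw [h1]
  unfold fl
  by_cases hvA : v ∈ A
  · have : v ∉ B := disjoint_left.1 h.dis hvA
    simp only [hvA, this, if_true, if_false]
    field_simp
    ring
  · by_cases hvB : v ∈ B
    · simp only [hvA, hvB, if_true, if_false]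
      ring
    · simp only [hvA, hvB, if_false]
      ring

theorem Gb.back_mem (h : Gb K A B) {y : V → ℝ} (hy : y ∈ Re (gK K A B)) : fl B A y ∈ Re K := by
  have h1 := (h.symm.fl_mem hy).1
  rw [h.back] at h1
  exact h1

/-- the homeomorphism between the realizations -/
noncomputable def Gb.homeo (h : Gb K A B) : Re K ≃ₜ Re (gK K A B) where
  toFun x := ⟨fl A B x.1, (h.fl_mem x.2).1⟩
  invFun y := ⟨fl B A y.1, h.back_mem y.2⟩
  left_inv x := Subtype.ext (h.fl_fl x.2)
  right_inv y := Subtype.ext (h.symm.fl_fl y.2)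
  continuous_toFun := ((fl_cont A B).comp continuous_subtype_val).subtype_mk _
  continuous_invFun := ((fl_cont B A).comp continuous_subtype_val).subtype_mk _

/-- the family of the nonempty subsets of the sets of the masks -/
def KF (m : ℕ) (l : List ℕ) : Set (Finset (Fin m)) :=
  {F | F.Nonempty ∧ ∃ g ∈ l, F ⊆ ms m g}

/-- inclusion of masks -/
def sb (x y : ℕ) : Bool := Nat.beq (Nat.land x y) x

theorem sb_iff {x y : ℕ} : sb x y = true ↔ ∀ j, x.testBit j = true → y.testBit j = true := by
  unfold sb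
  rw [nbeq]
  constructor
  · intro h j hj
    have : (x &&& y).testBit j = x.testBit j := by
      change Nat.testBit (Nat.land x y) j = _
      rw [h]
    rw [Nat.testBit_and, hj, Bool.true_and] at this
    exact this
  · intro h
    apply Nat.eq_of_testBit_eq
    intro j
    change (x &&& y).testBit j = _
    rw [Nat.testBit_and]
    cases hx : x.testBit j with
    | false => simp
    | true => rw [h j hx]; simp

/-- the mask of a list of positions -/
def mk (l : List ℕ) : ℕ := l.foldr (fun i r => Nat.lor (Nat.pow 2 i) r) 0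

theorem mk_tb (l : List ℕ) (j : ℕ) : (mk l).testBit j = true ↔ j ∈ l := by
  induction l with
  | nil => change (0 : ℕ).testBit j = true ↔ _; simp
  | cons x l ih =>
    change (Nat.lor (Nat.pow 2 x) (mk l)).testBit j = true ↔ _
    have : (Nat.lor (Nat.pow 2 x) (mk l)).testBit j = ((2 ^ x).testBit j || (mk l).testBit j) :=
      Nat.testBit_or _ _ j
    rw [this, Bool.or_eq_true, ih, Nat.testBit_two_pow, List.mem_cons, decide_eq_true_iff, eq_comm]

/-- the mask with one more set and one position removed -/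
def er (g be i : ℕ) : ℕ := Nat.xor (Nat.lor (Nat.lor g be) (Nat.pow 2 i)) (Nat.pow 2 i)

theorem er_tb (g be i j : ℕ) : (er g be i).testBit j = true ↔
    j ≠ i ∧ (g.testBit j = true ∨ be.testBit j = true) := by
  have : (er g be i).testBit j = (((g.testBit j || be.testBit j) || (2 ^ i).testBit j) ^^
      (2 ^ i).testBit j) := by
    change ((g ||| be ||| 2 ^ i) ^^^ 2 ^ i).testBit j = _
    rw [Nat.testBit_xor, Nat.testBit_or, Nat.testBit_or]
  rw [this, Nat.testBit_two_pow]
  by_cases h : i = j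
  · subst h; simp
  · have h' : j ≠ i := fun h' => h h'.symm
    simp [h, h']

theorem ms_er {m : ℕ} (g be : ℕ) (i : Fin m) : ms m (er g be i) = (ms m g ∪ ms m be).erase i := by
  ext j
  rw [mem_ms, er_tb, mem_erase, mem_union, mem_ms, mem_ms]
  simp [Fin.ext_iff]

/-- the flipped list of facets -/
def stL (A B : List ℕ) (b0 : ℕ) (l : List ℕ) : List ℕ :=
  l.filter (fun g => !sb (mk A) g) ++
    (l.filter (fun g => sb (mk (A ++ B.filter (fun b => !Nat.beq b b0))) g)).flatMap
      (fun g => A.map (fun a => er g (mk B) a))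

/-- the check of a flip -/
def chk (m : ℕ) (A B : List ℕ) (b0 : ℕ) (l : List ℕ) : Bool :=
  !A.isEmpty && B.contains b0 && A.all (fun a => Nat.blt a m && !B.contains a) &&
  B.all (fun b => Nat.blt b m) && l.all (fun g => !sb (mk B) g) &&
  l.all (fun g => !sb (mk A) g || B.all (fun b => l.any (fun h => sb (er g (mk B) b) h)))

theorem ms_sub {m : ℕ} {A : List ℕ} (hA : ∀ a ∈ A, a < m) (g : ℕ) :
    ms m (mk A) ⊆ ms m g ↔ sb (mk A) g = true := by
  rw [sb_iff]
  constructor
  · intro h j hj
    rw [mk_tb] at hj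
    have h1 : (⟨j, hA j hj⟩ : Fin m) ∈ ms m (mk A) := mem_ms.2 ((mk_tb _ _).2 hj)
    exact mem_ms.1 (h h1)
  · intro h i hi
    exact mem_ms.2 (h i (mem_ms.1 hi))

theorem sub_ms {m : ℕ} {x y : ℕ} (h : sb x y = true) : ms m x ⊆ ms m y := by
  intro i hi
  exact mem_ms.2 (sb_iff.1 h i (mem_ms.1 hi))

theorem chk_spec {m : ℕ} {A B : List ℕ} {b0 : ℕ} {l : List ℕ} (h : chk m A B b0 l = true) :
    Gb (KF m l) (ms m (mk A)) (ms m (mk B)) ∧
      KF m (stL A B b0 l) = gK (KF m l) (ms m (mk A)) (ms m (mk B)) := by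
  unfold chk at h
  simp only [Bool.and_eq_true, Bool.not_eq_true', List.all_eq_true, List.contains_iff_mem,
    Bool.or_eq_true, List.any_eq_true] at h
  obtain ⟨⟨⟨⟨⟨h1, h2⟩, h3⟩, h4⟩, h5⟩, h6⟩ := h
  have hlt : ∀ {a b : ℕ}, Nat.blt a b = true → a < b := fun h => by rwa [Nat.blt_eq] at h
  have hAm : ∀ a ∈ A, a < m := fun a ha => hlt (h3 a ha).1
  have hBm : ∀ b ∈ B, b < m := fun b hb => hlt (h4 b hb)
  have hAB : ∀ a ∈ A, a ∉ B := by
    intro a ha hb
    have := (h3 a ha).2
    rw [← List.contains_iff_mem, this] at hb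
    exact Bool.false_ne_true hb
  have hAn : A ≠ [] := by
    rintro rfl
    simp at h1
  have hA : (ms m (mk A)).Nonempty := by
    obtain ⟨a, ha⟩ := List.exists_mem_of_ne_nil _ hAn
    exact ⟨⟨a, hAm a ha⟩, mem_ms.2 ((mk_tb _ _).2 ha)⟩
  have hb0 : (⟨b0, hBm b0 h2⟩ : Fin m) ∈ ms m (mk B) := mem_ms.2 ((mk_tb _ _).2 h2)
  have hdis : Disjoint (ms m (mk A)) (ms m (mk B)) := by
    rw [disjoint_left]
    intro i hi hi'
    rw [mem_ms, mk_tb] at hi hi'
    exact hAB _ hi hi'
  have star : ∀ F ∈ KF m l, ms m (mk A) ⊆ F → ∀ b ∈ ms m (mk B),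
      (F ∪ ms m (mk B)).erase b ∈ KF m l := by
    rintro F ⟨hF, g, hg, hFg⟩ hAF b hb
    have e1 : sb (mk A) g = true := (ms_sub hAm g).1 (hAF.trans hFg)
    rcases h6 g hg with h7 | h7
    · rw [e1] at h7; exact absurd h7 (by decide)
    · obtain ⟨h, hh, h8⟩ := h7 b ((mk_tb _ _).1 (mem_ms.1 hb))
      refine ⟨?_, h, hh, ?_⟩
      · obtain ⟨a, ha⟩ := hA
        refine ⟨a, mem_erase.2 ⟨?_, mem_union_left _ (hAF ha)⟩⟩
        rintro rfl
        exact disjoint_left.1 hdis ha hb
      · have h9 := sub_ms (m := m) h8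
        rw [ms_er] at h9
        exact (erase_subset_erase _ (union_subset_union hFg (Subset.refl _))).trans h9
  have hG : Gb (KF m l) (ms m (mk A)) (ms m (mk B)) := by
    refine ⟨hA, ⟨_, hb0⟩, hdis, ?_, star, ?_⟩
    · rintro F ⟨hF, g, hg, hFg⟩ G hGF hGn
      exact ⟨hGn, g, hg, hGF.trans hFg⟩
    · rintro F ⟨hF, g, hg, hFg⟩ hBF
      have e1 : sb (mk B) g = true := (ms_sub hBm g).1 (hBF.trans hFg)
      have := h5 g hg
      rw [e1] at this
      exact absurd this (by decide)
  refine ⟨hG, ?_⟩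
  -- the key fact on the new facets
  have key : ∀ g ∈ l, sb (mk A) g = true → ∃ g' ∈ l,
      sb (mk (A ++ B.filter (fun b => !Nat.beq b b0))) g' = true ∧
      ms m g ⊆ ms m g' ∪ ms m (mk B) := by
    intro g hg hAg
    rcases h6 g hg with h7 | h7
    · rw [hAg] at h7; exact absurd h7 (by decide)
    · obtain ⟨h, hh, h8⟩ := h7 b0 h2
      refine ⟨h, hh, ?_, ?_⟩
      · rw [sb_iff]
        intro j hj
        rw [mk_tb, List.mem_append, List.mem_filter] at hj
        apply sb_iff.1 h8
        rw [er_tb]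
        rcases hj with hj | ⟨hj, hj'⟩
        · refine ⟨?_, Or.inl (sb_iff.1 hAg j ((mk_tb _ _).2 hj))⟩
          rintro rfl
          exact hAB _ hj h2
        · refine ⟨?_, Or.inr ((mk_tb _ _).2 hj)⟩
          rintro rfl
          rw [Nat.beq_refl] at hj'
          exact absurd hj' (by decide)
      · intro i hi
        by_cases hib : (i : ℕ) = b0
        · apply mem_union_right
          rw [mem_ms, mk_tb, hib]; exact h2
        · apply mem_union_left
          rw [mem_ms]
          apply sb_iff.1 h8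
          rw [er_tb]
          exact ⟨hib, Or.inl (mem_ms.1 hi)⟩
  have hmem : ∀ g', g' ∈ stL A B b0 l ↔ (g' ∈ l ∧ sb (mk A) g' = false) ∨
      ∃ g ∈ l, sb (mk (A ++ B.filter (fun b => !Nat.beq b b0))) g = true ∧
        ∃ a ∈ A, er g (mk B) a = g' := by
    intro g'
    unfold stL
    rw [List.mem_append, List.mem_filter, List.mem_flatMap]
    simp only [List.mem_filter, List.mem_map, Bool.not_eq_true', and_assoc]
  ext F
  constructor
  · rintro ⟨hF, g', hg', hFg'⟩
    rcases (hmem g').1 hg' with ⟨h8, h9⟩ | ⟨g, hg, hg1, a, ha, rfl⟩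
    · left
      refine ⟨⟨hF, g', h8, hFg'⟩, fun hAF => ?_⟩
      have := (ms_sub hAm g').1 (hAF.trans hFg')
      rw [h9] at this
      exact Bool.false_ne_true this
    · have ha' := hAm a ha
      have e1 : ms m (er g (mk B) a) = (ms m g ∪ ms m (mk B)).erase ⟨a, ha'⟩ :=
        ms_er g (mk B) ⟨a, ha'⟩
      rw [e1] at hFg'
      have hAg : sb (mk A) g = true := by
        rw [sb_iff] at hg1 ⊢
        intro j hj
        apply hg1
        rw [mk_tb] at hj ⊢
        exact List.mem_append_left _ hj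
      have hAg' := (ms_sub hAm g).2 hAg
      have hn : ¬ ms m (mk A) ⊆ F := by
        intro hcon
        have h8 : (⟨a, ha'⟩ : Fin m) ∈ ms m (mk A) := mem_ms.2 ((mk_tb _ _).2 ha)
        exact (mem_erase.1 (hFg' (hcon h8))).1 rfl
      have hgK : ms m g ∈ KF m l := ⟨hA.mono hAg', g, hg, Subset.refl _⟩
      by_cases hBF : ms m (mk B) ⊆ F
      · right
        refine ⟨hBF, hn, ⟨b0, hBm b0 h2⟩, hb0, ?_⟩
        refine hG.down _ (hG.star _ hgK hAg' _ hb0) _ ?_ (hA.mono (hG.sub_er hb0))
        apply erase_subset_erase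
        apply union_subset
        · exact hFg'.trans (erase_subset _ _)
        · exact hAg'.trans subset_union_left
      · left
        refine ⟨?_, hn⟩
        obtain ⟨b, hb, hbF⟩ := not_subset.1 hBF
        refine hG.down _ (hG.star _ hgK hAg' b hb) _ ?_ hF
        intro v hv
        refine mem_erase.2 ⟨fun h => hbF (h ▸ hv), ?_⟩
        exact mem_of_mem_erase (hFg' hv)
  · intro hF
    -- the common final step
    have fin1 : ∀ g ∈ l, sb (mk A) g = true → F.Nonempty → ¬ ms m (mk A) ⊆ F →
        F ⊆ ms m g ∪ ms m (mk B) → F ∈ KF m (stL A B b0 l) := by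
      intro g hg hAg hFn hAF hFg
      obtain ⟨g', hg', h8, h9⟩ := key g hg hAg
      obtain ⟨a, ha, haF⟩ := not_subset.1 hAF
      have ha1 : (a : ℕ) ∈ A := (mk_tb _ _).1 (mem_ms.1 ha)
      refine ⟨hFn, er g' (mk B) a, (hmem _).2 (Or.inr ⟨g', hg', h8, a, ha1, rfl⟩), ?_⟩
      rw [ms_er]
      intro v hv
      refine mem_erase.2 ⟨fun h => haF (h ▸ hv), ?_⟩
      rcases mem_union.1 (hFg hv) with h | h
      · exact h9 h
      · exact mem_union_right _ h
    rcases hF with ⟨⟨hF, g, hg, hFg⟩, hAF⟩ | ⟨hBF, hAF, b, hb, -, g, hg, hFg⟩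
    · cases hAg : sb (mk A) g with
      | false => exact ⟨hF, g, (hmem _).2 (Or.inl ⟨hg, hAg⟩), hFg⟩
      | true => exact fin1 g hg hAg hF hAF (hFg.trans subset_union_left)
    · have hAg : sb (mk A) g = true := (ms_sub hAm g).1 ((hG.sub_er hb).trans hFg)
      refine fin1 g hg hAg (hG.hB.mono hBF) hAF ?_
      intro v hv
      by_cases hvb : v = b
      · apply mem_union_right; rw [hvb]; exact hb
      · exact mem_union_left _ (hFg (mem_erase.2 ⟨hvb, mem_union_left _ hv⟩))

/-- a chain of flips with the expected lists -/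
def chain (m : ℕ) : List (List ℕ × List ℕ × ℕ × List ℕ) → List ℕ → List ℕ → Bool
  | [], l, f => l == f
  | (A, B, b0, l') :: t, l, f => chk m A B b0 l && (stL A B b0 l == l') && chain m t l' f

theorem chain_spec {m : ℕ} {t : List (List ℕ × List ℕ × ℕ × List ℕ)} {l f : List ℕ}
    (h : chain m t l f = true) : Nonempty (Re (KF m l) ≃ₜ Re (KF m f)) := by
  induction t generalizing l with
  | nil =>
    unfold chain at h
    rw [beq_iff_eq] at h
    subst h
    exact ⟨Homeomorph.refl _⟩
  | cons x t ih =>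
    obtain ⟨A, B, b0, l'⟩ := x
    unfold chain at h
    rw [Bool.and_eq_true, Bool.and_eq_true, beq_iff_eq] at h
    obtain ⟨⟨h1, h2⟩, h3⟩ := h
    obtain ⟨e⟩ := ih h3
    obtain ⟨h4, h5⟩ := chk_spec h1
    rw [h2] at h5
    have e2 := h4.homeo
    rw [← h5] at e2
    exact ⟨e2.trans e⟩

end Pool.Agent.V11201.EB
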