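import Pool.Agent.V11201.EB.Gen

set_option autoImplicit false
set_option linter.unusedSectionVars false
open Finset

namespace Pool.Agent.V11201.EB
open Pool.Agent.V11201.RP

/-- the corner simplex -/
def Cs : Set (EuclideanSpace ℝ (Fin 4)) := {y | (∀ k, 0 ≤ y k) ∧ ∑ k, y k ≤ 1}

theorem Cs_closed : IsClosed Cs := by
  have h1 : Cs = (⋂ k, {y : EuclideanSpace ℝ (Fin 4) | 0 ≤ y k}) ∩ {y | ∑ k, y k ≤ 1} := by
    ext y; simp [Cs]
  rw [h1]
  refine IsClosed.inter (isClosed_iInter fun k => ?_) ?_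
  · exact isClosed_le continuous_const (by fun_prop)
  · exact isClosed_le (by fun_prop) continuous_const

theorem Cs_convex : Convex ℝ Cs := by
  intro x hx y hy a b ha hb hab
  refine ⟨fun k => ?_, ?_⟩
  · have h1 := hx.1 k
    have h2 := hy.1 k
    have : (a • x + b • y) k = a * x k + b * y k := rfl
    rw [this]
    positivity
  · have : ∑ k, (a • x + b • y) k = a * ∑ k, x k + b * ∑ k, y k := by
      rw [mul_sum, mul_sum, ← sum_add_distrib]
      rfl
    rw [this]
    have h1 := mul_le_mul_of_nonneg_left hx.2 ha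
    have h2 := mul_le_mul_of_nonneg_left hy.2 hb
    linarith

theorem Cs_int : (interior Cs).Nonempty := by
  set c : EuclideanSpace ℝ (Fin 4) := WithLp.toLp 2 (fun _ => (1 / 8 : ℝ)) with hc
  refine ⟨c, ?_⟩
  rw [mem_interior]
  refine ⟨{y | (∀ k, 0 < y k) ∧ ∑ k, y k < 1}, ?_, ?_, ?_⟩
  · rintro y ⟨h1, h2⟩
    exact ⟨fun k => (h1 k).le, h2.le⟩
  · have h1 : {y : EuclideanSpace ℝ (Fin 4) | (∀ k, 0 < y k) ∧ ∑ k, y k < 1} =
        (⋂ k, {y : EuclideanSpace ℝ (Fin 4) | 0 < y k}) ∩ {y | ∑ k, y k < 1} := by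
      ext y; simp
    rw [h1]
    refine IsOpen.inter (isOpen_iInter_of_finite fun k => ?_) ?_
    · exact isOpen_lt continuous_const (by fun_prop)
    · exact isOpen_lt (by fun_prop) continuous_const
  · refine ⟨fun k => ?_, ?_⟩
    · change (0 : ℝ) < 1 / 8
      norm_num
    · change ∑ _k : Fin 4, (1 / 8 : ℝ) < 1
      norm_num

theorem Cs_bdd : Bornology.IsBounded Cs := by
  rw [isBounded_iff_forall_norm_le]
  refine ⟨2, ?_⟩
  rintro y ⟨h1, h2⟩
  rw [EuclideanSpace.norm_eq]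
  have h3 : ∀ k, y k ≤ 1 := fun k => (single_le_sum (fun i _ => h1 i) (mem_univ k)).trans h2
  have h4 : ∑ k, ‖y k‖ ^ 2 ≤ 4 := by
    calc ∑ k, ‖y k‖ ^ 2 ≤ ∑ _k : Fin 4, (1 : ℝ) := by
          apply sum_le_sum
          intro k _
          rw [Real.norm_eq_abs, abs_of_nonneg (h1 k)]
          exact pow_le_one₀ (h1 k) (h3 k)
      _ = 4 := by norm_num
  calc √(∑ k, ‖y k‖ ^ 2) ≤ √4 := Real.sqrt_le_sqrt h4
    _ = 2 := by
      rw [show (4 : ℝ) = 2 ^ 2 by norm_num]
      exact Real.sqrt_sq (by norm_num)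

theorem Cs_ball : Nonempty (Cs ≃ₜ Metric.closedBall (0 : EuclideanSpace ℝ (Fin 4)) 1) := by
  obtain ⟨h, -, h2, -⟩ := exists_homeomorph_image_interior_closure_frontier_eq_unitBall
    Cs_convex Cs_int Cs_bdd
  rw [Cs_closed.closure_eq] at h2
  exact ⟨(h.image Cs).trans (Homeomorph.setCongr h2)⟩

/-- the points -/
noncomputable def toC (x : Fin 15 → ℝ) : EuclideanSpace ℝ (Fin 4) :=
  WithLp.toLp 2 ![x 1, x 6, x 8, x 12]

/-- back -/
noncomputable def ofC (y : EuclideanSpace ℝ (Fin 4)) : Fin 15 → ℝ :=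
  ![0, y 0, 0, 0, 0, 0, y 1, 0, y 2, 0, 0, 0, y 3, 1 - (y 0 + y 1 + y 2 + y 3), 0]

theorem mem_simp {x : Fin 15 → ℝ} : x ∈ Re (KF 15 [12610]) ↔
    (∀ v, 0 ≤ x v) ∧ ∑ v, x v = 1 ∧ ∀ v ∉ ms 15 12610, x v = 0 := by
  constructor
  · rintro ⟨h1, h2, h3, g, hg, h4⟩
    rw [List.mem_singleton] at hg
    subst hg
    refine ⟨h1, h2, ?_⟩
    intro v hv
    by_contra hcon
    exact hv (h4 (RP.mem_sup.2 hcon))
  · rintro ⟨h1, h2, h3⟩
    refine ⟨h1, h2, ?_, 12610, by simp, ?_⟩
    · by_contra hcon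
      rw [not_nonempty_iff_eq_empty] at hcon
      have : ∀ v, x v = 0 := by
        intro v
        by_contra hv
        have := RP.mem_sup.2 hv
        rw [hcon] at this
        exact absurd this (notMem_empty _)
      simp [this] at h2
    · intro v hv
      by_contra hcon
      exact RP.mem_sup.1 hv (h3 v hcon)

theorem simp_zero {x : Fin 15 → ℝ} (hx : ∀ v ∉ ms 15 12610, x v = 0) :
    x 0 = 0 ∧ x 2 = 0 ∧ x 3 = 0 ∧ x 4 = 0 ∧ x 5 = 0 ∧ x 7 = 0 ∧ x 9 = 0 ∧ x 10 = 0 ∧ x 11 = 0 ∧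
      x 14 = 0 := by
  refine ⟨?_, ?_, ?_, ?_, ?_, ?_, ?_, ?_, ?_, ?_⟩ <;> apply hx <;> rw [mem_ms] <;> decide

theorem sum15 (x : Fin 15 → ℝ) : ∑ v, x v = x 0 + x 1 + x 2 + x 3 + x 4 + x 5 + x 6 + x 7 + x 8 +
    x 9 + x 10 + x 11 + x 12 + x 13 + x 14 := by
  simp only [Fin.sum_univ_succ, Fin.sum_univ_zero]
  simp only [Fin.succ_zero_eq_one, add_zero]
  ring_nf
  rfl

theorem toC_mem {x : Fin 15 → ℝ} (hx : x ∈ Re (KF 15 [12610])) : toC x ∈ Cs := by
  obtain ⟨h1, h2, h3⟩ := mem_simp.1 hx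
  obtain ⟨z0, z2, z3, z4, z5, z7, z9, z10, z11, z14⟩ := simp_zero h3
  rw [sum15] at h2
  refine ⟨?_, ?_⟩
  · intro k
    fin_cases k
    · exact h1 1
    · exact h1 6
    · exact h1 8
    · exact h1 12
  · rw [Fin.sum_univ_four]
    change x 1 + x 6 + x 8 + x 12 ≤ 1
    have := h1 13
    linarith

theorem ofC_mem {y : EuclideanSpace ℝ (Fin 4)} (hy : y ∈ Cs) : ofC y ∈ Re (KF 15 [12610]) := by
  obtain ⟨h1, h2⟩ := hy
  rw [Fin.sum_univ_four] at h2
  rw [mem_simp]
  refine ⟨?_, ?_, ?_⟩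
  · intro v
    fin_cases v
    · exact le_refl (0 : ℝ)
    · exact h1 0
    · exact le_refl (0 : ℝ)
    · exact le_refl (0 : ℝ)
    · exact le_refl (0 : ℝ)
    · exact le_refl (0 : ℝ)
    · exact h1 1
    · exact le_refl (0 : ℝ)
    · exact h1 2
    · exact le_refl (0 : ℝ)
    · exact le_refl (0 : ℝ)
    · exact le_refl (0 : ℝ)
    · exact h1 3
    · change 0 ≤ 1 - (y 0 + y 1 + y 2 + y 3)
      linarith
    · exact le_refl (0 : ℝ)
  · rw [sum15]
    change (0 : ℝ) + y 0 + 0 + 0 + 0 + 0 + y 1 + 0 + y 2 + 0 + 0 + 0 + y 3 +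
      (1 - (y 0 + y 1 + y 2 + y 3)) + 0 = 1
    ring
  · intro v hv
    fin_cases v
    · rfl
    · exact absurd (mem_ms.2 (by decide)) hv
    · rfl
    · rfl
    · rfl
    · rfl
    · exact absurd (mem_ms.2 (by decide)) hv
    · rfl
    · exact absurd (mem_ms.2 (by decide)) hv
    · rfl
    · rfl
    · rfl
    · exact absurd (mem_ms.2 (by decide)) hv
    · exact absurd (mem_ms.2 (by decide)) hv
    · rfl

theorem ofC_toC {x : Fin 15 → ℝ} (hx : x ∈ Re (KF 15 [12610])) : ofC (toC x) = x := by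
  obtain ⟨h1, h2, h3⟩ := mem_simp.1 hx
  obtain ⟨z0, z2, z3, z4, z5, z7, z9, z10, z11, z14⟩ := simp_zero h3
  rw [sum15] at h2
  funext v
  fin_cases v
  · exact z0.symm
  · rfl
  · exact z2.symm
  · exact z3.symm
  · exact z4.symm
  · exact z5.symm
  · rfl
  · exact z7.symm
  · rfl
  · exact z9.symm
  · exact z10.symm
  · exact z11.symm
  · rfl
  · change 1 - (x 1 + x 6 + x 8 + x 12) = x 13
    linarith
  · exact z14.symm

theorem toC_ofC (y : EuclideanSpace ℝ (Fin 4)) : toC (ofC y) = y := by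
  ext k
  fin_cases k <;> rfl

/-- the simplex is the corner simplex -/
noncomputable def sC : Re (KF 15 [12610]) ≃ₜ Cs where
  toFun x := ⟨toC x.1, toC_mem x.2⟩
  invFun y := ⟨ofC y.1, ofC_mem y.2⟩
  left_inv x := Subtype.ext (ofC_toC x.2)
  right_inv y := Subtype.ext (toC_ofC y.1)
  continuous_toFun := by
    refine Continuous.subtype_mk ?_ _
    unfold toC
    refine (PiLp.continuous_toLp 2 _).comp ?_
    refine continuous_pi fun k => ?_
    fin_cases k
    · exact (continuous_apply (1 : Fin 15)).comp continuous_subtype_val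
    · exact (continuous_apply (6 : Fin 15)).comp continuous_subtype_val
    · exact (continuous_apply (8 : Fin 15)).comp continuous_subtype_val
    · exact (continuous_apply (12 : Fin 15)).comp continuous_subtype_val
  continuous_invFun := by
    refine Continuous.subtype_mk ?_ _
    have hk : ∀ k : Fin 4, Continuous (fun y : Cs => y.1 k) := fun k => by fun_prop
    unfold ofC
    refine continuous_pi fun v => ?_
    fin_cases v
    · exact continuous_const
    · exact hk 0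
    · exact continuous_const
    · exact continuous_const
    · exact continuous_const
    · exact continuous_const
    · exact hk 1
    · exact continuous_const
    · exact hk 2
    · exact continuous_const
    · exact continuous_const
    · exact continuous_const
    · exact hk 3
    · exact continuous_const.sub ((((hk 0).add (hk 1)).add (hk 2)).add (hk 3))
    · exact continuous_const

end Pool.Agent.V11201.EB
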