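import Pool.Agent.V11201.EB.Gen

set_option autoImplicit false
set_option linter.unusedSectionVars false
open Finset

namespace Pool.Agent.V11201.EB
open Pool.Agent.V11201.RP

/-- the corner simplex -/
def Cd (d : ℕ) : Set (EuclideanSpace ℝ (Fin d)) := {y | (∀ k, 0 ≤ y k) ∧ ∑ k, y k ≤ 1}

variable {d : ℕ}

theorem Cd_closed : IsClosed (Cd d) := by
  have h1 : Cd d = (⋂ k, {y : EuclideanSpace ℝ (Fin d) | 0 ≤ y k}) ∩ {y | ∑ k, y k ≤ 1} := by
    ext y; simp [Cd]
  rw [h1]
  refine IsClosed.inter (isClosed_iInter fun k => ?_) ?_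
  · exact isClosed_le continuous_const (by fun_prop)
  · exact isClosed_le (by fun_prop) continuous_const

theorem Cd_convex : Convex ℝ (Cd d) := by
  intro x hx y hy a b ha hb hab
  refine ⟨fun k => ?_, ?_⟩
  · have h1 := hx.1 k
    have h2 := hy.1 k
    have : (a • x + b • y) k = a * x k + b * y k := rfl
    rw [this]
    positivity
  · have : ∑ k, (a • x + b • y) k = a * ∑ k, x k + b * ∑ k, y k := by
      rw [mul_sum, mul_sum, ← sum_add_distrib]
      rfl
    rw [this]
    have h1 := mul_le_mul_of_nonneg_left hx.2 ha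
    have h2 := mul_le_mul_of_nonneg_left hy.2 hb
    linarith

theorem Cd_int : (interior (Cd d)).Nonempty := by
  set c : EuclideanSpace ℝ (Fin d) := WithLp.toLp 2 (fun _ => (1 / (d + 1) : ℝ)) with hc
  refine ⟨c, ?_⟩
  rw [mem_interior]
  have hd : (0 : ℝ) < d + 1 := by positivity
  refine ⟨{y | (∀ k, 0 < y k) ∧ ∑ k, y k < 1}, ?_, ?_, ?_⟩
  · rintro y ⟨h1, h2⟩
    exact ⟨fun k => (h1 k).le, h2.le⟩
  · have h1 : {y : EuclideanSpace ℝ (Fin d) | (∀ k, 0 < y k) ∧ ∑ k, y k < 1} =
        (⋂ k, {y : EuclideanSpace ℝ (Fin d) | 0 < y k}) ∩ {y | ∑ k, y k < 1} := by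
      ext y; simp
    rw [h1]
    refine IsOpen.inter (isOpen_iInter_of_finite fun k => ?_) ?_
    · exact isOpen_lt continuous_const (by fun_prop)
    · exact isOpen_lt (by fun_prop) continuous_const
  · refine ⟨fun k => ?_, ?_⟩
    · change (0 : ℝ) < 1 / (d + 1)
      positivity
    · change ∑ _k : Fin d, (1 / (d + 1) : ℝ) < 1
      rw [sum_const, card_univ, Fintype.card_fin, nsmul_eq_mul, mul_one_div, div_lt_one hd]
      linarith

theorem Cd_bdd : Bornology.IsBounded (Cd d) := by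
  rw [isBounded_iff_forall_norm_le]
  refine ⟨√d, ?_⟩
  rintro y ⟨h1, h2⟩
  rw [EuclideanSpace.norm_eq]
  have h3 : ∀ k, y k ≤ 1 := fun k => (single_le_sum (fun i _ => h1 i) (mem_univ k)).trans h2
  have h4 : ∑ k, ‖y k‖ ^ 2 ≤ d := by
    calc ∑ k, ‖y k‖ ^ 2 ≤ ∑ _k : Fin d, (1 : ℝ) := by
          apply sum_le_sum
          intro k _
          rw [Real.norm_eq_abs, abs_of_nonneg (h1 k)]
          exact pow_le_one₀ (h1 k) (h3 k)
      _ = d := by simp
  exact Real.sqrt_le_sqrt h4

theorem Cd_ball : Nonempty (Cd d ≃ₜ Metric.closedBall (0 : EuclideanSpace ℝ (Fin d)) 1) := by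
  obtain ⟨h, -, h2, -⟩ := exists_homeomorph_image_interior_closure_frontier_eq_unitBall
    (Cd_convex (d := d)) Cd_int Cd_bdd
  rw [Cd_closed.closure_eq] at h2
  exact ⟨(h.image (Cd d)).trans (Homeomorph.setCongr h2)⟩

section
variable {n : ℕ} (p : Fin (d + 1) ↪ Fin n)

/-- the coordinates -/
noncomputable def toCd (x : Fin n → ℝ) : EuclideanSpace ℝ (Fin d) :=
  WithLp.toLp 2 (fun k => x (p k.castSucc))

/-- back -/
noncomputable def ofCd (y : EuclideanSpace ℝ (Fin d)) : Fin n → ℝ := fun i =>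
  (∑ k : Fin d, if i = p k.castSucc then y k else 0) +
    if i = p (Fin.last d) then 1 - ∑ k, y k else 0

theorem mem_single {g : ℕ} (hg : ms n g = univ.map p) {x : Fin n → ℝ} :
    x ∈ Re (KF n [g]) ↔ (∀ v, 0 ≤ x v) ∧ ∑ v, x v = 1 ∧ ∀ v ∉ univ.map p, x v = 0 := by
  rw [← hg]
  constructor
  · rintro ⟨h1, h2, h3, g', hg', h4⟩
    rw [List.mem_singleton] at hg'
    subst hg'
    refine ⟨h1, h2, ?_⟩
    intro v hv
    by_contra hcon
    exact hv (h4 (RP.mem_sup.2 hcon))
  · rintro ⟨h1, h2, h3⟩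
    refine ⟨h1, h2, ?_, g, by simp, ?_⟩
    · by_contra hcon
      rw [not_nonempty_iff_eq_empty] at hcon
      have : ∀ v, x v = 0 := by
        intro v
        by_contra hv
        have := RP.mem_sup.2 hv
        rw [hcon] at this
        exact absurd this (notMem_empty _)
      simp [this] at h2
    · intro v hv
      by_contra hcon
      exact RP.mem_sup.1 hv (h3 v hcon)

theorem sum_supp {x : Fin n → ℝ} (h : ∀ v ∉ univ.map p, x v = 0) :
    ∑ v, x v = (∑ k : Fin d, x (p k.castSucc)) + x (p (Fin.last d)) := by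
  rw [← Fin.sum_univ_castSucc (fun k => x (p k)), ← sum_map univ p x]
  symm
  apply sum_subset (subset_univ _)
  intro v _ hv
  exact h v hv

theorem ofCd_cast (y : EuclideanSpace ℝ (Fin d)) (k : Fin d) :
    ofCd p y (p k.castSucc) = y k := by
  unfold ofCd
  have h1 : p k.castSucc ≠ p (Fin.last d) := fun h => (Fin.castSucc_lt_last k).ne (p.injective h)
  rw [if_neg h1, add_zero]
  simp

theorem ofCd_last (y : EuclideanSpace ℝ (Fin d)) :
    ofCd p y (p (Fin.last d)) = 1 - ∑ k, y k := by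
  unfold ofCd
  rw [if_pos rfl]
  have h1 : ∀ k : Fin d, p (Fin.last d) ≠ p k.castSucc :=
    fun k h => (Fin.castSucc_lt_last k).ne (p.injective h.symm)
  simp [h1]

theorem ofCd_out (y : EuclideanSpace ℝ (Fin d)) {v : Fin n} (hv : v ∉ univ.map p) :
    ofCd p y v = 0 := by
  unfold ofCd
  have h1 : ∀ k, v ≠ p k := fun k h => hv (mem_map.2 ⟨k, mem_univ _, h.symm⟩)
  simp [h1]

theorem toCd_mem {g : ℕ} (hg : ms n g = univ.map p) {x : Fin n → ℝ} (hx : x ∈ Re (KF n [g])) :
    toCd p x ∈ Cd d := by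
  obtain ⟨h1, h2, h3⟩ := (mem_single p hg).1 hx
  rw [sum_supp p h3] at h2
  refine ⟨fun k => h1 _, ?_⟩
  change ∑ k : Fin d, x (p k.castSucc) ≤ 1
  have := h1 (p (Fin.last d))
  linarith

theorem ofCd_mem {g : ℕ} (hg : ms n g = univ.map p) {y : EuclideanSpace ℝ (Fin d)}
    (hy : y ∈ Cd d) : ofCd p y ∈ Re (KF n [g]) := by
  obtain ⟨h1, h2⟩ := hy
  rw [mem_single p hg]
  refine ⟨?_, ?_, fun v hv => ofCd_out p y hv⟩
  · intro v
    by_cases hv : v ∈ univ.map p
    · obtain ⟨k, -, rfl⟩ := mem_map.1 hv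
      induction k using Fin.lastCases with
      | last => rw [ofCd_last]; linarith
      | cast k => rw [ofCd_cast]; exact h1 k
    · rw [ofCd_out p y hv]
  · rw [sum_supp p (fun v hv => ofCd_out p y hv), ofCd_last]
    simp only [ofCd_cast]
    ring

theorem ofCd_toCd {g : ℕ} (hg : ms n g = univ.map p) {x : Fin n → ℝ}
    (hx : x ∈ Re (KF n [g])) : ofCd p (toCd p x) = x := by
  obtain ⟨h1, h2, h3⟩ := (mem_single p hg).1 hx
  rw [sum_supp p h3] at h2
  funext v
  by_cases hv : v ∈ univ.map p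
  · obtain ⟨k, -, rfl⟩ := mem_map.1 hv
    induction k using Fin.lastCases with
    | last =>
      rw [ofCd_last]
      change 1 - ∑ k : Fin d, x (p k.castSucc) = _
      linarith
    | cast k => rw [ofCd_cast]; rfl
  · rw [ofCd_out p _ hv, h3 v hv]

theorem toCd_ofCd (y : EuclideanSpace ℝ (Fin d)) : toCd p (ofCd p y) = y := by
  ext k
  exact ofCd_cast p y k

/-- the simplex is the corner simplex -/
noncomputable def sCd {g : ℕ} (hg : ms n g = univ.map p) : Re (KF n [g]) ≃ₜ Cd d where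
  toFun x := ⟨toCd p x.1, toCd_mem p hg x.2⟩
  invFun y := ⟨ofCd p y.1, ofCd_mem p hg y.2⟩
  left_inv x := Subtype.ext (ofCd_toCd p hg x.2)
  right_inv y := Subtype.ext (toCd_ofCd p y.1)
  continuous_toFun := by
    refine Continuous.subtype_mk ?_ _
    unfold toCd
    refine (PiLp.continuous_toLp 2 _).comp ?_
    exact continuous_pi fun k => (continuous_apply _).comp continuous_subtype_val
  continuous_invFun := by
    refine Continuous.subtype_mk ?_ _
    have hk : ∀ k : Fin d, Continuous (fun y : Cd d => y.1 k) := fun k => by fun_prop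
    unfold ofCd
    refine continuous_pi fun v => ?_
    refine Continuous.add ?_ ?_
    · refine continuous_finsetSum _ fun k _ => ?_
      split_ifs
      · exact hk k
      · exact continuous_const
    · split_ifs
      · exact continuous_const.sub (continuous_finsetSum _ fun k _ => hk k)
      · exact continuous_const

/-- a simplex is a ball -/
theorem simplex_ball {g : ℕ} (hg : ms n g = univ.map p) :
    Nonempty (Re (KF n [g]) ≃ₜ Metric.closedBall (0 : EuclideanSpace ℝ (Fin d)) 1) := by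
  obtain ⟨f⟩ := Cd_ball (d := d)
  exact ⟨(sCd p hg).trans f⟩

end

end Pool.Agent.V11201.EB
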